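import Pool.Agent.Lib.MP_a785f2_an.LZ.Defs
import Pool.Agent.Lib.MP_a785f2_an.LY.Div
import Pool.Agent.Lib.MP_a785f2_an.LY.AC

/-! Polar coordinates. -/

open MeasureTheory Metric Set Filter Topology
open scoped ContDiff RealInnerProductSpace ENNReal

namespace Pool.Agent.Lib.MP_a785f2_an.LZ

open HS (V)

variable {n m : ℕ} {Ω : Set (E n)} {P : V m → Op m} {L : ℝ} {N : Rl n m} {u : E n → V m}
  {G : E n → W n m} {f : E n → V m}

variable {X : Type} [NormedAddCommGroup X] [NormedSpace ℝ X]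

theorem int_tos (hn : 1 ≤ n) (g : S n → X) :
    ∫ θ, g θ ∂(volume : Measure (E n)).toSphere = om n • ∫ θ, g θ ∂sph n := by
  rw [sph, integral_smul_measure, smul_smul, ENNReal.toReal_inv, ← measureReal_def]
  have := om_pos hn
  rw [om] at this ⊢
  rw [mul_inv_cancel₀ this.ne', one_smul]

omit [NormedSpace ℝ X] in
theorem int_sph (hn : 1 ≤ n) {g : S n → X} (h : Integrable g (volume : Measure (E n)).toSphere) :
    Integrable g (sph n) := by
  have h1 := om_pos hn
  rw [om, measureReal_def, ENNReal.toReal_pos_iff] at h1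
  exact h.smul_measure (ENNReal.inv_ne_top.2 h1.1.ne')

theorem pol_int (hn : 1 ≤ n) [CompleteSpace X] {g : E n → X} (c : E n) {B : Set ℝ}
    (hB : MeasurableSet B) (h0 : B ⊆ Ioi 0) (hg : IntegrableOn g {x | dist x c ∈ B} volume) :
    IntegrableOn (fun s => s ^ (n - 1) • ∫ θ, sl g c s θ ∂sph n) B volume ∧
      (∀ᵐ s, s ∈ B → Integrable (sl g c s) (sph n)) ∧
      ∫ x in {x | dist x c ∈ B}, g x = om n • ∫ s in B, s ^ (n - 1) • ∫ θ, sl g c s θ ∂sph n := by
  have hm : MeasurableSet {x : E n | dist x c ∈ B} :=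
    (by fun_prop : Measurable fun x : E n => dist x c) hB
  have hi : Integrable ({x : E n | dist x c ∈ B}.indicator g) := (integrable_indicator_iff hm).2 hg
  have e : ∀ s ∈ B, ∀ θ : S n,
      {x : E n | dist x c ∈ B}.indicator g (c + s • (θ : E n)) = sl g c s θ := fun s hs θ =>
    indicator_of_mem (by rwa [mem_ofPred_eq, dist_eq_norm, LY.polar_norm c (le_of_lt (h0 hs))]) _
  have o0 := (om_pos hn).ne'
  refine ⟨?_, ?_, ?_⟩
  · refine IntegrableOn.congr_fun
      (((LY.polar_dens hn c hi).mono_set h0).smul (om n)⁻¹) (fun s hs => ?_) hB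
    simp only [Pi.smul_apply, e s hs, int_tos hn]
    rw [smul_comm (s ^ (n - 1)), smul_smul, inv_mul_cancel₀ o0, one_smul]
  · filter_upwards [LY.polar_slice hn c hi] with s hs hB
    have := hs (h0 hB)
    simp only [e s hB] at this
    exact int_sph hn this
  · have h1 := LY.polar_set hn c hi hB
    simp only [← dist_eq_norm] at h1
    rw [setIntegral_indicator hm, inter_self, inter_eq_right.2 h0] at h1
    rw [h1, ← integral_smul]
    refine setIntegral_congr_fun hB fun s hs => ?_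
    simp only [e s hs, int_tos hn]
    rw [smul_comm]

theorem pol_ae (hn : 1 ≤ n) {p : E n → Prop} (h : ∀ᵐ x, p x) (c : E n) :
    ∀ᵐ s : ℝ, 0 < s → ∀ᵐ θ ∂sph n, p (c + s • ((θ : S n) : E n)) := by
  filter_upwards [LY.polar_ae hn c h] with s hs h0
  exact Measure.ae_smul_measure (hs h0) _

theorem pol_ball (hn : 1 ≤ n) (c : E n) (s : ℝ) :
    ball c s =ᵐ[volume] {x | dist x c ∈ Ioo 0 s} := by
  have := LY.nontriv hn
  filter_upwards [Measure.ae_ne volume c] with x hx
  exact propext ⟨fun h => ⟨dist_pos.2 hx, h⟩, fun h => h.2⟩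

theorem pol_pr (hn : 1 ≤ n) [CompleteSpace X] {g : E n → X} (c : E n) (R : ℝ)
    (hg : Integrable g volume) :
    Pr (fun s => ∫ x in ball c s, g x) (fun s => (om n * s ^ (n - 1)) • ∫ θ, sl g c s θ ∂sph n) R := by
  refine ⟨fun a b ha hab _ => ?_, ?_⟩
  · have h1 := LY.ac_prim (LY.polar_ii hn c hg le_rfl (ha.le.trans hab)) left_mem_uIcc
    have h2 : uIcc a b ⊆ uIcc 0 b := uIcc_subset_uIcc
      (by rw [uIcc_of_le (ha.le.trans hab)]; exact ⟨ha.le, hab⟩) right_mem_uIcc
    refine LY.ac_of_le' zero_le_one (h1.mono h2) fun s hs t ht => ?_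
    rw [uIcc_of_le hab] at hs ht
    rw [one_mul, LY.polar_ball hn c hg (ha.le.trans hs.1), LY.polar_ball hn c hg (ha.le.trans ht.1)]
  · filter_upwards [LY.polar_deriv hn c hg] with s hs hm
    have := hs hm.1
    rw [int_tos hn, smul_smul, mul_comm] at this
    exact this

theorem sl_meas {g : E n → X} (hg : StronglyMeasurable g) (c : E n) (s : ℝ) :
    StronglyMeasurable (sl g c s) := by
  exact hg.comp_measurable (Continuous.measurable (by fun_prop))

theorem pp_meas (hG : StronglyMeasurable G) (c : E n) (s : ℝ) : StronglyMeasurable (pp G c s) := by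
  exact (sl_meas hG c s).const_smul s

theorem sM_meas (hn : 1 ≤ n) (hG : StronglyMeasurable G) (c : E n) (k : ℕ) :
    Measurable fun s => sM (pp G c s) k := by
  have := sph_prob hn
  have h1 : StronglyMeasurable fun q : ℝ × S n => G (c + q.1 • (q.2 : E n)) :=
    hG.comp_measurable (LY.cont_polar c).measurable
  have h2 : StronglyMeasurable fun q : ℝ × S n => ‖q.1 • G (c + q.1 • (q.2 : E n))‖ ^ k :=
    ((measurable_fst.stronglyMeasurable.smul h1).norm.pow k :)
  exact (h2.integral_prod_right' (ν := sph n)).measurable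

theorem sM_nonneg (p : S n → W n m) (k : ℕ) : 0 ≤ sM p k := by
  exact integral_nonneg fun _ => by positivity

theorem Dat.pol_en (D : Dat Ω P L N u G f) (c : E n) :
    IntegrableOn (fun s => s⁻¹ * sM (pp G c s) n) (Ioi 0) volume ∧
      (∀ᵐ s : ℝ, 0 < s → Integrable (fun θ => ‖pp G c s θ‖ ^ n) (sph n)) ∧
      ∀ B : Set ℝ, MeasurableSet B → B ⊆ Ioi 0 →
        en G {x | dist x c ∈ B} = om n * ∫ s in B, s⁻¹ * sM (pp G c s) n := by
  have hn : 1 ≤ n := le_trans (by norm_num) D.n3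
  have e0 : ∀ s : ℝ, 0 < s → ∀ θ : S n,
      ‖pp G c s θ‖ ^ n = s ^ n * sl (fun x => ‖G x‖ ^ n) c s θ := fun s hs θ => by
    rw [pp, norm_smul, mul_pow, Real.norm_of_nonneg hs.le]; rfl
  have e : ∀ s : ℝ, 0 < s → s ^ (n - 1) • ∫ θ, sl (fun x => ‖G x‖ ^ n) c s θ ∂sph n =
      s⁻¹ * sM (pp G c s) n := fun s hs => by
    simp only [sM, e0 s hs]
    rw [integral_const_mul, smul_eq_mul, ← mul_assoc, pow_sub₀ s hs.ne' hn, pow_one, mul_comm s⁻¹]
  obtain ⟨h1, h2, -⟩ := pol_int hn c measurableSet_Ioi Subset.rfl D.iG.integrableOn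
  refine ⟨h1.congr_fun (fun s hs => e s hs) measurableSet_Ioi, ?_, fun B hB h0 => ?_⟩
  · filter_upwards [h2] with s hs h0
    simp only [e0 s h0]
    exact (hs h0).const_mul _
  · rw [en, (pol_int hn c hB h0 D.iG.integrableOn).2.2, smul_eq_mul,
      setIntegral_congr_fun hB fun s hs => e s (h0 hs)]

end Pool.Agent.Lib.MP_a785f2_an.LZ
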