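import Pool.Agent.Lib.MP_a785f2_an.LZ.Defs

/-! Pointwise algebra. -/

open MeasureTheory Metric Set Filter Topology
open scoped ContDiff RealInnerProductSpace ENNReal

namespace Pool.Agent.Lib.MP_a785f2_an.LZ

open HS (V)

variable {n m : ℕ} {Ω : Set (E n)} {P : V m → Op m} {L : ℝ} {N : Rl n m} {u : E n → V m}
  {G : E n → W n m} {f : E n → V m}

theorem rad_add (p q : W n m) (θ : E n) : rad (p + q) θ = rad p θ + rad q θ := by
  simp only [rad, PiLp.add_apply, smul_add, Finset.sum_add_distrib]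

theorem rad_sub (p q : W n m) (θ : E n) : rad (p - q) θ = rad p θ - rad q θ := by
  simp only [rad, PiLp.sub_apply, smul_sub, Finset.sum_sub_distrib]

theorem rad_smul (s : ℝ) (p : W n m) (θ : E n) : rad (s • p) θ = s • rad p θ := by
  simp only [rad, PiLp.smul_apply, Finset.smul_sum, smul_comm s]

theorem norm_rad_le (p : W n m) (θ : E n) : ‖rad p θ‖ ≤ ‖p‖ * ‖θ‖ := by
  refine (norm_sum_le _ _).trans ?_
  simp only [norm_smul]
  rw [mul_comm, PiLp.norm_eq_of_L2 p, EuclideanSpace.norm_eq θ]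
  exact Real.sum_mul_le_sqrt_mul_sqrt _ _ _

theorem rad_ten (a : V m) {θ : E n} (h : ‖θ‖ = 1) : rad (ten a θ) θ = a := by
  have h1 : ∑ α, θ α * θ α = 1 := by
    have := EuclideanSpace.real_norm_sq_eq θ
    simp only [h, sq] at this
    linarith
  simp only [rad, ten, smul_smul]
  rw [← Finset.sum_smul, h1, one_smul]

theorem norm_ten (a : V m) (θ : E n) : ‖ten a θ‖ = ‖a‖ * ‖θ‖ := by
  refine (sq_eq_sq₀ (norm_nonneg _) (by positivity)).1 ?_
  rw [PiLp.norm_sq_eq_of_L2, mul_pow, EuclideanSpace.norm_sq_eq θ, Finset.mul_sum]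
  refine Finset.sum_congr rfl fun α _ => ?_
  simp only [ten, norm_smul]
  ring

theorem inner_ten (p : W n m) (a : V m) (θ : E n) : ⟪p, ten a θ⟫ = ⟪rad p θ, a⟫ := by
  simp only [PiLp.inner_apply (x := p), ten, rad, sum_inner, real_inner_smul_left,
    real_inner_smul_right]

theorem rad_grad (w : E n → V m) (x v : E n) : rad (grad w x) v = fderiv ℝ w x v := by
  simp only [rad, grad, ← map_smul, ← map_sum]
  congr 1
  ext i
  simp [Pi.single_apply]

theorem continuous_rad : Continuous fun q : W n m × E n => rad q.1 q.2 := by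
  unfold rad
  fun_prop

theorem continuous_ten : Continuous fun q : V m × E n => ten q.1 q.2 := by
  unfold ten
  fun_prop

theorem continuous_AA : Continuous fun p : W n m => AA p := by
  unfold AA
  fun_prop

theorem continuous_grad {w : E n → V m} (h : ContDiff ℝ 1 w) : Continuous (grad w) := by
  have := h.continuous_fderiv one_ne_zero
  unfold grad
  fun_prop

theorem Geo.continuous_al (g : Geo P L) : Continuous fun q : V m × W n m => al P q.1 q.2 := by
  have := g.cP.continuous_fderiv one_ne_zero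
  unfold al
  fun_prop

theorem Geo.lip (g : Geo P L) (q q' : V m) : ‖P q - P q'‖ ≤ L * ‖q - q'‖ := by
  exact convex_univ.norm_image_sub_le_of_norm_fderiv_le (𝕜 := ℝ)
    (fun x _ => g.cP.differentiable one_ne_zero x) (fun x _ => g.dP x) (mem_univ _) (mem_univ _)

theorem norm_AA (hn : 2 ≤ n) (p : W n m) : ‖AA p‖ = ‖p‖ ^ (n - 1) := by
  obtain ⟨k, rfl⟩ := Nat.exists_eq_add_of_le' hn
  rw [AA, norm_smul, norm_pow, norm_norm]
  exact (pow_succ _ _).symm

theorem inner_AA (hn : 2 ≤ n) (p : W n m) : ⟪AA p, p⟫ = ‖p‖ ^ n := by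
  obtain ⟨k, rfl⟩ := Nat.exists_eq_add_of_le' hn
  rw [AA, real_inner_smul_left, real_inner_self_eq_norm_sq]
  exact (pow_add _ _ _).symm

theorem AA_smul (hn : 2 ≤ n) {s : ℝ} (hs : 0 ≤ s) (p : W n m) : AA (s • p) = s ^ (n - 1) • AA p := by
  obtain ⟨k, rfl⟩ := Nat.exists_eq_add_of_le' hn
  rw [AA, AA, norm_smul, Real.norm_of_nonneg hs, smul_smul, smul_smul]
  congr 1
  change (s * ‖p‖) ^ k * s = s ^ (k + 1) * ‖p‖ ^ k
  ring

theorem Geo.al_le (g : Geo P L) (hn : 2 ≤ n) (q : V m) (p : W n m) : ‖al P q p‖ ≤ L * ‖p‖ ^ n := by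
  obtain ⟨k, rfl⟩ := Nat.exists_eq_add_of_le' hn
  have h : ‖∑ α, fderiv ℝ P q (p α) (p α)‖ ≤ L * ‖p‖ ^ 2 := by
    rw [PiLp.norm_sq_eq_of_L2, Finset.mul_sum]
    refine (norm_sum_le _ _).trans (Finset.sum_le_sum fun α _ => ?_)
    refine ((fderiv ℝ P q).le_opNorm₂ _ _).trans ?_
    rw [sq, ← mul_assoc]
    gcongr
    exact g.dP q
  rw [al, norm_smul, norm_pow, norm_norm]
  change ‖p‖ ^ k * _ ≤ _
  calc _ ≤ ‖p‖ ^ k * (L * ‖p‖ ^ 2) := by gcongr
    _ = _ := by ring

theorem al_smul (hn : 2 ≤ n) {s : ℝ} (hs : 0 ≤ s) (q : V m) (p : W n m) :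
    al P q (s • p) = s ^ n • al P q p := by
  obtain ⟨k, rfl⟩ := Nat.exists_eq_add_of_le' hn
  simp only [al, PiLp.smul_apply, map_smul, smul_apply, ← Finset.smul_sum,
    smul_smul, norm_smul, Real.norm_of_nonneg hs]
  congr 1
  change (s * ‖p‖) ^ k * (s * s) = s ^ (k + 2) * ‖p‖ ^ k
  ring

theorem Dat.iF (D : Dat Ω P L N u G f) : Integrable f volume := by
  exact (D.iG.const_mul L).mono' D.mf.aestronglyMeasurable (ae_of_all _ D.f_le)

theorem Dat.iGk (D : Dat Ω P L N u G f) {k : ℕ} (hk : k ≤ n) {A : Set (E n)}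
    (hA : volume A ≠ ⊤) : IntegrableOn (fun x => ‖G x‖ ^ k) A volume := by
  refine (D.iG.integrableOn.add (integrableOn_const (C := (1 : ℝ)) hA)).mono'
    (D.mG.norm.pow k).aestronglyMeasurable (ae_of_all _ fun x => ?_)
  rw [Real.norm_of_nonneg (by positivity), Pi.add_apply]
  rcases le_total ‖G x‖ 1 with h | h
  · exact (pow_le_one₀ (norm_nonneg _) h).trans (le_add_of_nonneg_left (by positivity))
  · exact (pow_le_pow_right₀ h hk).trans (le_add_of_nonneg_right one_pos.le)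

end Pool.Agent.Lib.MP_a785f2_an.LZ
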