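import Pool.Agent.Lib.MP_a785f2_an.LZ.Defs
import Pool.Agent.Lib.MP_a785f2_an.LY.AC

/-! Calculus of absolutely continuous curves. -/

open MeasureTheory Metric Set Filter Topology
open scoped ContDiff RealInnerProductSpace ENNReal

namespace Pool.Agent.Lib.MP_a785f2_an.LZ

open HS (V)

variable {n m : ℕ} {Ω : Set (E n)} {P : V m → Op m} {L : ℝ} {N : Rl n m} {u : E n → V m}
  {G : E n → W n m} {f : E n → V m}

variable {X Y Z : Type} [NormedAddCommGroup X] [NormedSpace ℝ X]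
  [NormedAddCommGroup Y] [NormedSpace ℝ Y] [NormedAddCommGroup Z] [NormedSpace ℝ Z] {R : ℝ}

theorem Pr.mono {g g' : ℝ → X} (h : Pr g g' R) {R' : ℝ} (hR : R' ≤ R) : Pr g g' R' := by
  exact ⟨fun a b ha hab hb => h.1 a b ha hab (hb.trans hR),
    h.2.mono fun s hs h1 => hs ⟨h1.1, h1.2.trans_le hR⟩⟩

theorem Pr.const (a : X) : Pr (fun _ => a) (fun _ => 0) R := by
  exact ⟨fun _ _ _ _ _ => LY.ac_const a _ _, Eventually.of_forall fun s _ => hasDerivAt_const s a⟩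

theorem Pr.add {g g' k k' : ℝ → X} (h : Pr g g' R) (h' : Pr k k' R) :
    Pr (fun s => g s + k s) (fun s => g' s + k' s) R := by
  refine ⟨fun a b ha hab hb => (h.1 a b ha hab hb).add (h'.1 a b ha hab hb), ?_⟩
  filter_upwards [h.2, h'.2] with s h1 h2 hs using (h1 hs).add (h2 hs)

theorem Pr.sub {g g' k k' : ℝ → X} (h : Pr g g' R) (h' : Pr k k' R) :
    Pr (fun s => g s - k s) (fun s => g' s - k' s) R := by
  refine ⟨fun a b ha hab hb => (h.1 a b ha hab hb).sub (h'.1 a b ha hab hb), ?_⟩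
  filter_upwards [h.2, h'.2] with s h1 h2 hs using (h1 hs).sub (h2 hs)

theorem Pr.smul {g g' : ℝ → X} (h : Pr g g' R) (a : ℝ) :
    Pr (fun s => a • g s) (fun s => a • g' s) R := by
  refine ⟨fun b c ha hab hb => (h.1 b c ha hab hb).const_smul a, ?_⟩
  filter_upwards [h.2] with s h1 hs using (h1 hs).const_smul a

theorem Pr.congr {g g' k' : ℝ → X} (h : Pr g g' R) (e : ∀ᵐ s, s ∈ Ioo 0 R → g' s = k' s) :
    Pr g k' R := by
  refine ⟨h.1, ?_⟩
  filter_upwards [h.2, e] with s h1 h2 hs using h2 hs ▸ h1 hs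

theorem Pr.continuousOn {g g' : ℝ → X} (h : Pr g g' R) : ContinuousOn g (Ioc 0 R) := by
  intro s hs
  have h1 := (h.1 (s / 2) R (half_pos hs.1) ((half_le_self hs.1.le).trans hs.2) le_rfl).continuousOn
  rw [uIcc_of_le ((half_le_self hs.1.le).trans hs.2)] at h1
  refine (h1 s ⟨half_le_self hs.1.le, hs.2⟩).mono_of_mem_nhdsWithin ?_
  filter_upwards [self_mem_nhdsWithin, mem_nhdsWithin_of_mem_nhds
    (Ioi_mem_nhds (half_lt_self hs.1))] with t h2 h3 using ⟨le_of_lt h3, h2.2⟩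

theorem Pr.closed {g g' : ℝ → X} (h : Pr g g' R) {K : Set X} (hK : IsClosed K)
    (e : ∀ᵐ s, s ∈ Ioo 0 R → g s ∈ K) : ∀ s ∈ Ioc 0 R, g s ∈ K := by
  intro s hs
  exact LY.mem_of_ae (half_lt_self hs.1)
    (h.continuousOn.mono fun t ht => ⟨(half_pos hs.1).trans_le ht.1, ht.2.trans hs.2⟩) hK
    (e.mono fun t h1 ht => h1 ⟨(half_pos hs.1).trans ht.1, ht.2.trans_le hs.2⟩) s
    ⟨half_le_self hs.1.le, le_rfl⟩

theorem Pr.norm_le {g g' : ℝ → X} (h : Pr g g' R) {a b : ℝ} (ha : 0 < a) (hab : a ≤ b)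
    (hb : b ≤ R) {k : ℝ → ℝ} (hk : IntegrableOn k (Ioo a b) volume)
    (e : ∀ᵐ s, s ∈ Ioo a b → ‖g' s‖ ≤ k s) : ‖g b - g a‖ ≤ ∫ s in Ioo a b, k s := by
  rw [← integral_Ioc_eq_integral_Ioo, ← intervalIntegral.integral_of_le hab]
  refine LY.ac_norm_sub_le (f' := g') hab (h.1 a b ha hab hb)
    ((intervalIntegrable_iff_integrableOn_Ioo_of_le hab).2 hk) ?_
  filter_upwards [h.2, e] with s h1 h2 hs using ⟨h1 ⟨ha.trans hs.1, hs.2.trans_le hb⟩, h2 hs⟩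

theorem Pr.bilin {g g' : ℝ → X} {k k' : ℝ → Y} (h : Pr g g' R) (h' : Pr k k' R)
    (B : X →L[ℝ] Y →L[ℝ] Z) :
    Pr (fun s => B (g s) (k s)) (fun s => B (g' s) (k s) + B (g s) (k' s)) R := by
  refine ⟨fun a b ha hab hb => LY.ac_bilin B (h.1 a b ha hab hb) (h'.1 a b ha hab hb), ?_⟩
  filter_upwards [h.2, h'.2] with s h1 h2 hs
  exact (B.hasDerivAt_of_bilinear (fun _ => h1 hs) fun _ => h2 hs).congr_deriv (add_comm _ _)

end Pool.Agent.Lib.MP_a785f2_an.LZ
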