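import Pool.Agent.Lib.MP_a785f2_an.LZ.Polar
import Pool.Agent.Lib.MP_a785f2_an.LZ.Alg
import Pool.Agent.Lib.MP_a785f2_an.LZ.PrC
import Pool.Agent.Lib.MP_a785f2_an.LY.Curve

/-! Spherical means are absolutely continuous in the radius. -/

open MeasureTheory Metric Set Filter Topology
open scoped ContDiff RealInnerProductSpace ENNReal

namespace Pool.Agent.Lib.MP_a785f2_an.LZ

open HS (V)

variable {n m : ℕ} {Ω : Set (E n)} {P : V m → Op m} {L : ℝ} {N : Rl n m} {u : E n → V m}
  {G : E n → W n m} {f : E n → V m}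

/-- The linear map with the given columns. -/
noncomputable def linR (p : W n m) : E n →L[ℝ] V m :=
  ∑ α, (EuclideanSpace.proj α : E n →L[ℝ] ℝ).smulRight (p α)

theorem linR_apply (p : W n m) (v : E n) : linR p v = rad p v := by
  simp [linR, rad]

theorem linR_le (p : W n m) : ‖linR p‖ ≤ ‖p‖ :=
  ContinuousLinearMap.opNorm_le_bound _ (norm_nonneg _) fun v => by
    rw [linR_apply]; exact norm_rad_le p v

theorem linR_sub (p q : W n m) : linR (p - q) = linR p - linR q := by
  ext1 v; simp only [linR_apply, rad_sub, sub_apply]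

theorem linR_grad (w : E n → V m) (x : E n) : linR (grad w x) = fderiv ℝ w x := by
  ext1 v; rw [linR_apply, rad_grad]

theorem continuous_linR : Continuous (linR : W n m → E n →L[ℝ] V m) :=
  (LipschitzWith.of_dist_le_mul (K := 1) fun p q => by
    rw [dist_eq_norm, dist_eq_norm, ← linR_sub, NNReal.coe_one, one_mul]
    exact linR_le _).continuous

theorem Dat.apq (D : Dat Ω P L N u G f) {c : E n} {R : ℝ} (hR : closedBall c R ⊆ Ω) :
    LY.Apq (volume.restrict (ball c R)) n u fun x => linR (G x) := by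
  obtain ⟨w, h1, -, h2, h3⟩ := D.apx c R hR
  refine ⟨D.iu measure_ball_lt_top.ne, ?_, w, h1, ?_, ?_⟩
  · refine (D.iGk (k := 1) (by linarith [D.n3]) measure_ball_lt_top.ne).mono'
      (continuous_linR.comp_stronglyMeasurable D.mG).aestronglyMeasurable
      (Eventually.of_forall fun x => ?_)
    rw [pow_one]
    exact linR_le _
  · exact tendsto_of_tendsto_of_tendsto_of_le_of_le tendsto_const_nhds h2 (fun _ => zero_le)
      fun _ => lintegral_mono_set ball_subset_closedBall
  · refine tendsto_of_tendsto_of_tendsto_of_le_of_le tendsto_const_nhds h3 (fun _ => zero_le)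
      fun k => (lintegral_mono_set ball_subset_closedBall).trans (lintegral_mono fun x => ?_)
    rw [← linR_grad, ← linR_sub]
    exact pow_le_pow_left' (enorm_le_iff_norm_le.2 (linR_le _)) n

theorem integral_sph {X : Type} [NormedAddCommGroup X] [NormedSpace ℝ X] (g : S n → X) :
    ∫ θ, g θ ∂sph n = (om n)⁻¹ • ∫ θ, g θ ∂(volume : Measure (E n)).toSphere := by
  rw [sph, integral_smul_measure, ENNReal.toReal_inv]
  rfl

theorem Dat.rad1 (D : Dat Ω P L N u G f) {X : Type} [NormedAddCommGroup X] [NormedSpace ℝ X]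
    [CompleteSpace X] {H : V m → X} (hH : ContDiff ℝ 1 H) {B : ℝ} (hB : ∀ q, ‖fderiv ℝ H q‖ ≤ B)
    {c : E n} {R : ℝ} (hR : closedBall c R ⊆ Ω) :
    ∃ Y : ℝ → X,
      Pr Y (fun s => s⁻¹ • ∫ θ, fderiv ℝ H (sl u c s θ) (rad (pp G c s θ) θ) ∂sph n) R ∧
      ∀ᵐ s, s ∈ Ioo 0 R → Y s = ∫ θ, H (sl u c s θ) ∂sph n := by
  rcases le_or_gt R 0 with h0 | h0
  · refine ⟨fun _ => 0, ⟨fun _ _ _ _ _ => LY.ac_const _ _ _, ?_⟩, ?_⟩ <;>
      exact Eventually.of_forall fun s hs => absurd (hs.1.trans hs.2) (not_lt.2 h0)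
  have n1 : 1 ≤ n := by linarith [D.n3]
  have := LY.nontriv n1
  have : IsFiniteMeasure ((volume : Measure (E n)).restrict (ball c R)) :=
    isFiniteMeasure_restrict.2 measure_ball_lt_top.ne
  obtain ⟨y, h1, h2⟩ := (((D.apq hR).mono le_rfl n1).chain hH hB).curve volume h0
  refine ⟨fun s => (om n)⁻¹ • y s, ⟨fun a b ha hab hb =>
    (h1 a b ha (ha.trans_le hab) (hab.trans hb) hb).const_smul _, ?_⟩, ?_⟩
  · filter_upwards [h2] with s h3 hs
    refine ((h3 hs).2.const_smul (om n)⁻¹).congr_deriv ?_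
    rw [integral_sph, smul_comm s⁻¹, ← integral_smul s⁻¹]
    congr 1
    refine integral_congr_ae (Eventually.of_forall fun θ => ?_)
    simp only [sl, pp, ContinuousLinearMap.comp_apply, linR_apply, rad_smul, map_smul]
    rw [smul_smul, inv_mul_cancel₀ hs.1.ne', one_smul]
  · filter_upwards [h2] with s h3 hs
    rw [(h3 hs).1, integral_sph]
    rfl

end Pool.Agent.Lib.MP_a785f2_an.LZ
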