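import Pool.Agent.Lib.MP_a785f2_an.LZ.Mu

/-! Existence of the hole structure. -/

open MeasureTheory Metric Set Filter Topology
open scoped ContDiff RealInnerProductSpace ENNReal

namespace Pool.Agent.Lib.MP_a785f2_an.LZ

open HS (V)

variable {n m : ℕ} {Ω : Set (E n)} {P : V m → Op m} {L : ℝ} {N : Rl n m} {u : E n → V m}
  {G : E n → W n m} {f : E n → V m}

theorem lint_inv {a b : ℝ} (ha : 0 < a) (hab : a ≤ b) :
    ∫⁻ s in Ioo a b, ENNReal.ofReal s⁻¹ = ENNReal.ofReal (Real.log b - Real.log a) := by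
  have hb : 0 < b := ha.trans_le hab
  have hi : IntervalIntegrable (fun s : ℝ => s⁻¹) volume a b :=
    intervalIntegral.intervalIntegrable_inv (f := fun s => s)
      (fun s hs => by
        rw [uIcc_of_le hab] at hs
        exact (ha.trans_le hs.1).ne') continuousOn_id
  rw [← ofReal_integral_eq_lintegral_ofReal
    ((intervalIntegrable_iff_integrableOn_Ioo_of_le hab).1 hi)
    ((ae_restrict_iff' measurableSet_Ioo).2 (ae_of_all _ fun s hs =>
      inv_nonneg.2 (ha.trans hs.1).le)), ← integral_Ioc_eq_integral_Ioo,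
    ← intervalIntegral.integral_of_le hab, integral_inv_of_pos ha hb, Real.log_div hb.ne' ha.ne']

theorem goodM_mono {μ : Measure (E n)} {z : E n} {r a b : ℝ} (hr : 0 < r) (h : LY.GoodM μ z r a)
    (hab : a ≤ b) : LY.GoodM μ z r b :=
  ⟨h.1.trans (by linarith), fun x hx t h1 h2 => (h.2 x hx t h1 h2).trans (by gcongr)⟩

theorem Dat.holes (D : Dat Ω P L N u G f) {z : E n} {r l l' : ℝ} (g : Good Ω G z r l)
    (h0 : 0 < l') (h1 : 2 / 3 * l ^ n ≤ l' ^ n) : ∃ c s1 T J, Hol Ω G z r l l' c s1 T J := by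
  have hn := D.n3
  have : Nonempty (Fin n) := ⟨⟨0, by omega⟩⟩
  have := D.mu_fin
  have := mu_atom (by omega) G
  have hr := g.r0
  have hl := g.l0
  obtain ⟨c, T, hT⟩ := LY.holes (em G) hr (pow_pos hl n) (D.good_iff.1 g).2.2.2
  obtain ⟨J, s1, hJ⟩ := hT.shells hr
  refine ⟨c, s1, T, {j ∈ J | j.2 ≤ s1}, by linarith [hJ.s1_mem.1],
    by linarith [hJ.s1_mem.2, hT.ctr], hT.cnt, hT.disj,
    fun b hb => closedBall_subset_ball' (by linarith [hT.sub b hb]), fun b hb => ?_,
    fun b hb x hx => ?_, hT.vol volume hr, fun x hx _ hoff t ht1 ht2 => ?_,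
    hJ.cnt.mono (sep_subset _ _), hJ.disj.subset (sep_subset _ _),
    fun j hj => ⟨hJ.pos j hj.1, hJ.lt j hj.1, hJ.le2 j hj.1, hj.2⟩, ?_, fun b hb => ?_⟩
  · refine D.good_iff.2 ⟨hT.pos b hb, h0, Subset.trans (closedBall_subset_closedBall' ?_) g.sub,
      goodM_mono (hT.pos b hb) (hT.good b hb) h1⟩
    linarith [hT.sub b hb, dist_nonneg (x := b.1) (y := z)]
  · have h2 := LY.sg_lip c r b.1 x
    have h3 := hT.sml b hb
    have h4 := hT.pos b hb
    have h5 := mem_closedBall'.1 hx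
    change b.2 ≤ LY.sg c r x / 100
    linarith
  · have h2 := hT.off x hx hoff t ht1 ht2
    rw [D.mu_real measurableSet_ball] at h2
    refine h2.trans ?_
    have h3 : 0 < sgm c r x := by linarith
    have h4 : (100 : ℝ) ≤ 5 ^ n :=
      le_trans (by norm_num) (pow_le_pow_right₀ (by norm_num : (1 : ℝ) ≤ 5) hn)
    change 100 * l ^ n * t / sgm c r x ≤ _
    rw [mul_pow]
    gcongr
  · have hc : {j ∈ J | j.2 ≤ s1}.Countable := hJ.cnt.mono (sep_subset _ _)
    have := hc.to_subtype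
    rw [biUnion_eq_iUnion]
    refine (lintegral_iUnion_le _ _).trans ?_
    have h2 := LY.tsum_ofReal_le {j ∈ J | j.2 ≤ s1} (fun j => Real.log j.2 - Real.log j.1)
      (fun j hj => sub_nonneg.2 (Real.log_le_log (hJ.pos j hj.1) (hJ.lt j hj.1).le))
      fun s hs => hJ.sum s (hs.trans (sep_subset _ _))
    refine le_trans (le_of_eq_of_le (tsum_congr fun j => ?_) h2) ?_
    · exact lint_inv (hJ.pos j j.2.1) (hJ.lt j j.2.1).le
    · have : (1 / 2 : ℝ≥0∞) = ENNReal.ofReal (1 / 2) := by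
        rw [ENNReal.ofReal_div_of_pos (by norm_num)]; simp
      rw [this]
      exact ENNReal.ofReal_le_ofReal (by norm_num)
  · obtain ⟨j, hj, h2⟩ := hJ.hole b hb
    by_cases h3 : j.2 ≤ s1
    · exact Or.inr ⟨j, ⟨hj, h3⟩, h2⟩
    · refine Or.inl fun x hx => lt_of_le_of_lt ?_ (h2 x hx).1
      by_contra h4
      exact hJ.s1_off j hj ⟨not_le.1 h4, not_le.1 h3⟩

end Pool.Agent.Lib.MP_a785f2_an.LZ
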