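import Pool.Agent.Lib.MP_a785f2_an.LZ.Alg

/-! Crude bounds on one sphere. -/

open MeasureTheory Metric Set Filter Topology
open scoped ContDiff RealInnerProductSpace ENNReal

namespace Pool.Agent.Lib.MP_a785f2_an.LZ

open HS (V)

variable {n m : ℕ} {Ω : Set (E n)} {P : V m → Op m} {L : ℝ} {N : Rl n m} {u : E n → V m}
  {G : E n → W n m} {f : E n → V m}

variable {Cp : ℝ} {v : S n → V m} {p : S n → W n m} {φ : S n → V m}

theorem int_pow_le {α : Type} [MeasurableSpace α] {μ : Measure α} [IsProbabilityMeasure μ]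
    {h : α → ℝ} (mh : AEStronglyMeasurable h μ) (h0 : ∀ x, 0 ≤ h x) {i q : ℕ} (hi : i ≤ q)
    (ih : Integrable (fun x => h x ^ q) μ) : Integrable (fun x => h x ^ i) μ := by
  refine ((integrable_const (1 : ℝ)).add ih).mono' (mh.pow i) (ae_of_all _ fun x => ?_)
  have hx := h0 x
  rw [Real.norm_of_nonneg (pow_nonneg hx i)]
  show h x ^ i ≤ 1 + h x ^ q
  rcases le_total (h x) 1 with h1 | h1
  · exact (pow_le_one₀ hx h1).trans (le_add_of_nonneg_right (pow_nonneg hx q))
  · exact (pow_le_pow_right₀ h1 hi).trans (le_add_of_nonneg_left zero_le_one)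

theorem cheb {α : Type} [MeasurableSpace α] {μ : Measure α} [IsProbabilityMeasure μ] {h : α → ℝ}
    (mh : AEStronglyMeasurable h μ) (h0 : ∀ x, 0 ≤ h x) {j k : ℕ}
    (ih : Integrable (fun x => h x ^ (j + k)) μ) :
    (∫ x, h x ^ j ∂μ) * ∫ x, h x ^ k ∂μ ≤ ∫ x, h x ^ (j + k) ∂μ := by
  rcases Nat.eq_zero_or_pos k with rfl | hk
  · simp
  have ij := int_pow_le mh h0 (Nat.le_add_right j k) ih
  have ik := int_pow_le mh h0 (Nat.le_add_left k j) ih
  have hB : 0 ≤ ∫ x, h x ^ k ∂μ := integral_nonneg fun x => pow_nonneg (h0 x) k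
  obtain ⟨c, c0, hc⟩ : ∃ c : ℝ, 0 ≤ c ∧ c ^ k = ∫ x, h x ^ k ∂μ :=
    ⟨_, Real.rpow_nonneg hB _, Real.rpow_inv_natCast_pow hB hk.ne'⟩
  have key : ∀ x, c ^ k * h x ^ j + c ^ j * h x ^ k ≤ h x ^ (j + k) + c ^ j * c ^ k := fun x => by
    have : 0 ≤ (h x ^ j - c ^ j) * (h x ^ k - c ^ k) := by
      rcases le_total (h x) c with h1 | h1
      · exact mul_nonneg_of_nonpos_of_nonpos (sub_nonpos.2 (pow_le_pow_left₀ (h0 x) h1 j))
          (sub_nonpos.2 (pow_le_pow_left₀ (h0 x) h1 k))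
      · exact mul_nonneg (sub_nonneg.2 (pow_le_pow_left₀ c0 h1 j))
          (sub_nonneg.2 (pow_le_pow_left₀ c0 h1 k))
    rw [pow_add]
    linarith
  have := integral_mono ((ij.const_mul (c ^ k)).add (ik.const_mul (c ^ j)))
    (ih.add (integrable_const (c ^ j * c ^ k))) key
  simp only [Pi.add_apply] at this
  rw [integral_add (ij.const_mul _) (ik.const_mul _), integral_add ih (integrable_const _),
    integral_const_mul, integral_const_mul, integral_const, probReal_univ, one_smul, hc] at this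
  linarith

theorem Slc.ik (s : Slc L N Cp v p φ) (hn : 1 ≤ n) {k : ℕ} (hk : k ≤ n) :
    Integrable (fun θ => ‖p θ‖ ^ k) (sph n) := by
  have := sph_prob hn
  exact int_pow_le s.mp.norm.aestronglyMeasurable (fun _ => norm_nonneg _) hk s.ip

theorem Slc.cheb1 (s : Slc L N Cp v p φ) (hn : 1 ≤ n) : sM p 1 * sM p (n - 1) ≤ sM p n := by
  have := sph_prob hn
  have e : 1 + (n - 1) = n := by omega
  have h := cheb (μ := sph n) (h := fun θ => ‖p θ‖) (j := 1) (k := n - 1)
    s.mp.norm.aestronglyMeasurable (fun _ => norm_nonneg _) (by rw [e]; exact s.ip)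
  rw [e] at h
  exact h

theorem sM_young (hn : 1 ≤ n) (mp : StronglyMeasurable p)
    (ip : Integrable (fun θ => ‖p θ‖ ^ n) (sph n)) {l : ℝ} (hl : 0 < l) :
    sM p 1 ≤ l + sM p n / l ^ (n - 1) := by
  have := sph_prob hn
  have i1 := int_pow_le mp.norm.aestronglyMeasurable (fun _ => norm_nonneg _) hn ip
  have hp : 0 < l ^ (n - 1) := pow_pos hl _
  have key : ∀ θ, ‖p θ‖ ^ 1 ≤ l + ‖p θ‖ ^ n / l ^ (n - 1) := fun θ => by
    have h0 := norm_nonneg (p θ)
    rw [pow_one]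
    rcases le_total ‖p θ‖ l with h1 | h1
    · exact h1.trans (le_add_of_nonneg_right (by positivity))
    · refine le_trans ?_ (le_add_of_nonneg_left hl.le)
      rw [le_div_iff₀ hp]
      calc ‖p θ‖ * l ^ (n - 1) ≤ ‖p θ‖ * ‖p θ‖ ^ (n - 1) :=
            mul_le_mul_of_nonneg_left (pow_le_pow_left₀ hl.le h1 _) h0
        _ = ‖p θ‖ ^ n := by rw [← pow_succ', Nat.sub_add_cancel hn]
  have := integral_mono i1 ((integrable_const l).add (ip.div_const _)) key
  simp only [Pi.add_apply] at this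
  rw [integral_add (integrable_const _) (ip.div_const _), integral_const, probReal_univ, one_smul,
    integral_div] at this
  exact this

theorem Slc.sa_le (s : Slc L N Cp v p φ) (hn : 1 ≤ n) : ‖sa p‖ ≤ sM p 1 := by
  refine norm_integral_le_of_norm_le (s.ik hn hn) (ae_of_all _ fun θ => ?_)
  have h := norm_rad_le (p θ) θ
  rw [norm_eq_of_mem_sphere θ, mul_one] at h
  rw [pow_one]
  exact h

theorem Slc.sF_le (s : Slc L N Cp v p φ) (hn : 2 ≤ n) : ‖sF p‖ ≤ sM p (n - 1) := by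
  refine norm_integral_le_of_norm_le (s.ik (by omega) (Nat.sub_le n 1)) (ae_of_all _ fun θ => ?_)
  have h := norm_rad_le (AA (p θ)) θ
  rw [norm_eq_of_mem_sphere θ, mul_one, norm_AA hn] at h
  exact h

theorem Slc.sD_le (s : Slc L N Cp v p φ) (hn : 2 ≤ n) : ‖sD φ‖ ≤ L * sM p n := by
  have _ := hn
  rw [sM, ← integral_const_mul]
  exact norm_integral_le_of_norm_le (s.ip.const_mul L) (ae_of_all _ s.bf)

theorem Slc.sR_le (s : Slc L N Cp v p φ) (hn : 2 ≤ n) {y : V m} {d : ℝ}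
    (h : ∀ᵐ θ ∂sph n, ‖v θ - y‖ ≤ d) : |sR v φ y| ≤ L * d * sM p n := by
  have _ := hn
  rw [sM, ← integral_const_mul, ← Real.norm_eq_abs]
  refine norm_integral_le_of_norm_le (s.ip.const_mul (L * d)) (h.mono fun θ hθ => ?_)
  calc ‖⟪φ θ, v θ - y⟫‖ ≤ ‖φ θ‖ * ‖v θ - y‖ := norm_inner_le_norm _ _
    _ ≤ L * ‖p θ‖ ^ n * d :=
        mul_le_mul (s.bf θ) hθ (norm_nonneg _) ((norm_nonneg _).trans (s.bf θ))
    _ = L * d * ‖p θ‖ ^ n := by ring

theorem Slc.sR_shift (s : Slc L N Cp v p φ) (hn : 2 ≤ n) (y : V m) :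
    sR v φ y = sR v φ 0 - ⟪sD φ, y⟫ := by
  have _ := hn
  have iφ : Integrable φ (sph n) :=
    (s.ip.const_mul L).mono' s.mf.aestronglyMeasurable (ae_of_all _ s.bf)
  have i0 : Integrable (fun θ => ⟪φ θ, v θ - 0⟫) (sph n) := by
    refine (iφ.norm.mul_const L).mono'
      (s.mf.inner (s.mv.sub stronglyMeasurable_const)).aestronglyMeasurable
      (ae_of_all _ fun θ => (norm_inner_le_norm _ _).trans ?_)
    rw [sub_zero]
    exact mul_le_mul_of_nonneg_left (s.bv θ) (norm_nonneg _)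
  rw [sR, sR, sD, real_inner_comm, ← integral_inner iφ, ← integral_sub i0 (iφ.const_inner y)]
  refine integral_congr_ae (ae_of_all _ fun θ => ?_)
  simp only [sub_zero, inner_sub_right, real_inner_comm y]

theorem Slc.sy_le (s : Slc L N Cp v p φ) (hn : 1 ≤ n) : ‖sy v‖ ≤ L := by
  have := sph_prob hn
  have h := norm_integral_le_of_norm_le (μ := sph n) (integrable_const L) (ae_of_all _ s.bv)
  rw [integral_const, probReal_univ, one_smul] at h
  exact h

end Pool.Agent.Lib.MP_a785f2_an.LZ
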