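import Pool.Agent.Lib.MP_a785f2_an.LZ.Mu
import Pool.Agent.Lib.MP_a785f2_an.LZ.Polar
import Pool.Agent.Lib.MP_a785f2_an.LZ.Sph0
import Pool.Agent.Lib.MP_a785f2_an.LY.Hole

/-! Hole filling. -/

open MeasureTheory Metric Set Filter Topology
open scoped ContDiff RealInnerProductSpace ENNReal

namespace Pool.Agent.Lib.MP_a785f2_an.LZ

open HS (V)

variable {n m : ℕ} {Ω : Set (E n)} {P : V m → Op m} {L : ℝ} {N : Rl n m} {u : E n → V m}
  {G : E n → W n m} {f : E n → V m}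

theorem Dat.many (D : Dat Ω P L N u G f) {z : E n} {r l : ℝ} (hr : 0 < r) (hl : 0 < l)
    (hs : closedBall z (4 * r) ⊆ Ω) (he : en G (ball z (4 * r)) ≤ l ^ n / 2000) :
    volume {s | s ∈ Ioo r (2 * r) ∧ ¬Good Ω G z s l} ≤ ENNReal.ofReal (r / 2) := by
  have := D.mu_fin
  obtain ⟨U, -, hU, h⟩ := LY.good_radii (em G) (z := z) (L := l ^ n / 100) hr (by positivity)
    (by rw [D.mu_real measurableSet_ball]; linarith)
  refine le_trans (measure_mono fun s h0 => ?_) hU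
  by_contra hsU
  have h1 := h s (Ioo_subset_Icc_self h0.1) hsU
  rw [show 100 * (l ^ n / 100) = l ^ n by ring] at h1
  exact h0.2 (D.good_iff.2 ⟨hr.trans h0.1.1, hl,
    Subset.trans (closedBall_subset_closedBall (by linarith [h0.1.2])) hs, h1⟩)

theorem dec_root {k : ℕ} (hk : k ≠ 0) {D e : ℝ} (hD : 0 ≤ D) (he : 0 ≤ e)
    (h : ∀ t : ℝ, 0 < t → D ≤ t ^ k + e / t) : D ^ (k + 1) ≤ 2 ^ (k + 1) * e ^ k := by
  rcases hD.eq_or_lt with h0 | h0
  · rw [← h0, zero_pow (Nat.succ_ne_zero k)]; positivity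
  have h2 : 0 < D / 2 := by positivity
  have ht : ((D / 2) ^ ((k : ℝ)⁻¹)) ^ k = D / 2 := Real.rpow_inv_natCast_pow h2.le hk
  have t0 : 0 < (D / 2) ^ ((k : ℝ)⁻¹) := Real.rpow_pos_of_pos h2 _
  generalize (D / 2) ^ ((k : ℝ)⁻¹) = t at ht t0
  have h3 := h t t0
  have h4 : t ^ (k + 1) ≤ e := by
    rw [pow_succ, ht, ← le_div_iff₀ t0]; linarith
  calc D ^ (k + 1) = 2 ^ (k + 1) * (t ^ (k + 1)) ^ k := by
        rw [← pow_mul, mul_comm (k + 1) k, pow_mul, ht, ← mul_pow]; congr 1; ring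
    _ ≤ _ := by gcongr

theorem dec_mom {k : ℕ} {p : S (k + 1) → W (k + 1) m}
    (ip : Integrable (fun θ => ‖p θ‖ ^ (k + 1)) (sph (k + 1))) {t : ℝ} (ht : 0 < t) :
    sM p k ≤ t ^ k + sM p (k + 1) / t := by
  have := sph_prob (n := k + 1) (by omega)
  have hi : Integrable (fun θ => t ^ k + ‖p θ‖ ^ (k + 1) / t) (sph (k + 1)) :=
    (integrable_const _).add (ip.div_const t)
  have hle : ∀ θ, ‖p θ‖ ^ k ≤ t ^ k + ‖p θ‖ ^ (k + 1) / t := fun θ => by
    rcases le_total ‖p θ‖ t with h | h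
    · exact le_add_of_le_of_nonneg (pow_le_pow_left₀ (norm_nonneg _) h k) (by positivity)
    · refine le_add_of_nonneg_of_le (by positivity) ?_
      rw [le_div_iff₀ ht, pow_succ]
      exact mul_le_mul_of_nonneg_left h (by positivity)
  refine (integral_mono_of_nonneg (ae_of_all _ fun _ => by positivity) hi
    (ae_of_all _ hle)).trans_eq ?_
  rw [integral_add (integrable_const _) (ip.div_const t), integral_const, integral_div]
  simp [sM]

theorem Dat.shell (D : Dat Ω P L N u G f) (z : E n) {r : ℝ} (hr : 0 < r) {B : Set ℝ}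
    (hB : MeasurableSet B) (hs : B ⊆ Ioo r (2 * r)) :
    en G {x | dist x z ∈ B} ≤ en G (ball z (2 * r)) - en G (ball z r) := by
  have mB : MeasurableSet {x : E n | dist x z ∈ B} :=
    (continuous_id.dist continuous_const).measurable hB
  have hd : Disjoint (ball z r) {x : E n | dist x z ∈ B} :=
    Set.disjoint_left.2 fun x hx hx' => lt_asymm (mem_ball.1 hx) (hs hx').1
  have h1 : en G (ball z r ∪ {x | dist x z ∈ B}) = en G (ball z r) + en G {x | dist x z ∈ B} :=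
    setIntegral_union hd mB D.iG.integrableOn D.iG.integrableOn
  have h2 := D.en_mono (A := ball z r ∪ {x | dist x z ∈ B}) (B := ball z (2 * r))
    (union_subset (ball_subset_ball (by linarith)) fun x hx => mem_ball.2 (hs hx).2)
  linarith

theorem Dat.pick (D : Dat Ω P L N u G f) (z : E n) {r : ℝ} (hr : 0 < r) {O : Set ℝ}
    (hO : volume O ≤ ENNReal.ofReal (r / 2)) {q : ℝ → Prop} (hq : ∀ᵐ s, q s) :
    ∃ s ∈ Ioo r (2 * r), s ∉ O ∧ q s ∧
      sM (pp G z s) n ≤ 4 / om n * (en G (ball z (2 * r)) - en G (ball z r)) := by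
  have hn : 1 ≤ n := by have := D.n3; omega
  have o0 := om_pos hn
  set B : Set ℝ := Ioo r (2 * r) \ toMeasurable volume O with hBd
  have mB : MeasurableSet B := measurableSet_Ioo.diff (measurableSet_toMeasurable _ _)
  have sB : B ⊆ Ioo r (2 * r) := sdiff_subset
  have pB : B ⊆ Ioi 0 := fun s hs => hr.trans (sB hs).1
  have fB : volume B ≠ ⊤ := ((measure_mono sB).trans_lt measure_Ioo_lt_top).ne
  have vB : r / 2 ≤ volume.real B := by
    have h1 : ENNReal.ofReal (r / 2) ≤ volume B := by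
      refine le_trans ?_ le_measure_sdiff
      rw [measure_toMeasurable, Real.volume_Ioo]
      refine le_trans ?_ (tsub_le_tsub_left hO _)
      rw [← ENNReal.ofReal_sub _ (by positivity)]
      exact ENNReal.ofReal_le_ofReal (by linarith)
    exact (ENNReal.ofReal_le_iff_le_toReal fB).1 h1
  have : IsFiniteMeasure (volume.restrict B) := isFiniteMeasure_restrict.2 fB
  obtain ⟨i1, -, e1⟩ := D.pol_en z
  have ne : volume.restrict B ≠ 0 := fun h => by
    rw [Measure.restrict_eq_zero] at h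
    rw [measureReal_def, h, ENNReal.toReal_zero] at vB
    linarith
  have nl : volume.restrict B {s | ¬(s ∈ B ∧ q s)} = 0 :=
    ae_iff.1 ((ae_restrict_mem mB).and (ae_restrict_of_ae hq))
  obtain ⟨s, hs, h⟩ := exists_notMem_null_le_average ne (i1.mono_set pB) nl
  have hs' : s ∈ B ∧ q s := not_not.1 hs
  have s0 : 0 < s := pB hs'.1
  refine ⟨s, sB hs'.1, fun ho => hs'.1.2 (subset_toMeasurable _ _ ho), hs'.2, ?_⟩
  have e2 := D.shell z hr mB sB
  have e3 := en_nonneg G {x | dist x z ∈ B}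
  rw [e1 B mB pB] at e2 e3
  rw [average_eq, smul_eq_mul, measureReal_restrict_apply_univ] at h
  generalize ∫ s in B, s⁻¹ * sM (pp G z s) n = I at h e2 e3
  have I0 : 0 ≤ I := nonneg_of_mul_nonneg_right e3 o0
  have h2 : (volume.real B)⁻¹ * I ≤ (r / 2)⁻¹ * I :=
    mul_le_mul_of_nonneg_right (inv_anti₀ (by positivity) vB) I0
  have h3 : sM (pp G z s) n ≤ s * ((r / 2)⁻¹ * I) := by
    rw [← inv_mul_le_iff₀ s0]; exact h.trans h2
  have h4 : s * ((r / 2)⁻¹ * I) ≤ 2 * r * ((r / 2)⁻¹ * I) :=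
    mul_le_mul_of_nonneg_right (sB hs'.1).2.le (by positivity)
  have h5 : 2 * r * ((r / 2)⁻¹ * I) = 4 / om n * (om n * I) := by field_simp; ring
  exact h3.trans (h4.trans (h5.trans_le (mul_le_mul_of_nonneg_left e2 (by positivity))))

theorem Dat.decay (D : Dat Ω P L N u G f) {C l1 : ℝ} (hC : 0 < C) (h1 : 0 < l1)
    (H : ∀ c R, closedBall c R ⊆ Ω → ∀ᵐ s, s ∈ Ioo 0 R →
      ∀ l, l ≤ l1 → Good Ω G c s l → en G (ball c s) ≤ C * l * sM (pp G c s) (n - 1)) :
    ∃ ϑ : ℝ, 0 < ϑ ∧ ϑ < 1 ∧ ∃ e0 : ℝ, 0 < e0 ∧ ∀ z r, 0 < r → closedBall z (4 * r) ⊆ Ω →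
      en G (ball z (4 * r)) ≤ e0 → en G (ball z r) ≤ ϑ * en G (ball z (4 * r)) := by
  have n3 := D.n3
  obtain ⟨k, rfl⟩ : ∃ k, n = k + 1 := ⟨n - 1, by omega⟩
  have o0 := om_pos (n := k + 1) (by omega)
  set K : ℝ := 2 ^ (k + 1) * (4 / om (k + 1)) ^ k with hK
  have K0 : 0 ≤ K := by positivity
  obtain ⟨ϑ, t1, t2, h⟩ := LY.hole_fill' (n := k + 1) (by omega) (2000 + K + C)
  refine ⟨ϑ, by linarith, t2, l1 ^ (k + 1) / 2000, by positivity, fun z r hr hs he => ?_⟩
  have a0 := en_nonneg G (ball z r)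
  have ab := D.en_mono (ball_subset_ball (x := z) (by linarith : r ≤ 2 * r))
  have bc := D.en_mono (ball_subset_ball (x := z) (by linarith : 2 * r ≤ 4 * r))
  rcases (a0.trans (ab.trans bc)).eq_or_lt with c0 | c0
  · rw [← c0] at bc ⊢; linarith
  have c1 : 0 < 2000 * en G (ball z (4 * r)) := by positivity
  obtain ⟨l, l0, hl⟩ : ∃ l : ℝ, 0 < l ∧ l ^ (k + 1) = 2000 * en G (ball z (4 * r)) :=
    ⟨_, Real.rpow_pos_of_pos c1 _, Real.rpow_inv_natCast_pow c1.le (Nat.succ_ne_zero k)⟩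
  have ll : l ≤ l1 := le_of_pow_le_pow_left₀ (n := k + 1) (by omega) h1.le (by linarith)
  obtain ⟨s, hs1, hs2, ⟨q1, q2⟩, hs3⟩ := D.pick z hr (D.many hr l0 hs (by linarith))
    ((H z (2 * r) ((closedBall_subset_closedBall (by linarith)).trans hs)).and (D.pol_en z).2.1)
  have s0 : 0 < s := hr.trans hs1.1
  have gd : Good Ω G z s l := by
    by_contra hg
    exact hs2 ⟨hs1, hg⟩
  have e1 := q1 ⟨s0, hs1.2⟩ l ll gd
  have e2 := D.en_mono (ball_subset_ball (x := z) hs1.1.le)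
  have D0 := sM_nonneg (pp G z s) k
  have e3 := dec_root (k := k) (by omega) D0 (sM_nonneg (pp G z s) (k + 1))
    fun t ht => dec_mom (q2 s0) ht
  have d0 : 0 ≤ (en G (ball z (2 * r)) - en G (ball z r)) ^ k := pow_nonneg (by linarith) _
  refine h _ _ _ l _ a0 ab bc l0.le D0 ?_ ?_ ?_
  · rw [hl]
    exact mul_le_mul_of_nonneg_right (by linarith) c0.le
  · refine e3.trans (le_trans ?_ (mul_le_mul_of_nonneg_right (by linarith : K ≤ 2000 + K + C) d0))
    rw [hK, mul_assoc, Nat.add_sub_cancel, ← mul_pow]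
    exact mul_le_mul_of_nonneg_left (pow_le_pow_left₀ (sM_nonneg _ _) hs3 k) (by positivity)
  · refine e2.trans (e1.trans ?_)
    exact mul_le_mul_of_nonneg_right (mul_le_mul_of_nonneg_right (by linarith) l0.le) D0

end Pool.Agent.Lib.MP_a785f2_an.LZ
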