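import Pool.Agent.Lib.MP_a785f2_an.LZ.Alg

/-! Additivity and frozen regions. -/

open MeasureTheory Metric Set Filter Topology
open scoped ContDiff RealInnerProductSpace ENNReal

namespace Pool.Agent.Lib.MP_a785f2_an.LZ

open HS (V)

variable {n m : ℕ} {Ω : Set (E n)} {P : V m → Op m} {L : ℝ} {N : Rl n m} {u : E n → V m}
  {G : E n → W n m} {f : E n → V m}

theorem pieces {α ι : Type} [MeasurableSpace α] {μ : Measure α} {h : α → ℝ} {A : Set α}
    (mA : MeasurableSet A) {T : Set ι} (cT : T.Countable) {B : ι → Set α}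
    (mB : ∀ i ∈ T, MeasurableSet (B i)) (dB : T.PairwiseDisjoint B) (sB : ∀ i ∈ T, B i ⊆ A)
    (ih : IntegrableOn h A μ) (h1 : ∀ i ∈ T, 0 ≤ ∫ x in B i, h x ∂μ)
    (h2 : ∀ᵐ x ∂μ, x ∈ A → (∀ i ∈ T, x ∉ B i) → 0 ≤ h x) : 0 ≤ ∫ x in A, h x ∂μ := by
  have mU : MeasurableSet (⋃ i ∈ T, B i) := MeasurableSet.biUnion cT mB
  have sU : (⋃ i ∈ T, B i) ⊆ A := iUnion₂_subset sB
  have h3 : 0 ≤ ∫ x in ⋃ i ∈ T, B i, h x ∂μ := by
    have := cT.to_subtype
    have h4 := ih.mono_set sU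
    rw [biUnion_eq_iUnion] at h4 ⊢
    rw [integral_iUnion (fun i : T => mB i i.2)
      (fun i j hij => dB i.2 j.2 fun e => hij (Subtype.ext e)) h4]
    exact tsum_nonneg fun i => h1 i i.2
  have h4 : 0 ≤ ∫ x in A \ ⋃ i ∈ T, B i, h x ∂μ :=
    setIntegral_nonneg_ae (mA.diff mU) (h2.mono fun x hx hx' =>
      hx hx'.1 fun i hi hb => hx'.2 (mem_biUnion hi hb))
  rw [setIntegral_sdiff mU ih sU] at h4
  linarith

theorem Dat.inner_le (D : Dat Ω P L N u G f) (x : E n) {a : V m} {C : ℝ} (h : ‖a‖ ≤ C) :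
    ‖⟪f x, a⟫‖ ≤ L * C * ‖G x‖ ^ n := by
  have h1 : 0 ≤ L * ‖G x‖ ^ n := (norm_nonneg _).trans (D.f_le x)
  refine (norm_inner_le_norm _ _).trans
    ((mul_le_mul (D.f_le x) h (norm_nonneg _) h1).trans_eq ?_)
  ring

theorem Dat.iff (D : Dat Ω P L N u G f) : Integrable f volume :=
  (D.iG.const_mul L).mono' D.mf.aestronglyMeasurable (ae_of_all _ D.f_le)

theorem Dat.ifg (D : Dat Ω P L N u G f) {g : E n → V m} (mg : StronglyMeasurable g) {C : ℝ}
    (hg : ∀ x, ‖g x‖ ≤ C) : Integrable (fun x => ⟪f x, g x⟫) volume :=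
  (D.iG.const_mul (L * C)).mono' (D.mf.inner mg).aestronglyMeasurable
    (ae_of_all _ fun x => D.inner_le x (hg x))

theorem Dat.iQ (D : Dat Ω P L N u G f) (κ : ℝ) (Z : V m) :
    Integrable (fun x => κ * ‖G x‖ ^ n - ⟪f x, Z + κ • u x⟫) volume := by
  refine (D.iG.const_mul κ).sub (D.ifg (D.mu.const_smul κ |>.const_add Z)
    (C := ‖Z‖ + |κ| * L) fun x => (norm_add_le _ _).trans ?_)
  rw [norm_smul, Real.norm_eq_abs]
  gcongr
  exact D.bu x

theorem Dat.Q_ball (D : Dat Ω P L N u G f) (κ : ℝ) (c : E n) (s : ℝ) (Z : V m) :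
    Q u G f κ (ball c s) Z = om n * (κ * Iu u G f c s + ⟪Ff f c s, Z⟫) := by
  have h0 := (om_pos (n := n) (by have := D.n3; omega)).ne'
  have h1 : IntegrableOn (fun x => ‖G x‖ ^ n - ⟪f x, u x⟫) (ball c s) volume :=
    (D.iG.sub (D.ifg D.mu D.bu)).integrableOn
  have h2 := (D.ifg (stronglyMeasurable_const (b := Z)) fun _ => le_rfl).integrableOn
    (s := ball c s)
  have h3 : ⟪∫ x in ball c s, f x, Z⟫ = ∫ x in ball c s, ⟪f x, Z⟫ := by
    rw [real_inner_comm, ← integral_inner D.iff.integrableOn]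
    exact integral_congr_ae (ae_of_all _ fun x => real_inner_comm _ _)
  have h4 : Q u G f κ (ball c s) Z =
      κ * (∫ x in ball c s, (‖G x‖ ^ n - ⟪f x, u x⟫)) - ∫ x in ball c s, ⟪f x, Z⟫ := by
    rw [← integral_const_mul, ← integral_sub (h1.const_mul κ) h2]
    refine integral_congr_ae (ae_of_all _ fun x => ?_)
    simp only [inner_add_right, real_inner_smul_right]
    ring
  rw [h4, Iu, Ff, inner_neg_left, real_inner_smul_left, h3]
  field_simp
  ring

theorem Dat.Q_le (D : Dat Ω P L N u G f) {κ : ℝ} (hκ : 0 ≤ κ) (A : Set (E n)) (Z : V m) :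
    |Q u G f κ A Z| ≤ (κ + L * (‖Z‖ + κ * L)) * en G A := by
  rw [en, ← integral_const_mul, Q, ← Real.norm_eq_abs]
  refine norm_integral_le_of_norm_le (D.iG.const_mul _).integrableOn (ae_of_all _ fun x => ?_)
  have h1 : ‖Z + κ • u x‖ ≤ ‖Z‖ + κ * L := by
    refine (norm_add_le _ _).trans ?_
    rw [norm_smul, Real.norm_of_nonneg hκ]
    gcongr
    exact D.bu x
  have h2 := D.inner_le x h1
  have h3 : 0 ≤ κ * ‖G x‖ ^ n := by positivity
  refine (norm_sub_le _ _).trans ?_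
  rw [Real.norm_of_nonneg h3]
  linarith

theorem Dat.split (D : Dat Ω P L N u G f) (κ : ℝ) (Z : V m) {A U U1 U2 : Set (E n)}
    (m1 : MeasurableSet U1) (m2 : MeasurableSet U2) (mA : MeasurableSet A)
    (hd : Disjoint U1 U2) (he : U =ᵐ[volume] (U1 ∪ U2 : Set (E n))) :
    Q u G f κ U Z = Q u G f κ U1 Z + Q u G f κ U2 Z ∧ en G U = en G U1 + en G U2 ∧
      en G (A ∩ U) = en G (A ∩ U1) + en G (A ∩ U2) := by
  refine ⟨?_, ?_, ?_⟩
  · rw [Q, setIntegral_congr_set he,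
      setIntegral_union hd m2 (D.iQ κ Z).integrableOn (D.iQ κ Z).integrableOn]
    rfl
  · rw [en, setIntegral_congr_set he, setIntegral_union hd m2 D.iG.integrableOn D.iG.integrableOn]
    rfl
  · rw [en, setIntegral_congr_set ((ae_eq_refl A).inter he), inter_union_distrib_left,
      setIntegral_union (hd.mono inter_subset_right inter_subset_right) (mA.inter m2)
        D.iG.integrableOn D.iG.integrableOn]
    rfl

theorem Dat.frozen (D : Dat Ω P L N u G f) {κ c0 C0 : ℝ} (hκ : 0 ≤ κ) (hc : c0 ≤ 1 / 2)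
    (hC : 0 ≤ C0) {A U : Set (E n)} (mA : MeasurableSet A) (mU : MeasurableSet U)
    {T : Set (E n × ℝ)} (cT : T.Countable) (dT : T.PairwiseDisjoint fun b => ball b.1 b.2)
    (sT : ∀ b ∈ T, ball b.1 b.2 ⊆ U) (Z : V m)
    (h1 : ∀ b ∈ T, c0 * κ * en G (ball b.1 b.2) - C0 * en G (A ∩ ball b.1 b.2) ≤
      Q u G f κ (ball b.1 b.2) Z)
    (h2 : ∀ᵐ x, x ∈ U → (∀ b ∈ T, x ∉ ball b.1 b.2) → L * ‖Z + κ • u x‖ ≤ κ / 2) :
    c0 * κ * en G U - C0 * en G (A ∩ U) ≤ Q u G f κ U Z := by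
  have i1 := D.iG.const_mul (c0 * κ)
  have i2 := (D.iG.indicator mA).const_mul C0
  have key : ∀ B : Set (E n), ∫ x in B, (κ * ‖G x‖ ^ n - ⟪f x, Z + κ • u x⟫ -
      (c0 * κ * ‖G x‖ ^ n - C0 * A.indicator (fun x => ‖G x‖ ^ n) x)) =
      Q u G f κ B Z - (c0 * κ * en G B - C0 * en G (A ∩ B)) := fun B => by
    rw [integral_sub (D.iQ κ Z).integrableOn (i1.sub' i2).integrableOn,
      integral_sub i1.integrableOn i2.integrableOn, integral_const_mul, integral_const_mul,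
      setIntegral_indicator mA, inter_comm]
    rfl
  have h3 := pieces (μ := volume) mU cT (B := fun b => ball b.1 b.2)
    (fun _ _ => measurableSet_ball) dT sT ((D.iQ κ Z).sub (i1.sub i2)).integrableOn
    (fun b hb => by
      have := h1 b hb
      exact (key _).symm ▸ sub_nonneg.2 this) (h2.mono fun x hx hU hT => by
      have h4 := D.inner_le x (le_refl ‖Z + κ • u x‖)
      have h5 : 0 ≤ ‖G x‖ ^ n := by positivity
      have h6 : 0 ≤ A.indicator (fun x => ‖G x‖ ^ n) x :=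
        indicator_nonneg (fun _ _ => by positivity) x
      have h7 := mul_le_mul_of_nonneg_right (hx hU hT) h5
      have h8 := mul_le_mul_of_nonneg_right hc (mul_nonneg hκ h5)
      have h9 := mul_nonneg hC h6
      have h10 := (le_abs_self _).trans h4
      simp only [Pi.sub_apply]
      linarith)
  exact sub_nonneg.1 (key U ▸ h3)

end Pool.Agent.Lib.MP_a785f2_an.LZ
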