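import Pool.Agent.Lib.MP_a785f2_an.LZ.Polar
import Pool.Agent.Lib.MP_a785f2_an.LZ.Alg
import Pool.Agent.Lib.MP_a785f2_an.LY.SphQ
import Pool.Agent.Lib.MP_a785f2_an.LY.Curve

/-! Almost every sphere carries slice data. -/

open MeasureTheory Metric Set Filter Topology
open scoped ContDiff RealInnerProductSpace ENNReal

namespace Pool.Agent.Lib.MP_a785f2_an.LZ

open HS (V)

variable {n m : ℕ} {Ω : Set (E n)} {P : V m → Op m} {L : ℝ} {N : Rl n m} {u : E n → V m}
  {G : E n → W n m} {f : E n → V m}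

/-- A family of columns as a linear map. -/
noncomputable def toL (p : W n m) : E n →L[ℝ] V m :=
  ∑ α, (EuclideanSpace.proj α : E n →L[ℝ] ℝ).smulRight (p α)

theorem toL_apply (p : W n m) (v : E n) : toL p v = rad p v := by
  simp [toL, rad]

theorem continuous_toL : Continuous fun p : W n m => toL p := by
  unfold toL
  refine continuous_finsetSum _ fun α _ => ?_
  exact (ContinuousLinearMap.smulRightL ℝ (E n) (V m) (EuclideanSpace.proj α)).continuous.comp
    (by fun_prop)

theorem slc_rad_ten (a : V m) (θ v : E n) : rad (ten a θ) v = ⟪θ, v⟫ • a := by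
  simp [rad, ten, PiLp.inner_apply, Finset.sum_smul, smul_smul]

theorem slc_tang (p : W n m) (a : V m) {θ v : E n} (h : ⟪θ, v⟫ = 0) :
    ‖rad p v‖ ≤ ‖p - ten a θ‖ * ‖v‖ := by
  have := norm_rad_le (p - ten a θ) v
  rwa [rad_sub, slc_rad_ten, h, zero_smul, sub_zero] at this

theorem slc_int (hn : 2 ≤ n) {p : S n → W n m} (mp : StronglyMeasurable p)
    (ip : Integrable (fun θ => ‖p θ‖ ^ n) (sph n)) (a : V m) :
    Integrable (fun θ : S n => ‖p θ - ten a θ‖ ^ 2) (sph n) := by
  have := sph_prob (n := n) (by omega)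
  have c1 : Continuous fun θ : S n => ten a (θ : E n) :=
    continuous_ten.comp (continuous_const.prodMk continuous_subtype_val)
  refine ((ip.const_mul 2).add (integrable_const (2 + 2 * ‖a‖ ^ 2))).mono'
    ((mp.sub c1.stronglyMeasurable).norm.pow 2).aestronglyMeasurable (ae_of_all _ fun θ => ?_)
  have h1 := norm_sub_le (p θ) (ten a θ)
  rw [norm_ten, norm_eq_of_mem_sphere θ, mul_one] at h1
  have h2 : ‖p θ‖ ^ 2 ≤ 1 + ‖p θ‖ ^ n := by
    rcases le_total ‖p θ‖ 1 with h | h
    · exact (pow_le_one₀ (norm_nonneg _) h).trans (le_add_of_nonneg_right (by positivity))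
    · exact (pow_le_pow_right₀ h hn).trans (le_add_of_nonneg_left zero_le_one)
  have h3 := pow_le_pow_left₀ (norm_nonneg _) h1 2
  rw [Real.norm_of_nonneg (sq_nonneg _), Pi.add_apply]
  nlinarith [sq_nonneg (‖p θ‖ - ‖a‖)]

theorem sph_poin (hn : 3 ≤ n) : ∃ Cp : ℝ, 0 < Cp ∧ ∀ w : E n → V m, ContDiff ℝ 1 w →
    ∀ (c : E n) (s : ℝ), 0 < s → ∀ a : V m,
      ∫ θ, ‖sl w c s θ - sy (sl w c s)‖ ^ 2 ∂sph n ≤
        Cp * ∫ θ, ‖pp (grad w) c s θ - ten a θ‖ ^ 2 ∂sph n := by
  have := sph_prob (n := n) (by omega)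
  obtain ⟨C, hC, H⟩ := LY.sphere_two (X := E n) (F := V m) volume
    (by rwa [finrank_euclideanSpace_fin])
  have o1 := om_pos (n := n) (by omega)
  rw [om, measureReal_def, ENNReal.toReal_pos_iff] at o1
  obtain ⟨k, hk⟩ : ∃ k, k = ((volume : Measure (E n)).toSphere univ)⁻¹ := ⟨_, rfl⟩
  have k1 : k ≠ ⊤ := hk ▸ ENNReal.inv_ne_top.2 o1.1.ne'
  refine ⟨(k * C).toReal + 1, by positivity, fun w hw c s _ a => ?_⟩
  have cg : Continuous fun z : E n => s • grad w (c + s • z) - ten a z :=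
    (((continuous_grad hw).comp (by fun_prop)).const_smul s).sub
      (continuous_ten.comp (continuous_const.prodMk continuous_id))
  have cw : Continuous (sl w c s) := hw.continuous.comp (by fun_prop)
  have h1 := H (fun z => w (c + s • z)) (fun z => ‖s • grad w (c + s • z) - ten a z‖)
    (hw.comp (by fun_prop)) cg.norm.measurable (fun _ => norm_nonneg _) fun θ v _ hv => by
      have h2 : HasFDerivAt (fun z : E n => c + s • z) (s • ContinuousLinearMap.id ℝ (E n)) θ :=
        ((hasFDerivAt_id θ).const_smul s).const_add c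
      have h3 := ((hw.differentiable one_ne_zero _).hasFDerivAt.comp θ h2).fderiv
      have h4 : fderiv ℝ (fun z => w (c + s • z)) θ v = rad (s • grad w (c + s • θ)) v := by
        rw [rad_smul, rad_grad]
        have h5 : fderiv ℝ (fun z => w (c + s • z)) θ = _ := h3
        rw [h5]; simp
      rw [h4]; exact slc_tang _ a hv
  have iu : Integrable (sl w c s) (sph n) := cw.integrable_of_hasCompactSupport
    (HasCompactSupport.of_compactSpace _)
  have iD : Integrable (fun θ : S n => ‖pp (grad w) c s θ - ten a θ‖ ^ 2) (sph n) :=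
    ((cg.comp continuous_subtype_val).norm.pow 2).integrable_of_hasCompactSupport
      (HasCompactSupport.of_compactSpace _)
  have h2 := LY.var_le_two (sph n) iu
  have e1 : ∫⁻ θ : S n, ENNReal.ofReal ‖pp (grad w) c s θ - ten a θ‖ ^ 2 ∂sph n =
      ENNReal.ofReal (∫ θ : S n, ‖pp (grad w) c s θ - ten a θ‖ ^ 2 ∂sph n) := by
    rw [ofReal_integral_eq_lintegral_ofReal iD (Eventually.of_forall fun _ => sq_nonneg _)]
    exact lintegral_congr fun θ => (ENNReal.ofReal_pow (norm_nonneg _) 2).symm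
  have h3 : ∫⁻ θ, ∫⁻ θ', ‖sl w c s θ' - sl w c s θ‖ₑ ^ 2 ∂sph n ∂sph n ≤
      k * C * ∫⁻ θ : S n, ENNReal.ofReal ‖pp (grad w) c s θ - ten a θ‖ ^ 2 ∂sph n := by
    rw [sph, ← hk]
    simp only [lintegral_smul_measure, smul_eq_mul]
    rw [lintegral_const_mul' _ _ k1]
    exact (mul_le_mul_right (mul_le_mul_right h1 k) k).trans (le_of_eq (by simp only [pp]; ring))
  have h4 := h2.trans h3
  rw [e1] at h4
  have i0 : 0 ≤ ∫ θ : S n, ‖pp (grad w) c s θ - ten a θ‖ ^ 2 ∂sph n :=
    integral_nonneg fun _ => sq_nonneg _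
  have ma : AEStronglyMeasurable (fun θ => ‖sl w c s θ - sy (sl w c s)‖ ^ 2) (sph n) :=
    (iu.1.sub aestronglyMeasurable_const).norm.pow 2
  rw [integral_eq_lintegral_of_nonneg_ae (Eventually.of_forall fun _ => sq_nonneg _) ma]
  have h5 := ENNReal.toReal_mono (by finiteness) h4
  rw [ENNReal.toReal_mul, ENNReal.toReal_ofReal i0] at h5
  refine le_trans (le_of_eq ?_) (h5.trans (by nlinarith))
  refine congrArg _ (lintegral_congr fun θ => ?_)
  rw [ENNReal.ofReal_pow (norm_nonneg _), ofReal_norm]; rfl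

theorem Dat.slc (D : Dat Ω P L N u G f) : ∃ Cp : ℝ, 0 < Cp ∧ ∀ c R, closedBall c R ⊆ Ω →
    ∀ᵐ s, s ∈ Ioo 0 R → Slc L N Cp (sl u c s) (pp G c s) (ph f c s) := by
  have hn := D.n3
  have := sph_prob (n := n) (by omega)
  obtain ⟨C, hC, H⟩ := LY.slice_poincare (X := E n) (F := V m) volume
    (by rwa [finrank_euclideanSpace_fin]) (sph n) rfl
  refine ⟨C, lt_of_lt_of_le one_pos hC, fun c R hR => ?_⟩
  obtain ⟨w, hw, -, t1, t2⟩ := D.apx c R hR
  have : IsFiniteMeasure (volume.restrict (closedBall c R) : Measure (E n)) :=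
    ⟨by rw [Measure.restrict_apply_univ]; exact measure_closedBall_lt_top⟩
  have s1 := LY.tendsto_pow_mono one_le_two (by omega : 2 ≤ n) t1
  have s2 := LY.tendsto_pow_mono one_le_two (by omega : 2 ≤ n) t2
  have a1 : Tendsto (fun k => ∫⁻ x in ball c R, ‖w k x - u x‖ₑ ^ 2) atTop (𝓝 0) :=
    tendsto_of_tendsto_of_tendsto_of_le_of_le tendsto_const_nhds s1 (fun _ => zero_le)
      fun _ => lintegral_mono_set ball_subset_closedBall
  have a2 : Tendsto (fun k => ∫⁻ x in ball c R, ‖fderiv ℝ (w k) x - toL (G x)‖ₑ ^ 2) atTop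
      (𝓝 0) := by
    refine tendsto_of_tendsto_of_tendsto_of_le_of_le tendsto_const_nhds s2 (fun _ => zero_le)
      fun k => (lintegral_mono fun x => pow_le_pow_left' ?_ 2).trans
        (lintegral_mono_set ball_subset_closedBall)
    rw [← ofReal_norm, ← ofReal_norm]
    refine ENNReal.ofReal_le_ofReal
      (ContinuousLinearMap.opNorm_le_bound _ (norm_nonneg _) fun v => ?_)
    rw [sub_apply, toL_apply, ← rad_grad, ← rad_sub]
    exact norm_rad_le _ _
  filter_upwards [H c R u (fun x => toL (G x)) w D.mu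
    (continuous_toL.comp_stronglyMeasurable D.mG) hw a1 a2, (D.pol_en c).2.1, D.rl c R hR]
    with s hs hi hr hm
  have mv := sl_meas D.mu c s
  have mp := pp_meas D.mG c s
  refine ⟨mv, mp, ((sl_meas D.mf c s).const_smul (s ^ n)).neg, hi hm.1, fun θ => D.bu _,
    fun θ => ?_, hr hm, fun a => ?_⟩
  · have s0 := hm.1
    rw [ph, pp, norm_neg, norm_smul, norm_smul, mul_pow, Real.norm_of_nonneg s0.le,
      Real.norm_of_nonneg (by positivity), mul_left_comm]
    exact mul_le_mul_of_nonneg_left (D.f_le _) (by positivity)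
  · have i1 : Integrable (fun θ : S n => u (c + s • (θ : E n))) (sph n) :=
      Integrable.of_bound mv.aestronglyMeasurable L (ae_of_all _ fun θ => D.bu _)
    have n2 : 2 ≤ n := by omega
    have i2 := slc_int n2 mp (hi hm.1) a
    obtain ⟨B, hB⟩ : ∃ B : S n → ℝ, ∀ θ, ‖pp G c s θ - ten a θ‖ = B θ := ⟨_, fun _ => rfl⟩
    simp only [hB] at i2 ⊢
    refine hs hm i1 B (fun θ => hB θ ▸ norm_nonneg _) i2 fun θ v hv => ?_
    rw [toL_apply, ← rad_smul, ← hB]
    exact slc_tang (pp G c s θ) a hv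

end Pool.Agent.Lib.MP_a785f2_an.LZ
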