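import Pool.Agent.Lib.MP_a785f2_an.LZ.Poin

/-! Telescoping at points that are not bad. -/

open MeasureTheory Metric Set Filter Topology
open scoped ContDiff RealInnerProductSpace ENNReal

namespace Pool.Agent.Lib.MP_a785f2_an.LZ

open HS (V)

variable {n m : ℕ} {Ω : Set (E n)} {P : V m → Op m} {L : ℝ} {N : Rl n m} {u : E n → V m}
  {G : E n → W n m} {f : E n → V m}

theorem Dat.nb_decay (D : Dat Ω P L N u G f) {x : E n} {σ l : ℝ} (hσ : 0 < σ) (hl : 0 ≤ l)
    (h : NB G x σ l) (i : ℕ) :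
    (em G).real (ball x (σ / 100 / (2 ^ Module.finrank ℝ (E n)) ^ i)) ≤
      (l / 2 ^ i) ^ Module.finrank ℝ (E n) := by
  refine LY.lin_decay (by positivity) (fun s h1 h2 => ?_) i
  rw [D.mu_real measurableSet_ball, finrank_euclideanSpace_fin]
  exact (h s h1 h2).trans (div_le_div_of_nonneg_left (by positivity) (by positivity) (by linarith))

theorem Dat.two_pow (D : Dat Ω P L N u G f) : (1 : ℝ) < 2 ^ Module.finrank ℝ (E n) :=
  one_lt_pow₀ one_lt_two (by rw [finrank_euclideanSpace_fin]; linarith [D.n3])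

theorem Dat.tel (D : Dat Ω P L N u G f) : ∃ C : ℝ, 0 < C ∧ ∀ x σ l, 0 < σ → 0 ≤ l →
    closedBall x (σ / 100) ⊆ Ω → NB G x σ l → ∀ t, 0 < t → t ≤ σ / 100 →
    ‖av u x t - av u x (σ / 100)‖ ≤ C * l := by
  obtain ⟨C, hC, H⟩ := D.poinZ
  refine ⟨2 * ((2 ^ Module.finrank ℝ (E n)) ^ Module.finrank ℝ (E n) * C), by positivity,
    fun x σ l hσ hl h1 h2 t h3 h4 => ?_⟩
  exact (H.tele (by linarith) D.loc (by positivity) hl D.two_pow h1 (D.nb_decay hσ hl h2) h3
    h4).trans (le_of_eq (by ring))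

theorem Dat.leb (D : Dat Ω P L N u G f) :
    ∀ᵐ x, Tendsto (fun t => av u x t) (𝓝[>] 0) (𝓝 (u x)) := by
  have := D.nontriv
  exact LY.ae_mean_tendsto volume D.loc

theorem Dat.good_osc (D : Dat Ω P L N u G f) : ∃ C : ℝ, 0 < C ∧ ∀ᵐ x, ∀ z r l,
    Good Ω G z r l → dist x z = r → ‖u x - av u z r‖ ≤ C * l := by
  obtain ⟨C, hC, H⟩ := D.poinZ
  have := D.nontriv
  have := D.mu_fin
  have hv := LY.one_le_vc (Module.finrank ℝ (E n))
  refine ⟨LY.vc (Module.finrank ℝ (E n)) * C, by positivity, ?_⟩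
  filter_upwards [H.sphere (by linarith) D.loc] with x hx z r l g hd
  obtain ⟨h1, h2, h3, h4⟩ := D.good_iff.1 g
  rw [mul_assoc]
  exact hx z r l h1 h2.le (ball_subset_closedBall.trans h3)
    (by rw [finrank_euclideanSpace_fin]; exact h4) hd

end Pool.Agent.Lib.MP_a785f2_an.LZ
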