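import Pool.Agent.Lib.MP_a785f2_an.LZ.Rad2
import Pool.Agent.Lib.MP_a785f2_an.LZ.Slc
import Pool.Agent.Lib.MP_a785f2_an.LZ.Sph0
import Pool.Agent.Lib.MP_a785f2_an.LZ.Tel
import Pool.Agent.Lib.MP_a785f2_an.LZ.Frz

/-! What the two passes give on almost every good sphere. -/

open MeasureTheory Metric Set Filter Topology
open scoped ContDiff RealInnerProductSpace ENNReal

namespace Pool.Agent.Lib.MP_a785f2_an.LZ

open HS (V)

variable {n m : ℕ} {Ω : Set (E n)} {P : V m → Op m} {L : ℝ} {N : Rl n m} {u : E n → V m}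
  {G : E n → W n m} {f : E n → V m}

theorem Slc.i_flux {Cp : ℝ} {v : S n → V m} {p : S n → W n m} {φ : S n → V m}
    (s : Slc L N Cp v p φ) (hn : 2 ≤ n) :
    (∀ θ : S n, ‖rad (AA (p θ)) θ‖ ≤ ‖p θ‖ ^ (n - 1)) ∧
      Integrable (fun θ : S n => rad (AA (p θ)) θ) (sph n) := by
  have h1 : ∀ θ : S n, ‖rad (AA (p θ)) θ‖ ≤ ‖p θ‖ ^ (n - 1) := fun θ => by
    have h := norm_rad_le (AA (p θ)) (θ : E n)
    rwa [norm_AA hn, norm_eq_of_mem_sphere θ, mul_one] at h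
  refine ⟨h1, (s.ik (by omega) (Nat.sub_le n 1)).mono' ?_ (ae_of_all _ h1)⟩
  exact (continuous_rad.comp_stronglyMeasurable
    ((continuous_AA.comp_stronglyMeasurable s.mp).prodMk
      continuous_subtype_val.stronglyMeasurable)).aestronglyMeasurable

theorem Slc.flux_le {Cp : ℝ} {v : S n → V m} {p : S n → W n m} {φ : S n → V m}
    (s : Slc L N Cp v p φ) (hn : 2 ≤ n) {y : V m} {d : ℝ} (h : ∀ᵐ θ ∂sph n, ‖v θ - y‖ ≤ d) :
    ∫ θ : S n, ⟪rad (AA (p θ)) θ, v θ⟫ ∂sph n - ⟪sF p, y⟫ ≤ d * sM p (n - 1) := by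
  obtain ⟨h1, h2⟩ := s.i_flux hn
  have ik := s.ik (by omega) (Nat.sub_le n 1)
  have i1 : Integrable (fun θ : S n => ⟪rad (AA (p θ)) θ, v θ⟫) (sph n) := by
    refine (h2.norm.mul_const L).mono' (h2.1.inner s.mv.aestronglyMeasurable)
      (ae_of_all _ fun θ => ?_)
    exact (norm_inner_le_norm _ _).trans
      (mul_le_mul_of_nonneg_left (s.bv θ) (norm_nonneg _))
  have i2 : Integrable (fun θ : S n => ⟪rad (AA (p θ)) θ, y⟫) (sph n) := h2.inner_const y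
  have e1 : ⟪sF p, y⟫ = ∫ θ : S n, ⟪rad (AA (p θ)) θ, y⟫ ∂sph n := by
    rw [sF, real_inner_comm, ← integral_inner h2]
    exact integral_congr_ae (ae_of_all _ fun θ => real_inner_comm _ _)
  rw [e1, ← integral_sub i1 i2, sM, ← integral_const_mul]
  refine integral_mono_ae (i1.sub i2) (ik.const_mul d) (h.mono fun θ hθ => ?_)
  calc ⟪rad (AA (p θ)) θ, v θ⟫ - ⟪rad (AA (p θ)) θ, y⟫ = ⟪rad (AA (p θ)) θ, v θ - y⟫ :=
        (inner_sub_right _ _ _).symm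
    _ ≤ ‖rad (AA (p θ)) (θ : E n)‖ * ‖v θ - y‖ := real_inner_le_norm _ _
    _ ≤ ‖p θ‖ ^ (n - 1) * d := mul_le_mul (h1 θ) hθ (norm_nonneg _) (by positivity)
    _ = d * ‖p θ‖ ^ (n - 1) := mul_comm _ _

theorem Dat.Q_up (D : Dat Ω P L N u G f) : ∃ C : ℝ, 0 < C ∧ ∃ Cp : ℝ, ∀ c R, closedBall c R ⊆ Ω →
    ∀ᵐ s, s ∈ Ioo 0 R → Slc L N Cp (sl u c s) (pp G c s) (ph f c s) ∧
      ∀ l, Good Ω G c s l → ∀ κ, 0 ≤ κ → ∀ T, Q u G f κ (ball c s) (T - κ • av u c s) ≤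
        om n * (κ * (C * l * sM (pp G c s) (n - 1)) + ⟪sF (pp G c s), T⟫) := by
  obtain ⟨C, C0, H⟩ := D.good_osc
  obtain ⟨Cp, -, H1⟩ := D.slc
  have n2 : 2 ≤ n := by have := D.n3; omega
  have n1 : 1 ≤ n := by omega
  refine ⟨C, C0, Cp, fun c R hR => ?_⟩
  filter_upwards [H1 c R hR, D.rad2 hR, D.rad3 hR, pol_ae n1 H c] with s h1 h2 h3 h4 hs
  refine ⟨h1 hs, fun l hl κ hκ T => ?_⟩
  have h5 : ∀ᵐ θ ∂sph n, ‖sl u c s θ - av u c s‖ ≤ C * l := by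
    filter_upwards [h4 hs.1] with θ hθ
    refine hθ c s l hl ?_
    rw [dist_eq_norm, add_sub_cancel_left, norm_smul, norm_eq_of_mem_sphere θ, mul_one,
      Real.norm_of_nonneg hs.1.le]
  have h6 := mul_le_mul_of_nonneg_left ((h1 hs).flux_le n2 h5) hκ
  rw [D.Q_ball, h2 hs, h3 hs, inner_sub_right, real_inner_smul_right]
  refine mul_le_mul_of_nonneg_left ?_ (om_pos n1).le
  linarith

theorem Dat.flux (D : Dat Ω P L N u G f) {κ K l0 : ℝ} (hκ : 0 < κ) (hK : 0 ≤ K) (h0 : 0 < l0)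
    (H : ∀ z r l, Good Ω G z r l → l ≤ l0 → Low u G f κ K 0 0 ∅ z r l) :
    ∃ l1 : ℝ, 0 < l1 ∧ Flx Ω G l1 := by
  obtain ⟨C, C0, Cp, H1⟩ := D.Q_up
  have n1 : 1 ≤ n := by have := D.n3; omega
  have kC : 0 < κ * C := mul_pos hκ C0
  refine ⟨min l0 (min (1 / (K + 1)) (1 / (8 * (κ * C)))),
    lt_min h0 (lt_min (by positivity) (by positivity)), fun c R hR => ?_⟩
  filter_upwards [H1 c R hR] with s h1 hs l hl hg
  obtain ⟨h2, h3⟩ := h1 hs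
  have l1 : l ≤ l0 := hl.trans (min_le_left _ _)
  have l2 : l * (K + 1) ≤ 1 :=
    (le_div_iff₀ (by positivity)).1 (hl.trans ((min_le_right _ _).trans (min_le_left _ _)))
  have l3 : l * (8 * (κ * C)) ≤ 1 :=
    (le_div_iff₀ (by positivity)).1 (hl.trans ((min_le_right _ _).trans (min_le_right _ _)))
  have lp := hg.l0
  obtain ⟨F, hF⟩ : ∃ F, F = sF (pp G c s) := ⟨_, rfl⟩
  have t1 : ‖-(‖F‖⁻¹ • F)‖ ≤ 1 := by
    rw [norm_neg, norm_smul, norm_inv, norm_norm]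
    exact inv_mul_le_one_of_le₀ le_rfl (norm_nonneg _)
  have t2 : ⟪F, -(‖F‖⁻¹ • F)⟫ = -‖F‖ := by
    rw [inner_neg_right, real_inner_smul_right, real_inner_self_eq_norm_mul_norm,
      ← mul_assoc, inv_mul_mul_self]
  have h4 := H c s l hg l1 (-(‖F‖⁻¹ • F) - κ • av u c s) (by rw [sub_add_cancel]; nlinarith)
  have h5 := h3 l hg κ hκ.le (-(‖F‖⁻¹ • F))
  rw [← hF, t2] at h5
  have h6 : 0 ≤ om n * (κ * (C * l * sM (pp G c s) (n - 1)) + -‖F‖) := by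
    refine le_trans ?_ (h4.trans h5)
    simp
  have h7 := nonneg_of_mul_nonneg_right h6 (om_pos n1)
  have h8 := h2.sa_le n1
  have h9 := h2.cheb1 n1
  have m1 := sM_nonneg (pp G c s) 1
  have m2 := sM_nonneg (pp G c s) (n - 1)
  have h10 : κ * (C * l * sM (pp G c s) (n - 1)) ≤ sM (pp G c s) (n - 1) / 8 := by
    have := mul_le_mul_of_nonneg_right l3 m2
    linarith
  rw [← hF]
  calc ‖F‖ * ‖sa (pp G c s)‖ ≤ sM (pp G c s) (n - 1) / 8 * sM (pp G c s) 1 :=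
        mul_le_mul (by linarith) h8 (norm_nonneg _) (by linarith)
    _ ≤ sM (pp G c s) n / 8 := by linarith

theorem Dat.cacc (D : Dat Ω P L N u G f) {κ K l0 : ℝ} (hκ : 0 < κ) (hK : 0 ≤ K) (h0 : 0 < l0)
    (H : ∀ z r l, Good Ω G z r l → l ≤ l0 → Low u G f κ K (1 / 2) 0 ∅ z r l) :
    ∃ C : ℝ, 0 < C ∧ ∃ l1 : ℝ, 0 < l1 ∧ ∀ c R, closedBall c R ⊆ Ω → ∀ᵐ s, s ∈ Ioo 0 R →
      ∀ l, l ≤ l1 → Good Ω G c s l → en G (ball c s) ≤ C * l * sM (pp G c s) (n - 1) := by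
  obtain ⟨C, C0, Cp, H1⟩ := D.Q_up
  have n1 : 1 ≤ n := by have := D.n3; omega
  have o0 := om_pos n1
  refine ⟨2 * om n * C, by positivity, min l0 (1 / (K + 1)), lt_min h0 (by positivity),
    fun c R hR => ?_⟩
  filter_upwards [H1 c R hR] with s h1 hs l hl hg
  have l2 : l * (K + 1) ≤ 1 := (le_div_iff₀ (by positivity)).1 (hl.trans (min_le_right _ _))
  have lp := hg.l0
  have h4 := H c s l hg (hl.trans (min_le_left _ _)) (0 - κ • av u c s)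
    (by rw [sub_add_cancel, norm_zero]; nlinarith)
  have h5 := h4.trans ((h1 hs).2 l hg κ hκ.le 0)
  rw [inner_zero_right] at h5
  refine le_of_mul_le_mul_left ?_ hκ
  linarith

end Pool.Agent.Lib.MP_a785f2_an.LZ
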