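import Pool.Agent.Lib.MP_a785f2_an.LZ.Defs
import Pool.Agent.Lib.MP_a785f2_an.LY.Holes

/-! The energy measure. -/

open MeasureTheory Metric Set Filter Topology
open scoped ContDiff RealInnerProductSpace ENNReal

namespace Pool.Agent.Lib.MP_a785f2_an.LZ

open HS (V)

variable {n m : ℕ} {Ω : Set (E n)} {P : V m → Op m} {L : ℝ} {N : Rl n m} {u : E n → V m}
  {G : E n → W n m} {f : E n → V m}

theorem Dat.mu_fin (D : Dat Ω P L N u G f) : IsFiniteMeasure (em G) :=
  isFiniteMeasure_withDensity_ofReal D.iG.2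

theorem mu_atom (hn : 1 ≤ n) (G : E n → W n m) : NullSingletonClass (em G) := by
  have : Nonempty (Fin n) := ⟨⟨0, hn⟩⟩
  exact ⟨fun x => withDensity_absolutelyContinuous _ _ (measure_singleton x)⟩

theorem Dat.mu_real (D : Dat Ω P L N u G f) {A : Set (E n)} (hA : MeasurableSet A) :
    (em G).real A = en G A := by
  rw [measureReal_def, em, withDensity_apply _ hA, en,
    integral_eq_lintegral_of_nonneg_ae (ae_of_all _ fun _ => by positivity)
      D.iG.aestronglyMeasurable.restrict]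

theorem Dat.good_iff (D : Dat Ω P L N u G f) {z : E n} {r l : ℝ} :
    Good Ω G z r l ↔ 0 < r ∧ 0 < l ∧ closedBall z (2 * r) ⊆ Ω ∧ LY.GoodM (em G) z r (l ^ n) := by
  simp only [LY.GoodM, D.mu_real measurableSet_ball]
  exact ⟨fun g => ⟨g.r0, g.l0, g.sub, g.e2, fun x hx => g.nb x hx⟩,
    fun h => ⟨h.1, h.2.1, h.2.2.1, h.2.2.2.1, fun x hx => h.2.2.2.2 x hx⟩⟩

theorem Dat.small (D : Dat Ω P L N u G f) {ε : ℝ} (hε : 0 < ε) :
    ∃ δ : ℝ≥0∞, 0 < δ ∧ ∀ A : Set (E n), volume A < δ → en G A ≤ ε := by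
  obtain ⟨δ, h0, h⟩ := exists_pos_setLIntegral_lt_of_measure_lt (μ := volume)
    (f := fun x => ENNReal.ofReal (‖G x‖ ^ n))
    ((hasFiniteIntegral_iff_ofReal (ae_of_all _ fun _ => by positivity)).1 D.iG.2).ne
    (ENNReal.ofReal_pos.2 hε).ne'
  refine ⟨δ, h0, fun A hA => ?_⟩
  rw [en, integral_eq_lintegral_of_nonneg_ae (ae_of_all _ fun _ => by positivity)
    D.iG.aestronglyMeasurable.restrict]
  exact ENNReal.toReal_le_of_le_ofReal hε.le (h A hA).le

end Pool.Agent.Lib.MP_a785f2_an.LZ
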