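import Pool.Agent.Lib.MP_a785f2_an.LZ.Alg
import Pool.Agent.Lib.MP_a785f2_an.LZ.Mu
import Pool.Agent.Lib.MP_a785f2_an.LY.RepE

/-! The Poincare inequality on balls. -/

open MeasureTheory Metric Set Filter Topology
open scoped ContDiff RealInnerProductSpace ENNReal

namespace Pool.Agent.Lib.MP_a785f2_an.LZ

open HS (V)

variable {n m : ℕ} {Ω : Set (E n)} {P : V m → Op m} {L : ℝ} {N : Rl n m} {u : E n → V m}
  {G : E n → W n m} {f : E n → V m}

/-- A family of columns as a linear map. -/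
noncomputable def poL (p : W n m) : E n →L[ℝ] V m :=
  ∑ α, (EuclideanSpace.proj α : E n →L[ℝ] ℝ).smulRight (p α)

theorem poL_apply (p : W n m) (θ : E n) : poL p θ = rad p θ := by
  simp [poL, rad]

theorem poL_le (p : W n m) : ‖poL p‖ ≤ ‖p‖ :=
  ContinuousLinearMap.opNorm_le_bound _ (norm_nonneg _) fun θ => by
    rw [poL_apply]; exact norm_rad_le p θ

theorem poL_sub (p q : W n m) : poL (p - q) = poL p - poL q := by
  ext1 θ
  rw [sub_apply, poL_apply, poL_apply, poL_apply, rad_sub]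

theorem poL_grad (w : E n → V m) (x : E n) : poL (grad w x) = fderiv ℝ w x := by
  ext1 θ
  rw [poL_apply, rad_grad]

theorem poL_cont : Continuous fun p : W n m => poL p :=
  (LipschitzWith.of_dist_le_mul (K := 1) fun p q => by
    rw [dist_eq_norm, dist_eq_norm, ← poL_sub, NNReal.coe_one, one_mul]
    exact poL_le _).continuous

theorem poL_ele (p : W n m) : ‖poL p‖ₑ ≤ ‖p‖ₑ := by
  rw [← ofReal_norm, ← ofReal_norm]
  exact ENNReal.ofReal_le_ofReal (poL_le p)

theorem Dat.nontriv (D : Dat Ω P L N u G f) : Nontrivial (E n) := by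
  have : Nonempty (Fin n) := ⟨⟨0, by linarith [D.n3]⟩⟩
  infer_instance

theorem Dat.loc (D : Dat Ω P L N u G f) : LocallyIntegrable u volume := fun x =>
  ⟨ball x 1, ball_mem_nhds x one_pos, D.iu measure_ball_lt_top.ne⟩

theorem Dat.poinZ (D : Dat Ω P L N u G f) :
    ∃ C : ℝ, 1 ≤ C ∧ LY.Poin volume (em G) Ω u C := by
  have hr : Module.finrank ℝ (E n) = n := finrank_euclideanSpace_fin
  have := D.mu_fin
  obtain ⟨C, hC, H⟩ := LY.exists_poin (F := V m) (volume : Measure (E n))
    (by rw [hr]; linarith [D.n3]) zero_le_one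
  refine ⟨C, hC, H (em G) Ω u (fun x => poL (G x)) D.loc
    (poL_cont.comp_stronglyMeasurable D.mG).aestronglyMeasurable (fun x t => ?_)
    fun x t _ hx => ?_⟩
  · rw [hr, ENNReal.ofReal_one, one_mul, em, withDensity_apply _ measurableSet_ball]
    refine lintegral_mono fun y => ?_
    rw [ENNReal.ofReal_pow (norm_nonneg _), ofReal_norm]
    exact pow_le_pow_left' (poL_ele _) n
  · obtain ⟨w, w1, -, w2, w3⟩ := D.apx x t hx
    rw [hr]
    refine ⟨w, w1, tendsto_of_tendsto_of_tendsto_of_le_of_le tendsto_const_nhds w2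
      (fun _ => zero_le) fun _ => lintegral_mono_set ball_subset_closedBall,
      tendsto_of_tendsto_of_tendsto_of_le_of_le tendsto_const_nhds w3 (fun _ => zero_le)
        fun k => le_trans (lintegral_mono fun y => ?_)
          (lintegral_mono_set ball_subset_closedBall)⟩
    rw [← poL_grad, ← poL_sub]
    exact pow_le_pow_left' (poL_ele _) n

theorem Dat.mass_le (D : Dat Ω P L N u G f) {x : E n} {t l : ℝ} (h : en G (ball x t) ≤ l ^ n) :
    (em G).real (ball x t) ≤ l ^ Module.finrank ℝ (E n) := by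
  rw [D.mu_real measurableSet_ball, finrank_euclideanSpace_fin]
  exact h

theorem Dat.poin (D : Dat Ω P L N u G f) : ∃ C : ℝ, 0 < C ∧ ∀ x t l, 0 < t → 0 ≤ l →
    closedBall x t ⊆ Ω → en G (ball x t) ≤ l ^ n →
    ∫ y in ball x t, ‖u y - av u x t‖ ≤ C * l * (volume : Measure (E n)).real (ball x t) := by
  obtain ⟨C, hC, H⟩ := D.poinZ
  refine ⟨C, by linarith, fun x t l ht hl hx he => ?_⟩
  have h := H x t l ht hl hx (D.mass_le he)
  have p : 0 < (volume : Measure (E n)).real (ball x t) :=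
    ENNReal.toReal_pos (measure_ball_pos _ _ ht).ne' measure_ball_lt_top.ne
  rw [setAverage_eq, smul_eq_mul, inv_mul_le_iff₀ p, mul_comm] at h
  exact h

theorem Dat.cmp (D : Dat Ω P L N u G f) (M : ℝ) : ∃ C : ℝ, 0 < C ∧ ∀ x t z r l, 0 < t → 0 ≤ l →
    ball x t ⊆ ball z r → r ≤ M * t → closedBall z r ⊆ Ω → en G (ball z r) ≤ l ^ n →
    ‖av u x t - av u z r‖ ≤ C * l := by
  obtain ⟨C, hC, H⟩ := D.poinZ
  refine ⟨(|M| + 1) ^ n * C, by positivity, fun x t z r l ht hl h1 h2 h3 h4 => ?_⟩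
  have h := H.nest' (by linarith) D.loc (Λ := |M| + 1) ht hl h1
    (h2.trans (mul_le_mul_of_nonneg_right (by linarith [le_abs_self M]) ht.le)) h3 (D.mass_le h4)
  rw [finrank_euclideanSpace_fin, ← mul_assoc] at h
  exact h

theorem Dat.av_le (D : Dat Ω P L N u G f) (x : E n) (t : ℝ) : ‖av u x t‖ ≤ L := by
  have L0 : 0 ≤ L := le_trans zero_le_one D.geo.L1
  have h := norm_setIntegral_le_of_norm_le_const (μ := volume) (s := ball x t) (f := u)
    measure_ball_lt_top fun y _ => D.bu y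
  rw [av, setAverage_eq, norm_smul, Real.norm_of_nonneg (inv_nonneg.2 measureReal_nonneg)]
  refine inv_mul_le_of_le_mul₀ measureReal_nonneg L0 ?_
  rwa [mul_comm] at h

end Pool.Agent.Lib.MP_a785f2_an.LZ
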