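import Pool.Agent.Lib.MP_a785f2_an.LZ.Hol
import Pool.Agent.Lib.MP_a785f2_an.LZ.Frz
import Pool.Agent.Lib.MP_a785f2_an.LZ.Poin
import Pool.Agent.Lib.MP_a785f2_an.LY.Claim

/-! All generations. -/

open MeasureTheory Metric Set Filter Topology
open scoped ContDiff RealInnerProductSpace ENNReal

namespace Pool.Agent.Lib.MP_a785f2_an.LZ

open HS (V)

variable {n m : ℕ} {Ω : Set (E n)} {P : V m → Op m} {L : ℝ} {N : Rl n m} {u : E n → V m}
  {G : E n → W n m} {f : E n → V m}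

theorem Dat.iter (D : Dat Ω P L N u G f) {κ K c0 l0 θ : ℝ} (hκ : 0 ≤ κ) (hK : 0 ≤ K)
    (hc : c0 ≤ 1) (θ0 : 0 < θ) (θ1 : θ ≤ 1) (θ2 : 2 / 3 ≤ θ ^ n)
    (H : ∀ C0 A z r l c s1 T J, MeasurableSet A → 0 ≤ C0 → Good Ω G z r l → l ≤ l0 →
      Hol Ω G z r l (θ * l) c s1 T J → (∀ b ∈ T, Low u G f κ K c0 C0 A b.1 b.2 (θ * l)) →
      Low u G f κ K c0 C0 A z r l) :
    ∀ z r l, Good Ω G z r l → l ≤ l0 → Low u G f κ K c0 0 ∅ z r l := by
  obtain ⟨C0, hC0, base⟩ : ∃ C0 : ℝ, 0 ≤ C0 ∧ ∀ z r l, 0 < l →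
      Low u G f κ K c0 C0 (ball z r) z r l := by
    have hL : 0 ≤ L := zero_le_one.trans D.geo.L1
    refine ⟨κ + (κ + L * (2 + κ * L + κ * L)), by positivity, fun z r l hl Z hZ => ?_⟩
    have a1 := D.Q_le hκ (ball z r) Z
    have a2 : ‖Z‖ ≤ 2 + κ * L := by
      have b1 : ‖Z‖ ≤ ‖Z + κ • av u z r‖ + ‖κ • av u z r‖ := by
        simpa using norm_sub_le (Z + κ • av u z r) (κ • av u z r)
      have b2 : ‖κ • av u z r‖ ≤ κ * L := by
        rw [norm_smul, Real.norm_of_nonneg hκ]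
        exact mul_le_mul_of_nonneg_left (D.av_le z r) hκ
      have b3 : 0 ≤ K * l := by positivity
      linarith
    have e0 := en_nonneg G (ball z r)
    have a3 : (κ + L * (‖Z‖ + κ * L)) * en G (ball z r) ≤
        (κ + L * (2 + κ * L + κ * L)) * en G (ball z r) := by gcongr
    have a4 : c0 * κ * en G (ball z r) ≤ 1 * κ * en G (ball z r) := by gcongr
    have a5 := (abs_le.1 (a1.trans a3)).1
    rw [inter_self]
    nlinarith
  intro z r l g hl
  have step : ∀ v : E n × ℝ × ℝ, (Good Ω G v.1 v.2.1 v.2.2 ∧ v.2.2 ≤ l0) →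
      LY.StepAt volume (fun v : E n × ℝ × ℝ => ball v.1 v.2.1)
        (fun v => Good Ω G v.1 v.2.1 v.2.2 ∧ v.2.2 ≤ l0)
        (fun v A => Low u G f κ K c0 C0 A v.1 v.2.1 v.2.2) v := by
    rintro ⟨z, r, l⟩ ⟨g, hl⟩
    have l0' : 0 < l := g.l0
    obtain ⟨c, s1, T, J, h⟩ := D.holes g (l' := θ * l) (mul_pos θ0 l0') (by
      rw [mul_pow]
      exact mul_le_mul_of_nonneg_right θ2 (pow_pos l0' n).le)
    have cT : Countable T := h.cT.to_subtype
    refine ⟨T, cT, fun j => (j.1.1, j.1.2, θ * l), fun j => ⟨h.gT _ j.2, ?_⟩,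
      fun j => ball_subset_closedBall.trans (h.sT _ j.2), fun i j hij => ?_,
      (measure_iUnion_le _).trans h.vT, fun A mA _ pA => ?_⟩
    · exact (mul_le_of_le_one_left l0'.le θ1).trans hl
    · exact h.dT i.2 j.2 fun e => hij (Subtype.ext e)
    · refine H C0 _ z r l c s1 T J (MeasurableSet.iUnion mA) hC0 g hl h fun b hb Z hZ => ?_
      have a1 := pA ⟨b, hb⟩ Z hZ
      have a2 : en G (A ⟨b, hb⟩ ∩ ball b.1 b.2) ≤ en G ((⋃ j, A j) ∩ ball b.1 b.2) :=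
        D.en_mono (inter_subset_inter_left _ (subset_iUnion A _))
      have a3 := mul_le_mul_of_nonneg_left a2 hC0
      exact le_trans (by linarith) a1
  intro Z hZ
  refine le_of_forall_pos_le_add fun ε hε => ?_
  obtain ⟨A, -, -, a1, a2⟩ := LY.claim (vol := volume)
    (B := fun v : E n × ℝ × ℝ => ball v.1 v.2.1)
    (Good := fun v => Good Ω G v.1 v.2.1 v.2.2 ∧ v.2.2 ≤ l0)
    (P := fun v A => Low u G f κ K c0 C0 A v.1 v.2.1 v.2.2) (fun _ => measurableSet_ball)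
    (fun v hv => base _ _ _ hv.1.l0) step (v := (z, r, l)) ⟨g, hl⟩ measure_ball_lt_top.ne
    (g := fun x => ‖G x‖ ^ n) D.iG.integrableOn (ε := ε / (C0 + 1)) (by positivity)
  have a3 := a2 Z hZ
  have a4 : en G (A ∩ ball z r) ≤ ε / (C0 + 1) := (D.en_mono inter_subset_left).trans a1
  have a5 : C0 * en G (A ∩ ball z r) ≤ ε := by
    calc C0 * en G (A ∩ ball z r) ≤ (C0 + 1) * (ε / (C0 + 1)) :=
          mul_le_mul (by linarith) a4 (en_nonneg _ _) (by linarith)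
      _ = ε := by field_simp
  simp only [zero_mul, sub_zero]
  linarith

end Pool.Agent.Lib.MP_a785f2_an.LZ
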