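import Pool.Agent.Lib.MP_a785f2_an.LZ.Tel
import Pool.Agent.Lib.MP_a785f2_an.LZ.Mu
import Pool.Agent.Lib.MP_a785f2_an.LY.Hole
import Pool.Agent.Lib.MP_a785f2_an.LY.RepE

/-! Continuity from the decay of the energy. -/

open MeasureTheory Metric Set Filter Topology
open scoped ContDiff RealInnerProductSpace ENNReal

namespace Pool.Agent.Lib.MP_a785f2_an.LZ

open HS (V)

variable {n m : ℕ} {Ω : Set (E n)} {P : V m → Op m} {L : ℝ} {N : Rl n m} {u : E n → V m}
  {G : E n → W n m} {f : E n → V m}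

theorem Dat.poinY (D : Dat Ω P L N u G f) : ∃ C : ℝ, 0 ≤ C ∧ LY.Poin volume (em G) Ω u C := by
  obtain ⟨C, hC, h⟩ := D.poin
  refine ⟨C, hC.le, fun x t l ht hl hs hm => ?_⟩
  rw [D.mu_real measurableSet_ball, finrank_euclideanSpace_fin] at hm
  have hv : 0 < (volume : Measure (E n)).real (ball x t) :=
    ENNReal.toReal_pos (measure_ball_pos _ _ ht).ne' measure_ball_lt_top.ne
  have e := setAverage_eq (volume : Measure (E n)) (fun y => ‖u y - av u x t‖) (ball x t)
  refine e.le.trans ?_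
  rw [smul_eq_mul, inv_mul_le_iff₀ hv, mul_comm]
  exact h x t l ht hl hs hm

theorem Dat.rep (D : Dat Ω P L N u G f) {ϑ e0 : ℝ} (h0 : 0 < ϑ) (h1 : ϑ < 1) (h2 : 0 < e0)
    (H : ∀ z r, 0 < r → closedBall z (4 * r) ⊆ Ω →
      en G (ball z (4 * r)) ≤ e0 → en G (ball z r) ≤ ϑ * en G (ball z (4 * r))) : Rep Ω u := by
  have := D.mu_fin
  have hn : 1 ≤ n := le_trans (by norm_num) D.n3
  have := mu_atom (m := m) hn G
  have : Nonempty (Fin n) := ⟨⟨0, hn⟩⟩
  obtain ⟨C, hC, hP⟩ := D.poinY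
  have hu : LocallyIntegrable u volume := fun x =>
    ⟨ball x 1, ball_mem_nhds x one_pos, D.iu measure_ball_lt_top.ne⟩
  obtain ⟨v, hv, e⟩ := hP.rep hC hu D.op h2 h1 fun x r hr hs he => by
    rw [D.mu_real measurableSet_ball] at he
    rw [D.mu_real (A := ball x (4 * r)) measurableSet_ball]
    refine ENNReal.toReal_le_of_le_ofReal (mul_nonneg h0.le (en_nonneg _ _)) ?_
    rw [isOpen_ball.measure_eq_iSup_isCompact]
    refine iSup_le fun K => iSup_le fun hK => iSup_le fun cK => ?_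
    obtain ⟨t, ⟨t0, t1⟩, ht⟩ := exists_pos_lt_subset_ball hr cK.isClosed hK
    have s1 : ball x (4 * t) ⊆ ball x (4 * r) := ball_subset_ball (by linarith)
    have k := H x t t0 ((closedBall_subset_ball (by linarith)).trans hs) ((D.en_mono s1).trans he)
    rw [← D.mu_real measurableSet_ball] at k
    refine (measure_mono ht).trans ?_
    rw [← ENNReal.ofReal_toReal (measure_ne_top (em G) (ball x t))]
    exact ENNReal.ofReal_le_ofReal (k.trans (mul_le_mul_of_nonneg_left (D.en_mono s1) h0.le))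
  exact ⟨v, hv, (ae_restrict_iff' D.op.measurableSet).2 e⟩

end Pool.Agent.Lib.MP_a785f2_an.LZ
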