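import Pool.Agent.Lib.MP_a785f2_an.LZ.Step
import Pool.Agent.Lib.MP_a785f2_an.LZ.Iter
import Pool.Agent.Lib.MP_a785f2_an.LZ.Flux
import Pool.Agent.Lib.MP_a785f2_an.LZ.Decay
import Pool.Agent.Lib.MP_a785f2_an.LZ.RepD

/-! The continuity theorem, internal form. -/

open MeasureTheory Metric Set Filter Topology
open scoped ContDiff RealInnerProductSpace ENNReal

namespace Pool.Agent.Lib.MP_a785f2_an.LZ

open HS (V)

variable {n m : ℕ} {Ω : Set (E n)} {P : V m → Op m} {L : ℝ} {N : Rl n m} {u : E n → V m}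
  {G : E n → W n m} {f : E n → V m}

theorem exists_theta (hn : 1 ≤ n) : ∃ θ : ℝ, 0 < θ ∧ θ < 1 ∧ 2 / 3 ≤ θ ^ n := by
  have h0 : (0 : ℝ) < n := by exact_mod_cast hn
  have h1 : (1 : ℝ) ≤ n := by exact_mod_cast hn
  have h2 : 1 / (3 * (n : ℝ)) ≤ 1 / 3 := by gcongr; linarith
  have h3 : 0 < 1 / (3 * (n : ℝ)) := by positivity
  refine ⟨1 + -(1 / (3 * n)), by linarith, by linarith, le_trans (le_of_eq ?_)
    (one_add_mul_le_pow (by linarith) n)⟩
  field_simp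
  norm_num

theorem Flx.mono {a b : ℝ} (h : Flx Ω G b) (hab : a ≤ b) : Flx Ω G a := fun c R hR =>
  (h c R hR).mono fun _ hs h1 l hl => hs h1 l (hl.trans hab)

theorem Dat.core (D : Dat Ω P L N u G f) : Rep Ω u := by
  obtain ⟨θ, θ0, θ1, θ2⟩ := exists_theta (n := n) (by linarith [D.n3])
  obtain ⟨κ, hκ, C, hC, l0, h0, H⟩ := D.step
  have hθ : 0 < 1 - θ := sub_pos.2 θ1
  have hK : 0 ≤ C / (1 - θ) := by positivity
  have e : ∀ l : ℝ, C * l ≤ C / (1 - θ) * (l - θ * l) := fun l => le_of_eq (by field_simp)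
  obtain ⟨l1, h1, F⟩ := D.flux hκ hK h0 (D.iter hκ.le hK zero_le_one θ0 θ1.le θ2
    fun C0 A z r l c s1 T J mA c0 g hl h => H _ 0 C0 A z r l _ c s1 T J mA c0 hK (Or.inl rfl) g hl
      (mul_pos θ0 g.l0).le (e l) h)
  obtain ⟨C', hC', l2, h2, F2⟩ := D.cacc hκ hK (lt_min h0 (by positivity : 0 < l1 / 5))
    (D.iter hκ.le hK (by norm_num) θ0 θ1.le θ2
      fun C0 A z r l c s1 T J mA c0 g hl h => H _ (1 / 2) C0 A z r l _ c s1 T J mA c0 hK
        (Or.inr ⟨rfl, F.mono (by linarith [hl.trans (min_le_right _ _)])⟩) g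
        (hl.trans (min_le_left _ _)) (mul_pos θ0 g.l0).le (e l) h)
  obtain ⟨ϑ, a0, a1, e0, a2, a3⟩ := D.decay hC' h2 F2
  exact D.rep a0 a1 a2 a3

end Pool.Agent.Lib.MP_a785f2_an.LZ
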