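import Pool.Agent.Lib.MP_a785f2_an.LZ.Alg
import Pool.Agent.Lib.MP_a785f2_an.NH.ManB
import Pool.Agent.Lib.MP_a785f2_an.NH.TestA

/-! Transfer of the data from the sup norm domain. -/

open MeasureTheory Metric Set Filter Topology
open scoped ContDiff RealInnerProductSpace ENNReal

namespace Pool.Agent.Lib.MP_a785f2_an.LZ

open HS (V)

variable {n m : ℕ} {Ω : Set (E n)} {P : V m → Op m} {L : ℝ} {N : Rl n m} {u : E n → V m}
  {G : E n → W n m} {f : E n → V m}

/-- The columns of a linear map. -/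
noncomputable def cols (A : HS.D n →L[ℝ] V m) : W n m := WithLp.toLp 2 fun α => HS.col A α

theorem norm_cols (A : HS.D n →L[ℝ] V m) : ‖cols A‖ = HS.fro A := by
  rw [PiLp.norm_eq_of_L2]; rfl

/-- The identification of Euclidean space with the space of tuples. -/
noncomputable def eD (n : ℕ) : E n ≃L[ℝ] HS.D n :=
  PiLp.continuousLinearEquiv 2 ℝ fun _ : Fin n => ℝ

theorem continuous_cols : Continuous (cols : (HS.D n →L[ℝ] V m) → W n m) :=
  (PiLp.continuous_toLp 2 _).comp (continuous_pi fun α => HS.continuous_col α)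

theorem cols_sub (A B : HS.D n →L[ℝ] V m) : cols (A - B) = cols A - cols B := rfl

theorem eD_mp : MeasurePreserving (eD n) volume volume := PiLp.volume_preserving_ofLp (Fin n)

theorem eD_emb : MeasurableEmbedding (eD n) := (eD n).toHomeomorph.measurableEmbedding

theorem grad_comp {w : HS.D n → V m} (hw : Differentiable ℝ w) (x : E n) :
    grad (fun x => w (eD n x)) x = cols (fderiv ℝ w (eD n x)) := by
  have d1 : fderiv ℝ (fun x => w (eD n x)) x = _ :=
    ((hw (eD n x)).hasFDerivAt.comp x (eD n).hasFDerivAt).fderiv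
  rw [grad, d1]
  rfl

theorem inner_cols (A B : HS.D n →L[ℝ] V m) : ⟪AA (cols A), cols B⟫ = HS.pr A B := by
  rw [AA, inner_smul_left, norm_cols, PiLp.inner_apply]
  rfl

open scoped Convolution in
/-- Smooth approximations on a compact subset of the open set. -/
theorem apx_cpt (hn : 2 ≤ n) {O : Set (HS.D n)} {v : HS.D n → V m}
    {A : HS.D n → HS.D n →L[ℝ] V m} {F : HS.D n → V m} (s : NH.GSol O v A F) {K : Set (HS.D n)}
    (hc : IsCompact K) (hK : K ⊆ O) : ∃ w, HS.Apx K v A w := by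
  obtain ⟨δ, hδ, hΩ⟩ := hc.exists_cthickening_subset_open s.op hK
  have hp : ∀ k : ℕ, 0 < δ * (1 / ((k : ℝ) + 1)) := fun k => by positivity
  let φ : ℕ → ContDiffBump (0 : HS.D n) := fun k =>
    ⟨δ * (1 / ((k : ℝ) + 1)) / 2, δ * (1 / ((k : ℝ) + 1)), half_pos (hp k), half_lt_self (hp k)⟩
  have h0 : Tendsto (fun k => (φ k).rOut) atTop (𝓝 0) := by
    have := (tendsto_one_div_add_atTop_nhds_zero_nat (𝕜 := ℝ)).const_mul δ
    rwa [mul_zero] at this
  have h2 : ∀ k, (φ k).rOut ≤ 2 * (φ k).rIn := fun k => by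
    show δ * (1 / ((k : ℝ) + 1)) ≤ 2 * (δ * (1 / ((k : ℝ) + 1)) / 2)
    linarith
  have h3 : ∀ k, (φ k).rOut ≤ δ := fun k => by
    show δ * (1 / ((k : ℝ) + 1)) ≤ δ
    refine mul_le_of_le_one_right hδ.le ?_
    rw [div_le_one (by positivity)]
    linarith [Nat.cast_nonneg (α := ℝ) k]
  have h1 : (1 : ℝ≥0∞) ≤ n := by exact_mod_cast (by omega : 1 ≤ n)
  have lu : LocallyIntegrable v volume := s.lu.locallyIntegrable h1
  have lG : LocallyIntegrable A volume := s.lG.locallyIntegrable h1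
  obtain ⟨au, tu⟩ := HS.moll_tendsto hn s.mu s.lu h0 h2
  obtain ⟨-, tG⟩ := HS.moll_tendsto hn s.mG s.lG h0 h2
  refine ⟨fun k => (φ k).normed volume ⋆[ContinuousLinearMap.lsmul ℝ ℝ, volume] v,
    fun k => (φ k).hasCompactSupport_normed.contDiff_convolution_left _
      (φ k).contDiff_normed lu, ae_restrict_of_ae au, ?_, ?_⟩
  · exact tendsto_of_tendsto_of_tendsto_of_le_of_le tendsto_const_nhds tu (fun _ => zero_le)
      fun _ => setLIntegral_le_lintegral _ _
  · refine tendsto_of_tendsto_of_tendsto_of_le_of_le tendsto_const_nhds tG (fun _ => zero_le)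
      fun k => le_trans (le_of_eq ?_) (setLIntegral_le_lintegral K _)
    refine setLIntegral_congr_fun hc.measurableSet fun x hx => ?_
    have hx' : closedBall x (φ k).rOut ⊆ O :=
      ((closedBall_subset_closedBall (h3 k)).trans (closedBall_subset_cthickening hx δ)).trans hΩ
    simp only [HS.moll_fderiv lu lG s.wk (φ k) hx']

theorem dat_gen (hn : 3 ≤ n) (g : Geo P L) {q0 : V m} (h0 : ‖q0‖ ≤ L) {O : Set (HS.D n)}
    {v : HS.D n → V m} {A : HS.D n → HS.D n →L[ℝ] V m} {F : HS.D n → V m} (s : NH.GSol O v A F)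
    {K : HS.D n → Prop} (hK : ∀ᵐ x, x ∈ O → K x)
    (h : ∀ x, K x → ‖v x‖ ≤ L ∧ ‖F x‖ ≤ L * ‖cols (A x)‖ ^ n) :
    ∃ (u : E n → V m) (G : E n → W n m) (f : E n → V m) (T : Set (E n)), MeasurableSet T ∧
      (∀ᵐ x, x ∈ O → WithLp.toLp 2 x ∈ T) ∧
      (∀ x ∈ T, K x.ofLp ∧ u x = v x.ofLp ∧ G x = cols (A x.ofLp) ∧ f x = F x.ofLp) ∧
      (∀ x ∉ T, u x = q0 ∧ G x = 0 ∧ f x = 0) ∧ ∀ N : Rl n m, SphOK P L N →
        (∀ c R, closedBall c R ⊆ (WithLp.ofLp ⁻¹' O : Set (E n)) →
          ∀ᵐ s, s ∈ Ioo 0 R → N (sl u c s) (pp G c s) (ph f c s)) →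
        Dat (WithLp.ofLp ⁻¹' O : Set (E n)) P L N u G f := by
  classical
  have hn2 : 2 ≤ n := by omega
  have L0 : 0 < L := lt_of_lt_of_le one_pos g.L1
  obtain ⟨T, hT, mT, hT2⟩ := (eD_mp.quasiMeasurePreserving.ae hK).exists_measurable_mem
  have oΩ : IsOpen (eD n ⁻¹' O) := s.op.preimage (eD n).continuous
  set B : Set (E n) := eD n ⁻¹' O ∩ T with hB
  have mB : MeasurableSet B := oΩ.measurableSet.inter mT
  have aeB : ∀ᵐ x, eD n x ∈ O → x ∈ B := by
    filter_upwards [hT] with x k1 k2 using ⟨k2, k1⟩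
  have pK := fun x (hx : x ∈ B) => hT2 x hx.2 hx.1
  have pB := fun x (hx : x ∈ B) => h _ (pK x hx)
  set u' : E n → V m := B.piecewise (fun x => v (eD n x)) fun _ => q0 with hu'
  set G' : E n → W n m := B.indicator fun x => cols (A (eD n x)) with hG'
  set f' : E n → V m := B.indicator fun x => F (eD n x) with hf'
  have me : Measurable (eD n) := (eD n).continuous.measurable
  have uB : ∀ x ∈ B, u' x = v (eD n x) := fun x hx => piecewise_eq_of_mem _ _ _ hx
  have GB : ∀ x ∈ B, G' x = cols (A (eD n x)) := fun x hx => indicator_of_mem hx _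
  have fB : ∀ x ∈ B, f' x = F (eD n x) := fun x hx => indicator_of_mem hx _
  have u0 : ∀ x, x ∉ B → u' x = q0 := fun x hx => piecewise_eq_of_notMem _ _ _ hx
  have G0 : ∀ x, x ∉ B → G' x = 0 := fun x hx => indicator_of_notMem hx _
  have f0 : ∀ x, x ∉ B → f' x = 0 := fun x hx => indicator_of_notMem hx _
  have mG : StronglyMeasurable G' :=
    (continuous_cols.comp_stronglyMeasurable (s.mG.comp_measurable me)).indicator mB
  refine ⟨u', G', f', B, mB,
    (PiLp.volume_preserving_toLp (Fin n)).quasiMeasurePreserving.ae aeB,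
    fun x hx => ⟨pK x hx, uB x hx, GB x hx, fB x hx⟩, fun x hx => ⟨u0 x hx, G0 x hx, f0 x hx⟩,
    fun N ok hN => ⟨hn, g, ok, oΩ,
    (s.mu.comp_measurable me).piecewise mB stronglyMeasurable_const, mG,
    (s.mF.comp_measurable me).indicator mB, ?_, fun x => ?_, fun x => ?_, hN,
    fun x0 R hR => ?_, fun φ p1 p2 p3 => ?_⟩⟩
  · refine (eD_mp.integrable_comp_of_integrable (NH.int_fro_pow (by omega) s.lG)).mono'
      (mG.norm.pow n).aestronglyMeasurable (ae_of_all _ fun x => ?_)
    rw [Real.norm_of_nonneg (by positivity)]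
    by_cases k : x ∈ B
    · rw [GB x k, norm_cols]; rfl
    · rw [G0 x k, norm_zero, zero_pow (by omega)]; exact pow_nonneg (HS.fro_nonneg _) _
  · by_cases k : x ∈ B
    · rw [uB x k]; exact (pB x k).1
    · rw [u0 x k]; exact h0
  · by_cases k : x ∈ B
    · rw [fB x k, GB x k]; exact (pB x k).2
    · rw [f0 x k, norm_zero]; positivity
  · have hc : IsCompact (eD n '' closedBall x0 R) :=
      (isCompact_closedBall x0 R).image (eD n).continuous
    obtain ⟨w, hw⟩ := apx_cpt hn2 s hc (image_subset_iff.2 hR)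
    have e1 : eD n ⁻¹' (eD n '' closedBall x0 R) = closedBall x0 R :=
      preimage_image_eq _ (eD n).injective
    have a1 : ∀ᵐ x ∂(volume.restrict (closedBall x0 R)), x ∈ B :=
      (ae_restrict_iff' measurableSet_closedBall).2 (aeB.mono fun x k1 k2 => k1 (hR k2))
    have key : ∀ {φ : E n → ℝ≥0∞} {ψ : HS.D n → ℝ≥0∞}, (∀ x ∈ B, φ x ≤ ψ (eD n x)) →
        ∫⁻ x in closedBall x0 R, φ x ≤ ∫⁻ y in eD n '' closedBall x0 R, ψ y := fun {φ ψ} k => by
      rw [← eD_mp.setLIntegral_comp_preimage_emb eD_emb, e1]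
      exact lintegral_mono_ae (a1.mono k)
    refine ⟨fun k x => w k (eD n x), fun k => ((hw.sm k).of_le (by simp)).comp (eD n).contDiff,
      ?_, tendsto_of_tendsto_of_tendsto_of_le_of_le tendsto_const_nhds hw.lu (fun _ => zero_le)
        fun k => key fun x hx => by rw [uB x hx], ?_⟩
    · have a2 := eD_mp.quasiMeasurePreserving.ae ((ae_restrict_iff' hc.measurableSet).1 hw.ae)
      filter_upwards [a1, ae_restrict_of_ae a2, ae_restrict_mem measurableSet_closedBall]
        with x k1 k2 k3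
      rw [uB x k1]
      exact k2 (mem_image_of_mem _ k3)
    · have h4 := ENNReal.Tendsto.const_mul (a := (n : ℝ≥0∞) ^ n) hw.lG
        (Or.inr (ENNReal.pow_ne_top (ENNReal.natCast_ne_top n)))
      rw [mul_zero] at h4
      refine tendsto_of_tendsto_of_tendsto_of_le_of_le tendsto_const_nhds h4 (fun _ => zero_le)
        fun k => ?_
      beta_reduce
      rw [← lintegral_const_mul' _ _ (ENNReal.pow_ne_top (ENNReal.natCast_ne_top n))]
      refine key fun x hx => ?_
      rw [grad_comp ((hw.sm k).differentiable (by simp)), GB x hx, ← cols_sub, ← mul_pow]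
      refine pow_le_pow_left' ?_ n
      rw [← ofReal_norm, ← ofReal_norm, norm_cols, ← ENNReal.ofReal_natCast,
        ← ENNReal.ofReal_mul (Nat.cast_nonneg _)]
      exact ENNReal.ofReal_le_ofReal (HS.fro_le_norm _)
  · have t1 : ContDiff ℝ 1 fun y => φ ((eD n).symm y) := p1.comp (eD n).symm.contDiff
    have t2 : HasCompactSupport fun y => φ ((eD n).symm y) :=
      p2.comp_homeomorph (eD n).symm.toHomeomorph
    have t3 : tsupport (fun y => φ ((eD n).symm y)) ⊆ O := fun y hy =>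
      p3 ((Set.ext_iff.mp (tsupport_comp_eq_preimage φ (eD n).symm.toHomeomorph) y).mp hy)
    have e := s.eq1A hn2 t1 t2 t3
    rw [← eD_mp.integral_comp eD_emb, ← eD_mp.integral_comp eD_emb] at e
    refine Eq.trans (integral_congr_ae ?_) (e.trans (integral_congr_ae ?_))
    · filter_upwards [aeB] with x hx
      have e2 : grad φ x = cols (fderiv ℝ (fun y => φ ((eD n).symm y)) (eD n x)) :=
        grad_comp (t1.differentiable one_ne_zero) x
      rw [e2, ← inner_cols]
      by_cases k : eD n x ∈ O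
      · rw [GB x (hx k)]
      · have z : fderiv ℝ (fun y => φ ((eD n).symm y)) (eD n x) = 0 :=
          image_eq_zero_of_notMem_tsupport fun k2 => k (t3 (tsupport_fderiv_subset ℝ k2))
        have z2 : cols (0 : HS.D n →L[ℝ] V m) = 0 := rfl
        rw [z, z2, inner_zero_right, inner_zero_right]
    · filter_upwards [aeB] with x hx
      rw [ContinuousLinearEquiv.symm_apply_apply]
      by_cases k : eD n x ∈ O
      · rw [fB x (hx k)]
      · have z : φ x = 0 := image_eq_zero_of_notMem_tsupport fun k2 => k (p3 k2)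
        rw [z, inner_zero_right, inner_zero_right]

theorem rep_of {O : Set (HS.D n)} {v : HS.D n → V m}
    (r : Rep (WithLp.ofLp ⁻¹' O : Set (E n)) u) (mO : IsOpen O)
    (h : ∀ᵐ x, x ∈ O → u (WithLp.toLp 2 x) = v x) : NH.Rep O v := by
  obtain ⟨w, h1, h2⟩ := r
  have oΩ : IsOpen (eD n ⁻¹' O) := mO.preimage (eD n).continuous
  refine ⟨fun x => w (WithLp.toLp 2 x),
    h1.comp (PiLp.continuous_toLp 2 _).continuousOn fun x hx => hx,
    (ae_restrict_iff' mO.measurableSet).2 ?_⟩
  filter_upwards [h, (PiLp.volume_preserving_toLp (Fin n)).quasiMeasurePreserving.ae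
    ((ae_restrict_iff' oΩ.measurableSet).1 h2)] with x k1 k2 hx
  rw [← k1 hx]
  exact k2 hx

end Pool.Agent.Lib.MP_a785f2_an.LZ
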