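import Pool.Agent.Lib.MP_a785f2_an.NH.Sob

/-!
Vocabulary for the continuity of weakly `n`-harmonic maps in every dimension `n ≥ 3`.
The domain `E n` is Euclidean; a gradient is a family of columns, an element of `W n m`.
-/

open MeasureTheory Metric Set Filter Topology
open scoped ContDiff RealInnerProductSpace ENNReal

namespace Pool.Agent.Lib.MP_a785f2_an.LZ

open HS (V)

/-- Families of `n` columns with the Frobenius norm. -/
abbrev W (n m : ℕ) : Type := PiLp 2 fun _ : Fin n => V m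

/-- The unit sphere. -/
abbrev S (n : ℕ) : Type := sphere (0 : E n) 1

/-- Endomorphisms of the target space. -/
abbrev Op (m : ℕ) : Type := V m →L[ℝ] V m

variable {n m : ℕ}

/-- The derivative in the direction `θ`. -/
noncomputable def rad (p : W n m) (θ : E n) : V m := ∑ α, θ α • p α

/-- The rank one family `a ⊗ θ`. -/
noncomputable def ten (a : V m) (θ : E n) : W n m := WithLp.toLp 2 fun α => θ α • a

/-- The gradient of a differentiable map. -/
noncomputable def grad (w : E n → V m) (x : E n) : W n m :=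
  WithLp.toLp 2 fun α => fderiv ℝ w x (EuclideanSpace.single α 1)

/-- The flux `|p|^(n-2) p`. -/
noncomputable def AA (p : W n m) : W n m := ‖p‖ ^ (n - 2) • p

/-- The second fundamental form term. -/
noncomputable def al (P : V m → Op m) (q : V m) (p : W n m) : V m :=
  ‖p‖ ^ (n - 2) • ∑ α, fderiv ℝ P q (p α) (p α)

/-- A field `P` of symmetric operators on the target space. -/
structure Geo (P : V m → Op m) (L : ℝ) : Prop where
  L1 : 1 ≤ L
  cP : ContDiff ℝ 1 P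
  bP : ∀ q, ‖P q‖ ≤ L
  dP : ∀ q, ‖fderiv ℝ P q‖ ≤ L
  sy : ∀ q a b, ⟪P q a, b⟫ = ⟪a, P q b⟫

/-- Relations between the values, the gradient and minus the right hand side on a sphere. -/
abbrev Rl (n m : ℕ) : Type := (S n → V m) → (S n → W n m) → (S n → V m) → Prop

/-- The area of the unit sphere. -/
noncomputable def om (n : ℕ) : ℝ := (volume : Measure (E n)).toSphere.real univ

/-- The uniform probability measure on the unit sphere. -/
noncomputable def sph (n : ℕ) : Measure (S n) :=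
  ((volume : Measure (E n)).toSphere univ)⁻¹ • (volume : Measure (E n)).toSphere

/-- Restriction of a function to the sphere of centre `c` and radius `s`. -/
def sl {X : Type} (g : E n → X) (c : E n) (s : ℝ) (θ : S n) : X := g (c + s • (θ : E n))

/-- The rescaled gradient on a sphere. -/
noncomputable def pp (G : E n → W n m) (c : E n) (s : ℝ) (θ : S n) : W n m :=
  s • G (c + s • (θ : E n))

/-- Minus the rescaled right hand side on a sphere. -/
noncomputable def ph (f : E n → V m) (c : E n) (s : ℝ) (θ : S n) : V m :=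
  -(s ^ n • f (c + s • (θ : E n)))

/-- Moments of the gradient on a sphere. -/
noncomputable def sM (p : S n → W n m) (k : ℕ) : ℝ := ∫ θ, ‖p θ‖ ^ k ∂sph n

/-- The flux through a sphere. -/
noncomputable def sF (p : S n → W n m) : V m := ∫ θ, rad (AA (p θ)) θ ∂sph n

/-- The mean radial derivative. -/
noncomputable def sa (p : S n → W n m) : V m := ∫ θ, rad (p θ) θ ∂sph n

/-- The excess. -/
noncomputable def sX (p : S n → W n m) : ℝ := sM p n - ⟪sF p, sa p⟫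

/-- The mean value. -/
noncomputable def sy (v : S n → V m) : V m := ∫ θ, v θ ∂sph n

/-- The derivative of the flux. -/
noncomputable def sD (φ : S n → V m) : V m := ∫ θ, φ θ ∂sph n

/-- The remainder of the energy identity. -/
noncomputable def sR (v φ : S n → V m) (y : V m) : ℝ := ∫ θ, ⟪φ θ, v θ - y⟫ ∂sph n

/-- The mean of `P` and its radial derivative. -/
noncomputable def sP (P : V m → Op m) (v : S n → V m) : Op m := ∫ θ, P (v θ) ∂sph n

noncomputable def sPd (P : V m → Op m) (v : S n → V m) (p : S n → W n m) : Op m :=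
  ∫ θ, fderiv ℝ P (v θ) (rad (p θ) θ) ∂sph n

/-- The metric `g` and its radial derivative. -/
noncomputable def sg (P : V m → Op m) (v : S n → V m) : Op m :=
  1 + ∫ θ, P (v θ) * P (v θ) ∂sph n - sP P v * sP P v

noncomputable def sgd (P : V m → Op m) (v : S n → V m) (p : S n → W n m) : Op m :=
  ∫ θ, (fderiv ℝ P (v θ) (rad (p θ) θ) * P (v θ) + P (v θ) * fderiv ℝ P (v θ) (rad (p θ) θ))
    ∂sph n - (sPd P v p * sP P v + sP P v * sPd P v p)

/-- Half the derivative of `⟪g F, F⟫`. -/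
noncomputable def sN (P : V m → Op m) (v : S n → V m) (p : S n → W n m) (φ : S n → V m) : ℝ :=
  ⟪sg P v (sF p), sD φ⟫ + ⟪sgd P v p (sF p), sF p⟫ / 2

/-- The data on one sphere. -/
structure Slc (L : ℝ) (N : Rl n m) (Cp : ℝ) (v : S n → V m) (p : S n → W n m) (φ : S n → V m) :
    Prop where
  mv : StronglyMeasurable v
  mp : StronglyMeasurable p
  mf : StronglyMeasurable φ
  ip : Integrable (fun θ => ‖p θ‖ ^ n) (sph n)
  bv : ∀ θ, ‖v θ‖ ≤ L
  bf : ∀ θ, ‖φ θ‖ ≤ L * ‖p θ‖ ^ n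
  rl : N v p φ
  po : ∀ a, ∫ θ, ‖v θ - sy v‖ ^ 2 ∂sph n ≤ Cp * ∫ θ, ‖p θ - ten a θ‖ ^ 2 ∂sph n

/-- The conclusion of the sphere lemma for the relation `N`. -/
def SphOK (P : V m → Op m) (L : ℝ) (N : Rl n m) : Prop :=
  ∀ Cp : ℝ, 0 < Cp → ∃ C : ℝ, 0 < C ∧ ∃ d : ℝ, 0 < d ∧ ∀ v p φ, Slc L N Cp v p φ →
    sM p n ≤ d ^ n → (∀ᵐ θ ∂sph n, ‖v θ - sy v‖ ≤ d) →
      0 ≤ sX p ∧ |sR v φ (sy v)| ≤ sX p / 2 ∧ sN P v p φ ≤ C * sX p * ‖sF p‖

/-- A weak solution on `Ω`; the pointwise relations hold everywhere. -/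
structure Dat (Ω : Set (E n)) (P : V m → Op m) (L : ℝ) (N : Rl n m) (u : E n → V m)
    (G : E n → W n m) (f : E n → V m) : Prop where
  n3 : 3 ≤ n
  geo : Geo P L
  ok : SphOK P L N
  op : IsOpen Ω
  mu : StronglyMeasurable u
  mG : StronglyMeasurable G
  mf : StronglyMeasurable f
  iG : Integrable (fun x => ‖G x‖ ^ n) volume
  bu : ∀ x, ‖u x‖ ≤ L
  f_le : ∀ x, ‖f x‖ ≤ L * ‖G x‖ ^ n
  rl : ∀ c R, closedBall c R ⊆ Ω → ∀ᵐ s, s ∈ Ioo 0 R → N (sl u c s) (pp G c s) (ph f c s)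
  apx : ∀ x0 R, closedBall x0 R ⊆ Ω → ∃ w : ℕ → E n → V m, (∀ k, ContDiff ℝ 1 (w k)) ∧
    (∀ᵐ x ∂(volume.restrict (closedBall x0 R)), Tendsto (fun k => w k x) atTop (𝓝 (u x))) ∧
    Tendsto (fun k => ∫⁻ x in closedBall x0 R, ‖w k x - u x‖ₑ ^ n) atTop (𝓝 0) ∧
    Tendsto (fun k => ∫⁻ x in closedBall x0 R, ‖grad (w k) x - G x‖ₑ ^ n) atTop (𝓝 0)
  eq : ∀ φ : E n → V m, ContDiff ℝ 1 φ → HasCompactSupport φ → tsupport φ ⊆ Ω →
    ∫ x, ⟪AA (G x), grad φ x⟫ = ∫ x, ⟪f x, φ x⟫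

/-- The relation for maps into `M` whose tangential part is quadratic in the distance to
rank one. -/
def PtM (P : V m → Op m) (L : ℝ) (M : Set (V m)) (q : V m) (p : W n m) (φ : V m) : Prop :=
  q ∈ M ∧ (∀ α, P q (p α) = p α) ∧ P q (al P q p) = 0 ∧ ∀ (a : V m) (θ : E n), ‖θ‖ = 1 →
    ‖φ - al P q p‖ ≤ L * (‖a‖ ^ (n - 2) * ‖p - ten a θ‖ ^ 2 + ‖p - ten a θ‖ ^ n)

/-- The same relation at every point of a sphere. -/
def RlM (P : V m → Op m) (L : ℝ) (M : Set (V m)) : Rl n m := fun v p φ =>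
  ∀ θ, PtM P L M (v θ) (p θ) (φ θ)

/-- The energy of a set. -/
noncomputable def en (G : E n → W n m) (A : Set (E n)) : ℝ := ∫ x in A, ‖G x‖ ^ n

/-- The mean over a ball. -/
noncomputable def av (u : E n → V m) (x : E n) (t : ℝ) : V m := ⨍ y in ball x t, u y

/-- The additive functional. -/
noncomputable def Q (u : E n → V m) (G : E n → W n m) (f : E n → V m) (κ : ℝ) (A : Set (E n))
    (Z : V m) : ℝ := ∫ x in A, (κ * ‖G x‖ ^ n - ⟪f x, Z + κ • u x⟫)

/-- The point `x` is not bad at level `l` relative to the scale `sg`. -/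
def NB (G : E n → W n m) (x : E n) (sg l : ℝ) : Prop :=
  ∀ t, 0 < t → t ≤ sg / 100 → en G (ball x t) ≤ l ^ n * t / sg

/-- A good ball of level `l`. -/
structure Good (Ω : Set (E n)) (G : E n → W n m) (z : E n) (r l : ℝ) : Prop where
  r0 : 0 < r
  l0 : 0 < l
  sub : closedBall z (2 * r) ⊆ Ω
  e2 : en G (ball z (2 * r)) ≤ l ^ n / 20
  nb : ∀ x, dist x z = r → NB G x r l

/-- The local scale. -/
noncomputable def sgm (c : E n) (r : ℝ) (x : E n) : ℝ := min (dist x c) (r / 2)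

/-- Centre, holes and bad intervals of a good ball; `l'` is the level of the holes. -/
structure Hol (Ω : Set (E n)) (G : E n → W n m) (z : E n) (r l l' : ℝ) (c : E n) (s1 : ℝ)
    (T : Set (E n × ℝ)) (J : Set (ℝ × ℝ)) : Prop where
  lo : r / 4000 ≤ s1
  hi : dist c z + 2 * s1 ≤ r
  cT : T.Countable
  dT : T.PairwiseDisjoint fun b => ball b.1 b.2
  sT : ∀ b ∈ T, closedBall b.1 b.2 ⊆ ball z r
  gT : ∀ b ∈ T, Good Ω G b.1 b.2 l'
  rT : ∀ b ∈ T, ∀ x ∈ closedBall b.1 b.2, b.2 ≤ sgm c r x / 100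
  vT : ∑' b : T, volume (ball b.1.1 b.1.2) ≤ volume (ball z r) / 2
  nb : ∀ x ∈ ball z r, x ≠ c → (∀ b ∈ T, x ∉ ball b.1 b.2) → NB G x (sgm c r x) (5 * l)
  cJ : J.Countable
  dJ : J.PairwiseDisjoint fun j => Ioo j.1 j.2
  pJ : ∀ j ∈ J, 0 < j.1 ∧ j.1 < j.2 ∧ j.2 ≤ 2 * j.1 ∧ j.2 ≤ s1
  lJ : ∫⁻ s in ⋃ j ∈ J, Ioo j.1 j.2, ENNReal.ofReal s⁻¹ ≤ 1 / 2
  sh : ∀ b ∈ T, (∀ x ∈ ball b.1 b.2, s1 < dist x c) ∨
    ∃ j ∈ J, ∀ x ∈ ball b.1 b.2, dist x c ∈ Ioo j.1 j.2

/-- `g` is locally absolutely continuous on the interval from `0` to `R` with derivative `g'`. -/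
def Pr {X : Type} [NormedAddCommGroup X] [NormedSpace ℝ X] (g g' : ℝ → X) (R : ℝ) : Prop :=
  (∀ a b, 0 < a → a ≤ b → b ≤ R → AbsolutelyContinuousOnInterval g a b) ∧
    ∀ᵐ s, s ∈ Ioo 0 R → HasDerivAt g (g' s) s

/-- The flux of a ball, as a bulk integral. -/
noncomputable def Ff (f : E n → V m) (c : E n) (s : ℝ) : V m :=
  -((om n)⁻¹ • ∫ x in ball c s, f x)

/-- The bulk part of the Lyapunov function. -/
noncomputable def Iu (u : E n → V m) (G : E n → W n m) (f : E n → V m) (c : E n) (s : ℝ) : ℝ :=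
  (om n)⁻¹ * ∫ x in ball c s, (‖G x‖ ^ n - ⟪f x, u x⟫)

/-- The radial functions about the centre `c` up to the radius `R`. -/
structure Trk (P : V m → Op m) (L : ℝ) (N : Rl n m) (u : E n → V m) (G : E n → W n m)
    (f : E n → V m) (Cp : ℝ) (c : E n) (R : ℝ) (y : ℝ → V m) (g : ℝ → Op m) : Prop where
  slc : ∀ᵐ s, s ∈ Ioo 0 R → Slc L N Cp (sl u c s) (pp G c s) (ph f c s)
  py : Pr y (fun s => s⁻¹ • sa (pp G c s)) R
  ye : ∀ᵐ s, s ∈ Ioo 0 R → y s = sy (sl u c s)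
  yb : ∀ s ∈ Ioc 0 R, ‖y s‖ ≤ L
  pg : Pr g (fun s => s⁻¹ • sgd P (sl u c s) (pp G c s)) R
  ge : ∀ᵐ s, s ∈ Ioo 0 R → g s = sg P (sl u c s)
  g1 : ∀ s ∈ Ioc 0 R, ∀ a, ‖a‖ ^ 2 ≤ ⟪g s a, a⟫
  gs : ∀ s ∈ Ioc 0 R, ∀ a b, ⟪g s a, b⟫ = ⟪a, g s b⟫
  gb : ∀ s ∈ Ioc 0 R, ‖g s‖ ≤ 1 + 2 * L ^ 2
  Fe : ∀ᵐ s, s ∈ Ioo 0 R → Ff f c s = sF (pp G c s)
  pF : Pr (Ff f c) (fun s => s⁻¹ • sD (ph f c s)) R
  pI : Pr (Iu u G f c) (fun s => s⁻¹ * (sM (pp G c s) n + sR (sl u c s) (ph f c s) 0)) R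

/-- The radial density of the energy with weight `a - b 1_A`. -/
noncomputable def rr (G : E n → W n m) (a b : ℝ) (A : Set (E n)) (c : E n) (s : ℝ) : ℝ :=
  s⁻¹ * (a * sM (pp G c s) n -
    b * ∫ θ, A.indicator (fun _ => (1 : ℝ)) (c + s • (θ : E n)) * ‖pp G c s θ‖ ^ n ∂sph n)

/-- The energy measure. -/
noncomputable def em (G : E n → W n m) : Measure (E n) :=
  volume.withDensity fun x => ENNReal.ofReal (‖G x‖ ^ n)

/-- The flux bound that the first pass gives. -/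
def Flx (Ω : Set (E n)) (G : E n → W n m) (l1 : ℝ) : Prop :=
  ∀ c R, closedBall c R ⊆ Ω → ∀ᵐ s, s ∈ Ioo 0 R → ∀ l, l ≤ l1 → Good Ω G c s l →
    ‖sF (pp G c s)‖ * ‖sa (pp G c s)‖ ≤ sM (pp G c s) n / 8

/-- The lower bound on a ball, up to the energy of the set `A`. -/
def Low (u : E n → V m) (G : E n → W n m) (f : E n → V m) (κ K c0 C0 : ℝ) (A : Set (E n))
    (z : E n) (r l : ℝ) : Prop :=
  ∀ Z, ‖Z + κ • av u z r‖ ≤ 2 - K * l →
    c0 * κ * en G (ball z r) - C0 * en G (A ∩ ball z r) ≤ Q u G f κ (ball z r) Z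

/-- Continuous representative on `Ω`. -/
def Rep (Ω : Set (E n)) (u : E n → V m) : Prop :=
  ∃ v : E n → V m, ContinuousOn v Ω ∧ ∀ᵐ x ∂(volume.restrict Ω), u x = v x

theorem om_pos (hn : 1 ≤ n) : 0 < om n := by
  have : Nonempty (Fin n) := ⟨⟨0, hn⟩⟩
  rw [om, Measure.toSphere_real_apply_univ]
  have h1 : 0 < (volume : Measure (E n)).real (ball 0 1) :=
    ENNReal.toReal_pos (measure_ball_pos _ _ one_pos).ne' measure_ball_lt_top.ne
  have h2 : (0 : ℝ) < Module.finrank ℝ (E n) := by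
    rw [finrank_euclideanSpace_fin]; exact_mod_cast hn
  exact mul_pos h2 h1

theorem sph_prob (hn : 1 ≤ n) : IsProbabilityMeasure (sph n) := by
  have h := om_pos hn
  rw [om, measureReal_def, ENNReal.toReal_pos_iff] at h
  exact ⟨by rw [sph, Measure.smul_apply, smul_eq_mul, ENNReal.inv_mul_cancel h.1.ne' h.2.ne]⟩

theorem en_nonneg (G : E n → W n m) (A : Set (E n)) : 0 ≤ en G A :=
  integral_nonneg fun _ => by positivity

section
variable {Ω : Set (E n)} {P : V m → Op m} {L : ℝ} {N : Rl n m} {u : E n → V m}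
  {G : E n → W n m} {f : E n → V m}

theorem Dat.en_mono (D : Dat Ω P L N u G f) {A B : Set (E n)} (h : A ⊆ B) : en G A ≤ en G B :=
  setIntegral_mono_set D.iG.integrableOn (ae_of_all _ fun _ => by positivity) h.eventuallyLE

theorem Dat.iu (D : Dat Ω P L N u G f) {A : Set (E n)} (hA : volume A ≠ ⊤) :
    IntegrableOn u A volume :=
  Measure.integrableOn_of_bounded hA D.mu.aestronglyMeasurable (ae_of_all _ D.bu)

end

end Pool.Agent.Lib.MP_a785f2_an.LZ
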