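import Pool.Agent.Lib.MP_a785f2_an.LZ.Alg
import Pool.Agent.Lib.MP_a785f2_an.HS.LimT

/-! The equation tested with the solution. -/

open MeasureTheory Metric Set Filter Topology
open scoped ContDiff RealInnerProductSpace ENNReal

namespace Pool.Agent.Lib.MP_a785f2_an.LZ

open HS (V)

variable {n m : ℕ} {Ω : Set (E n)} {P : V m → Op m} {L : ℝ} {N : Rl n m} {u : E n → V m}
  {G : E n → W n m} {f : E n → V m}

/-- An operator applied to every column. -/
noncomputable def eqCm (A : Op m) (p : W n m) : W n m := WithLp.toLp 2 fun α => A (p α)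

theorem eqCm_norm (A : Op m) (p : W n m) : ‖eqCm A p‖ ≤ ‖A‖ * ‖p‖ := by
  refine (sq_le_sq₀ (norm_nonneg _) (by positivity)).1 ?_
  rw [PiLp.norm_sq_eq_of_L2, mul_pow, PiLp.norm_sq_eq_of_L2 _ p, Finset.mul_sum]
  refine Finset.sum_le_sum fun α _ => ?_
  rw [← mul_pow]
  exact pow_le_pow_left₀ (norm_nonneg _) (A.le_opNorm _) 2

theorem eqCm_sub (A : Op m) (p q : W n m) : eqCm A (p - q) = eqCm A p - eqCm A q := by
  ext α i
  simp [eqCm]

theorem eqCm_id (p : W n m) : eqCm (ContinuousLinearMap.id ℝ (V m)) p = p := rfl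

theorem eqCm_cont : Continuous fun q : Op m × W n m => eqCm q.1 q.2 := by
  unfold eqCm
  fun_prop

theorem eq_gradient_apply (ψ : E n → ℝ) (x : E n) (α : Fin n) :
    gradient ψ x α = fderiv ℝ ψ x (EuclideanSpace.single α 1) := by
  rw [← InnerProductSpace.toDual_symm_apply, EuclideanSpace.inner_single_right]
  simp [gradient]

theorem eq_gradient_cont {ψ : E n → ℝ} (h1 : ContDiff ℝ 1 ψ) : Continuous (gradient ψ) :=
  (InnerProductSpace.toDual ℝ (E n)).symm.continuous.comp (h1.continuous_fderiv one_ne_zero)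

theorem eq_gradient_norm (ψ : E n → ℝ) (x : E n) : ‖gradient ψ x‖ = ‖fderiv ℝ ψ x‖ :=
  (InnerProductSpace.toDual ℝ (E n)).symm.norm_map _

theorem eq_grad_smul {ψ : E n → ℝ} (h1 : ContDiff ℝ 1 ψ) {Φ : V m → V m} (h2 : ContDiff ℝ 1 Φ)
    {w : E n → V m} (h3 : ContDiff ℝ 1 w) (x : E n) :
    grad (fun x => ψ x • Φ (w x)) x =
      ψ x • eqCm (fderiv ℝ Φ (w x)) (grad w x) + ten (Φ (w x)) (gradient ψ x) := by
  have d1 := ((h2.differentiable one_ne_zero (w x)).hasFDerivAt.comp x
    (h3.differentiable one_ne_zero x).hasFDerivAt)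
  have d : fderiv ℝ (fun x => ψ x • Φ (w x)) x =
      ψ x • (fderiv ℝ Φ (w x)).comp (fderiv ℝ w x) + (fderiv ℝ ψ x).smulRight (Φ (w x)) :=
    ((h1.differentiable one_ne_zero x).hasFDerivAt.smul d1).fderiv
  ext α i
  simp [grad, d, eqCm, ten, eq_gradient_apply]

theorem eq_pow_le (hn : 2 ≤ n) {t : ℝ} (ht : 0 ≤ t) : t ^ (n - 1) ≤ 1 + t ^ n := by
  rcases le_total t 1 with h | h
  · exact (pow_le_one₀ ht h).trans (le_add_of_nonneg_right (pow_nonneg ht _))
  · exact (pow_le_pow_right₀ h (by omega)).trans (le_add_of_nonneg_left zero_le_one)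

/-- The equation tested with a cut-off times a bounded function of the solution. -/
theorem Dat.eq_comp (D : Dat Ω P L N u G f) {Φ : V m → V m} (h2 : ContDiff ℝ 1 Φ) {B : ℝ}
    (b0 : ∀ y, ‖Φ y‖ ≤ B) (b1 : ∀ y, ‖fderiv ℝ Φ y‖ ≤ B) {ψ : E n → ℝ} (h1 : ContDiff ℝ 1 ψ)
    {c : E n} {R : ℝ} (hs : tsupport ψ ⊆ closedBall c R) (hR : closedBall c R ⊆ Ω) :
    Integrable (fun x => ⟪rad (AA (G x)) (gradient ψ x), Φ (u x)⟫ +
      ψ x * (⟪AA (G x), eqCm (fderiv ℝ Φ (u x)) (G x)⟫ - ⟪f x, Φ (u x)⟫)) volume ∧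
    ∫ x, (⟪rad (AA (G x)) (gradient ψ x), Φ (u x)⟫ +
      ψ x * (⟪AA (G x), eqCm (fderiv ℝ Φ (u x)) (G x)⟫ - ⟪f x, Φ (u x)⟫)) = 0 := by
  have hn : 2 ≤ n := le_trans (by norm_num) D.n3
  obtain ⟨w, sw, aw, -, lw⟩ := D.apx c R hR
  have g2 : HasCompactSupport ψ :=
    (isCompact_closedBall c R).of_isClosed_subset (isClosed_tsupport ψ) hs
  have B0 : 0 ≤ B := (norm_nonneg _).trans (b0 0)
  have cΦ : Continuous Φ := h2.continuous
  have cD : Continuous (fderiv ℝ Φ) := h2.continuous_fderiv one_ne_zero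
  have cg : Continuous (fderiv ℝ ψ) := h1.continuous_fderiv one_ne_zero
  have cg' : Continuous (gradient ψ) := eq_gradient_cont h1
  obtain ⟨L3, hL3⟩ := h1.continuous.bounded_above_of_compact_support g2
  obtain ⟨L4, hL4⟩ := cg.bounded_above_of_compact_support (g2.fderiv ℝ)
  have L30 : 0 ≤ L3 := (norm_nonneg _).trans (hL3 c)
  have mA : StronglyMeasurable fun x => AA (G x) := continuous_AA.comp_stronglyMeasurable D.mG
  have hout : ∀ x, x ∉ closedBall c R → ψ x = 0 ∧ gradient ψ x = 0 := fun x hx =>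
    ⟨image_eq_zero_of_notMem_tsupport fun h => hx (hs h), by
      rw [← norm_eq_zero, eq_gradient_norm, norm_eq_zero]
      exact image_eq_zero_of_notMem_tsupport fun h => hx (hs (tsupport_fderiv_subset ℝ h))⟩
  have hc : ∀ x y (A : W n m), |⟪AA (G x), eqCm (fderiv ℝ Φ y) A⟫| ≤
      B * (‖G x‖ ^ (n - 1) * ‖A‖) := fun x y A => by
    refine (abs_real_inner_le_norm _ _).trans ?_
    have h3 : ‖eqCm (fderiv ℝ Φ y) A‖ ≤ B * ‖A‖ :=
      (eqCm_norm _ _).trans (mul_le_mul_of_nonneg_right (b1 y) (norm_nonneg _))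
    rw [norm_AA hn]
    calc _ ≤ ‖G x‖ ^ (n - 1) * (B * ‖A‖) := by gcongr
      _ = _ := by ring
  set T : E n → V m → ℝ := fun x y => ⟪rad (AA (G x)) (gradient ψ x), Φ y⟫ +
    ψ x * (⟪AA (G x), eqCm (fderiv ℝ Φ y) (G x)⟫ - ⟪f x, Φ y⟫) with hT
  set Z : ℕ → E n → ℝ := fun k x =>
    -(ψ x * ⟪AA (G x), eqCm (fderiv ℝ Φ (w k x)) (grad (w k) x - G x)⟫) with hZ
  have mT : ∀ y : E n → V m, StronglyMeasurable y → StronglyMeasurable fun x => T x (y x) := by
    intro y hy
    have a1 : StronglyMeasurable fun x => Φ (y x) := cΦ.comp_stronglyMeasurable hy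
    have a2 : StronglyMeasurable fun x => fderiv ℝ Φ (y x) := cD.comp_stronglyMeasurable hy
    have a3 : StronglyMeasurable fun x => rad (AA (G x)) (gradient ψ x) :=
      continuous_rad.comp_stronglyMeasurable (mA.prodMk cg'.stronglyMeasurable)
    have a4 : StronglyMeasurable fun x => eqCm (fderiv ℝ Φ (y x)) (G x) :=
      eqCm_cont.comp_stronglyMeasurable (a2.prodMk D.mG)
    exact (a3.inner a1).add
      (h1.continuous.stronglyMeasurable.mul ((mA.inner a4).sub (D.mf.inner a1)))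
  set bd : E n → ℝ := fun x => B * (‖fderiv ℝ ψ x‖ + L4 * ‖G x‖ ^ n)
    + L3 * (B * ‖G x‖ ^ n + ‖f x‖ * B) with hbd
  have ibd : Integrable bd :=
    (((cg.integrable_of_hasCompactSupport (g2.fderiv ℝ)).norm.add
      (D.iG.const_mul L4)).const_mul _).add
      (((D.iG.const_mul _).add (D.iF.norm.mul_const _)).const_mul _)
  have bT : ∀ x y, ‖T x y‖ ≤ bd x := fun x y => by
    have a1 : |⟪rad (AA (G x)) (gradient ψ x), Φ y⟫| ≤
        B * (‖fderiv ℝ ψ x‖ + L4 * ‖G x‖ ^ n) := by
      refine (abs_real_inner_le_norm _ _).trans ?_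
      have q0 : ‖rad (AA (G x)) (gradient ψ x)‖ ≤ ‖G x‖ ^ (n - 1) * ‖fderiv ℝ ψ x‖ := by
        rw [← norm_AA hn, ← eq_gradient_norm]
        exact norm_rad_le _ _
      have q1 : ‖G x‖ ^ (n - 1) * ‖fderiv ℝ ψ x‖ ≤ ‖fderiv ℝ ψ x‖ + L4 * ‖G x‖ ^ n := by
        have := mul_le_mul_of_nonneg_right (eq_pow_le hn (norm_nonneg (G x)))
          (norm_nonneg (fderiv ℝ ψ x))
        have := mul_le_mul_of_nonneg_left (hL4 x) (pow_nonneg (norm_nonneg (G x)) n)
        nlinarith
      rw [mul_comm B]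
      exact mul_le_mul (q0.trans q1) (b0 y) (norm_nonneg _) ((norm_nonneg _).trans (q0.trans q1))
    have a2 : |⟪AA (G x), eqCm (fderiv ℝ Φ y) (G x)⟫| ≤ B * ‖G x‖ ^ n := by
      refine (hc x y _).trans_eq ?_
      rw [← pow_succ, Nat.sub_add_cancel (by omega)]
    have a3 : |⟪f x, Φ y⟫| ≤ ‖f x‖ * B :=
      (abs_real_inner_le_norm _ _).trans (mul_le_mul_of_nonneg_left (b0 y) (norm_nonneg _))
    rw [Real.norm_eq_abs, hT, hbd]
    refine (abs_add_le _ _).trans (add_le_add a1 ?_)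
    rw [abs_mul]
    exact mul_le_mul (hL3 x) ((abs_sub _ _).trans (add_le_add a2 a3)) (abs_nonneg _) L30
  have cT : ∀ x, Continuous (T x) := fun x => by
    have a2 : Continuous fun y => eqCm (fderiv ℝ Φ y) (G x) :=
      eqCm_cont.comp (cD.prodMk continuous_const)
    exact (continuous_const.inner cΦ).add
      (continuous_const.mul ((continuous_const.inner a2).sub (continuous_const.inner cΦ)))
  have T0 : ∀ x y, x ∉ closedBall c R → T x y = 0 := fun x y hx => by
    simp [hT, (hout x hx).1, (hout x hx).2, rad]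
  have lim1 : Tendsto (fun k => ∫ x, T x (w k x)) atTop (𝓝 (∫ x, T x (u x))) := by
    refine tendsto_integral_of_dominated_convergence bd
      (fun k => (mT _ (sw k).continuous.stronglyMeasurable).aestronglyMeasurable) ibd
      (fun k => ae_of_all _ fun x => bT x _) ?_
    filter_upwards [(ae_restrict_iff' measurableSet_closedBall).1 aw] with x hx
    by_cases h : x ∈ closedBall c R
    · exact ((cT x).tendsto _).comp (hx h)
    · simp only [T0 x _ h]; exact tendsto_const_nhds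
  have lim2 : Tendsto (fun k => ∫ x, Z k x) atTop (𝓝 0) := by
    obtain ⟨k0, rfl⟩ : ∃ k, n = k + 1 := ⟨n - 1, by omega⟩
    have h3 := HS.limT_small (μ := volume.restrict (closedBall c R)) k0
      (fun x => norm_nonneg (G x)) D.iG.integrableOn lw
    have c0 : 0 ≤ L3 * B := by positivity
    have h4 := ENNReal.Tendsto.const_mul (a := ENNReal.ofReal (L3 * B)) h3
      (Or.inr ENNReal.ofReal_ne_top)
    rw [mul_zero] at h4
    rw [tendsto_zero_iff_enorm_tendsto_zero]
    refine tendsto_of_tendsto_of_tendsto_of_le_of_le tendsto_const_nhds h4 (fun _ => zero_le)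
      fun k => (enorm_integral_le_lintegral_enorm _).trans ?_
    rw [← lintegral_const_mul' _ _ ENNReal.ofReal_ne_top,
      ← lintegral_indicator measurableSet_closedBall]
    refine lintegral_mono fun x => ?_
    by_cases h : x ∈ closedBall c R
    · rw [indicator_of_mem h, ← ENNReal.ofReal_mul c0, ← ofReal_norm]
      refine ENNReal.ofReal_le_ofReal ?_
      rw [hZ, norm_neg, Real.norm_eq_abs, abs_mul, mul_assoc]
      exact mul_le_mul (hL3 x) (hc x _ _) (abs_nonneg _) L30
    · simp [hZ, (hout x h).1]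
  have key : ∀ k, ∫ x, T x (w k x) = ∫ x, Z k x := fun k => by
    have s2 : ContDiff ℝ 1 fun x => Φ (w k x) := h2.comp (sw k)
    have s3 : ContDiff ℝ 1 fun x => ψ x • Φ (w k x) := h1.smul s2
    have s4 : HasCompactSupport fun x => ψ x • Φ (w k x) := g2.smul_right
    have s5 : tsupport (fun x => ψ x • Φ (w k x)) ⊆ Ω :=
      ((tsupport_smul_subset_left _ _).trans hs).trans hR
    have e := D.eq _ s3 s4 s5
    have iT : Integrable fun x => T x (w k x) := ibd.mono'
      (mT _ (sw k).continuous.stronglyMeasurable).aestronglyMeasurable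
      (ae_of_all _ fun x => bT x _)
    have cgr : Continuous (grad fun x => ψ x • Φ (w k x)) := continuous_grad s3
    have sgr : HasCompactSupport (grad fun x => ψ x • Φ (w k x)) :=
      (s4.fderiv ℝ).mono fun x hx h0 => hx (by
        ext α i
        simp [grad, h0])
    obtain ⟨L5, hL5⟩ := cgr.bounded_above_of_compact_support sgr
    obtain ⟨L6, hL6⟩ := s3.continuous.bounded_above_of_compact_support s4
    have i1 : Integrable fun x => ⟪AA (G x), grad (fun x => ψ x • Φ (w k x)) x⟫ := by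
      refine ((cgr.integrable_of_hasCompactSupport sgr).norm.add (D.iG.const_mul L5)).mono'
        (mA.inner cgr.stronglyMeasurable).aestronglyMeasurable (ae_of_all _ fun x => ?_)
      refine (abs_real_inner_le_norm _ _).trans ?_
      rw [norm_AA hn, Pi.add_apply]
      have := mul_le_mul_of_nonneg_right (eq_pow_le hn (norm_nonneg (G x)))
        (norm_nonneg (grad (fun x => ψ x • Φ (w k x)) x))
      have := mul_le_mul_of_nonneg_left (hL5 x) (pow_nonneg (norm_nonneg (G x)) n)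
      nlinarith
    have i2 : Integrable fun x => ⟪f x, ψ x • Φ (w k x)⟫ :=
      (D.iF.norm.mul_const L6).mono'
        (D.mf.inner s3.continuous.stronglyMeasurable).aestronglyMeasurable
        (ae_of_all _ fun x => (abs_real_inner_le_norm _ _).trans
          (mul_le_mul_of_nonneg_left (hL6 x) (norm_nonneg _)))
    have e2 : ∀ x, Z k x = T x (w k x) -
        (⟪AA (G x), grad (fun x => ψ x • Φ (w k x)) x⟫ - ⟪f x, ψ x • Φ (w k x)⟫) := fun x => by
      rw [eq_grad_smul h1 h2 (sw k), hT, hZ, inner_add_right, inner_smul_right, inner_smul_right,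
        inner_ten]
      simp only [eqCm_sub, inner_sub_right]
      ring
    simp only [e2]
    have i3 : Integrable fun x => ⟪AA (G x), grad (fun x => ψ x • Φ (w k x)) x⟫ -
        ⟪f x, ψ x • Φ (w k x)⟫ := i1.sub i2
    rw [integral_sub iT i3, integral_sub i1 i2, e, sub_self, sub_zero]
  simp only [key] at lim1
  exact ⟨ibd.mono' (mT _ D.mu).aestronglyMeasurable (ae_of_all _ fun x => bT x _),
    tendsto_nhds_unique lim1 lim2⟩

theorem Dat.eq_u (D : Dat Ω P L N u G f) {ψ : E n → ℝ} (h1 : ContDiff ℝ 1 ψ) {c : E n} {R : ℝ}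
    (hs : tsupport ψ ⊆ closedBall c R) (hR : closedBall c R ⊆ Ω) :
    ∫ x, (ψ x * ‖G x‖ ^ n + ⟪rad (AA (G x)) (gradient ψ x), u x⟫) = ∫ x, ψ x * ⟪f x, u x⟫ := by
  have hn : 2 ≤ n := le_trans (by norm_num) D.n3
  have hL : 0 < L := one_pos.trans_le D.geo.L1
  let χ : ContDiffBump (0 : V m) := ⟨2 * L, 3 * L, by positivity, by linarith⟩
  have h2 : ContDiff ℝ 1 fun y : V m => χ y • y := χ.contDiff.smul contDiff_id
  have h3 : HasCompactSupport fun y : V m => χ y • y := χ.hasCompactSupport.smul_right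
  obtain ⟨B1, hB1⟩ := h2.continuous.bounded_above_of_compact_support h3
  obtain ⟨B2, hB2⟩ :=
    (h2.continuous_fderiv one_ne_zero).bounded_above_of_compact_support (h3.fderiv ℝ)
  obtain ⟨i1, e1⟩ := D.eq_comp h2 (B := max B1 B2) (fun y => (hB1 y).trans (le_max_left _ _))
    (fun y => (hB2 y).trans (le_max_right _ _)) h1 hs hR
  have e : ∀ x, (fun y : V m => χ y • y) =ᶠ[𝓝 (u x)] id := fun x => by
    have : u x ∈ ball (0 : V m) (2 * L) := by
      rw [mem_ball_zero_iff]; linarith [D.bu x]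
    filter_upwards [isOpen_ball.mem_nhds this] with y hy
    rw [χ.one_of_mem_closedBall (ball_subset_closedBall hy), one_smul, id]
  have e2 : ∀ x, χ (u x) • u x = u x := fun x => (e x).eq_of_nhds
  have e3 : ∀ x, fderiv ℝ (fun y : V m => χ y • y) (u x) = ContinuousLinearMap.id ℝ (V m) :=
    fun x => by rw [(e x).fderiv_eq, fderiv_id]
  simp only [e2, e3, eqCm_id, inner_AA hn] at i1 e1
  have g2 : HasCompactSupport ψ :=
    (isCompact_closedBall c R).of_isClosed_subset (isClosed_tsupport ψ) hs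
  obtain ⟨L3, hL3⟩ := h1.continuous.bounded_above_of_compact_support g2
  have i2 : Integrable fun x => ψ x * ⟪f x, u x⟫ := by
    refine ((D.iF.norm.mul_const L).const_mul L3).mono'
      (h1.continuous.stronglyMeasurable.mul (D.mf.inner D.mu)).aestronglyMeasurable
      (ae_of_all _ fun x => ?_)
    rw [norm_mul]
    exact mul_le_mul (hL3 x) ((abs_real_inner_le_norm _ _).trans
      (mul_le_mul_of_nonneg_left (D.bu x) (norm_nonneg _))) (norm_nonneg _)
      ((norm_nonneg _).trans (hL3 x))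
  have e4 := integral_add i1 i2
  rw [e1, zero_add] at e4
  rw [← e4]
  refine integral_congr_ae (ae_of_all _ fun x => ?_)
  ring

end Pool.Agent.Lib.MP_a785f2_an.LZ
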