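import Pool.Agent.Lib.MP_a785f2_an.LZ.Polar
import Pool.Agent.Lib.MP_a785f2_an.LZ.PrC
import Pool.Agent.Lib.MP_a785f2_an.LZ.EqU

/-! The flux identity and the energy identity. -/

open MeasureTheory Metric Set Filter Topology
open scoped ContDiff RealInnerProductSpace ENNReal

namespace Pool.Agent.Lib.MP_a785f2_an.LZ

open HS (V)

variable {n m : ℕ} {Ω : Set (E n)} {P : V m → Op m} {L : ℝ} {N : Rl n m} {u : E n → V m}
  {G : E n → W n m} {f : E n → V m}

/-- The directional derivative as a linear map of the direction. -/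
noncomputable def r2L (p : W n m) : E n →L[ℝ] V m :=
  ∑ α, (EuclideanSpace.proj α : E n →L[ℝ] ℝ).smulRight (p α)

theorem r2L_apply (p : W n m) (v : E n) : r2L p v = rad p v := by
  simp [r2L, rad]

theorem r2L_cont : Continuous fun p : W n m => r2L p := by
  refine continuous_finsetSum _ fun α _ => ?_
  exact (ContinuousLinearMap.smulRightL ℝ (E n) (V m) (EuclideanSpace.proj α)).continuous.comp
    (PiLp.continuous_apply 2 _ α)

theorem r2L_norm (p : W n m) : ‖r2L p‖ ≤ ‖p‖ :=
  ContinuousLinearMap.opNorm_le_bound _ (norm_nonneg _) fun v => by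
    rw [r2L_apply]; exact norm_rad_le p v

theorem r2_sph {X : Type} [NormedAddCommGroup X] [NormedSpace ℝ X] (g : S n → X) :
    ∫ θ, g θ ∂sph n = (om n)⁻¹ • ∫ θ, g θ ∂(volume : Measure (E n)).toSphere := by
  rw [sph, integral_smul_measure, ENNReal.toReal_inv]; rfl

theorem r2_ext {Y : Type} [NormedAddCommGroup Y] {A : E n → Y} {K : Set (E n)}
    (hK : MeasurableSet K) (hA : IntegrableOn A K volume) :
    ∃ A' : E n → Y, Integrable A' volume ∧ ∀ x ∈ K, A' x = A x :=
  ⟨_, hA.integrable_indicator hK, fun _ hx => indicator_of_mem hx _⟩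

theorem r2_div {X : Type} [NormedAddCommGroup X] [NormedSpace ℝ X] [CompleteSpace X] (hn : 1 ≤ n)
    (c : E n) {R : ℝ} {A : E n → E n →L[ℝ] X} {d : E n → X}
    (hA : IntegrableOn A (closedBall c R) volume) (hd : Integrable d volume)
    (h : ∀ φ : E n → ℝ, ContDiff ℝ 1 φ → HasCompactSupport φ → tsupport φ ⊆ closedBall c R →
      Integrable (fun x => A x (gradient φ x)) volume →
      ∫ x, A x (gradient φ x) = -∫ x, φ x • d x) :
    ∀ᵐ s : ℝ, s ∈ Ioo 0 R → (om n)⁻¹ • ∫ x in ball c s, d x =
      s ^ (n - 1) • ∫ θ, A (c + s • ((θ : S n) : E n)) θ ∂sph n := by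
  obtain ⟨A', hA', eA⟩ : ∃ A' : E n → E n →L[ℝ] X, Integrable A' volume ∧
      ∀ x ∈ closedBall c R, A' x = A x :=
    r2_ext (Y := E n →L[ℝ] X) measurableSet_closedBall hA
  have key := LY.div_ball hn c (R := R) hA' hd fun φ h1 h2 h3 => by
    have h1' : ContDiff ℝ 1 φ := h1.of_le (by exact_mod_cast le_top)
    have h4 : tsupport φ ⊆ closedBall c R := h3.trans ball_subset_closedBall
    have e : ∀ x, A' x (gradient φ x) = A x (gradient φ x) := by
      intro x
      by_cases hx : x ∈ closedBall c R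
      · rw [eA x hx]
      · have h5 : fderiv ℝ φ x = 0 := by
          by_contra h6
          exact hx (h4 (support_fderiv_subset ℝ h6))
        simp [gradient, h5]
    have cg : Continuous (gradient φ) :=
      (InnerProductSpace.toDual ℝ (E n)).symm.continuous.comp (h1'.continuous_fderiv one_ne_zero)
    obtain ⟨C, hC⟩ := (h1'.continuous_fderiv one_ne_zero).bounded_above_of_compact_support
      (h2.fderiv ℝ)
    have i1 := LY.apply_int hA' cg.aestronglyMeasurable (C := C) fun x => by
      rw [gradient, LinearIsometryEquiv.norm_map]; exact hC x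
    simp only [e] at i1 ⊢
    exact h φ h1' h2 h4 i1
  filter_upwards [key] with s hs h0
  rw [hs h0, r2_sph, smul_comm]
  congr 2
  refine integral_congr_ae (Eventually.of_forall fun θ => ?_)
  have h1 : c + s • (θ : E n) ∈ closedBall c R := by
    rw [mem_closedBall, dist_eq_norm, LY.polar_norm c h0.1.le θ]; exact h0.2.le
  simp only [eA _ h1]

theorem r2_grad {φ : E n → ℝ} (h : ContDiff ℝ 1 φ) (e : V m) (x : E n) :
    grad (fun y => φ y • e) x = ten e (gradient φ x) := by
  ext α : 1
  have h1 := (h.differentiable one_ne_zero x).hasFDerivAt.smul_const e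
  have h2 : gradient φ x α = fderiv ℝ φ x (EuclideanSpace.single α 1) := by
    rw [← inner_gradient_left, EuclideanSpace.inner_single_right]; simp
  simp only [grad, ten, h1.fderiv, ContinuousLinearMap.smulRight_apply, h2]

theorem Dat.r2_int (D : Dat Ω P L N u G f) (c : E n) (R : ℝ) :
    IntegrableOn (fun x => r2L (AA (G x))) (closedBall c R) volume := by
  have hn := D.n3
  refine (D.iGk (k := n - 1) (Nat.sub_le _ _) measure_closedBall_lt_top.ne).mono'
    ((r2L_cont.comp continuous_AA).comp_stronglyMeasurable D.mG).aestronglyMeasurable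
    (Eventually.of_forall fun x => ?_)
  exact (r2L_norm _).trans_eq (norm_AA (by omega) _)

theorem Dat.r2_fu (D : Dat Ω P L N u G f) : Integrable (fun x => ⟪f x, u x⟫) volume := by
  refine (D.iF.norm.mul_const L).mono' (D.mf.inner D.mu).aestronglyMeasurable
    (Eventually.of_forall fun x => ?_)
  exact (norm_inner_le_norm _ _).trans (mul_le_mul_of_nonneg_left (D.bu x) (norm_nonneg _))

theorem r2_mul {φ g : E n → ℝ} (h1 : ContDiff ℝ 1 φ) (h2 : HasCompactSupport φ)
    (hg : Integrable g volume) : Integrable (fun x => φ x * g x) volume := by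
  obtain ⟨C, hC⟩ := h1.continuous.bounded_above_of_compact_support h2
  exact hg.bdd_mul h1.continuous.aestronglyMeasurable (Eventually.of_forall hC)

theorem Dat.rad2 (D : Dat Ω P L N u G f) {c : E n} {R : ℝ} (hR : closedBall c R ⊆ Ω) :
    ∀ᵐ s, s ∈ Ioo 0 R → Ff f c s = sF (pp G c s) := by
  have hn := D.n3
  have key := r2_div (by omega) c (D.r2_int c R) D.iF.neg fun φ h1 h2 h3 h4 => by
    obtain ⟨C, hC⟩ := h1.continuous.bounded_above_of_compact_support h2
    have i2 : Integrable (fun x => φ x • f x) volume :=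
      D.iF.bdd_smul C h1.continuous.aestronglyMeasurable (Eventually.of_forall hC)
    simp only [Pi.neg_apply, smul_neg, integral_neg, neg_neg]
    refine ext_inner_left ℝ fun e => ?_
    rw [← integral_inner h4, ← integral_inner i2]
    have h5 := D.eq (fun y => φ y • e) (h1.smul contDiff_const) h2.smul_right
      ((tsupport_smul_subset_left _ _).trans (h3.trans hR))
    simp only [r2_grad h1, inner_ten] at h5
    simp only [r2L_apply, real_inner_comm _ e, real_inner_smul_left]
    simpa only [real_inner_smul_right] using h5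
  filter_upwards [key] with s hs h0
  have h1 := hs h0
  simp only [Pi.neg_apply, integral_neg, smul_neg, r2L_apply] at h1
  rw [Ff, h1, sF, ← integral_smul]
  refine integral_congr_ae (Eventually.of_forall fun θ => ?_)
  simp only [pp, AA_smul (show 2 ≤ n by omega) h0.1.le, rad_smul]

theorem Dat.rad3 (D : Dat Ω P L N u G f) {c : E n} {R : ℝ} (hR : closedBall c R ⊆ Ω) :
    ∀ᵐ s, s ∈ Ioo 0 R → Iu u G f c s = ∫ θ, ⟪rad (AA (pp G c s θ)) θ, sl u c s θ⟫ ∂sph n := by
  have hn := D.n3
  have hA : IntegrableOn (fun x => (innerSL ℝ (u x)).comp (r2L (AA (G x)))) (closedBall c R)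
      volume := by
    have cm : Continuous fun q : V m × W n m => (innerSL ℝ q.1).comp (r2L (AA q.2)) :=
      ((innerSL ℝ).continuous.comp continuous_fst).clm_comp
        ((r2L_cont.comp continuous_AA).comp continuous_snd)
    refine ((D.r2_int c R).norm.const_mul L).mono'
      (cm.comp_stronglyMeasurable (D.mu.prodMk D.mG)).aestronglyMeasurable
      (Eventually.of_forall fun x => ?_)
    refine (ContinuousLinearMap.opNorm_comp_le _ _).trans ?_
    rw [innerSL_apply_norm]
    exact mul_le_mul_of_nonneg_right (D.bu x) (norm_nonneg _)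
  have key := r2_div (by omega) c hA (D.iG.sub D.r2_fu) fun φ h1 h2 h3 h4 => by
    have h5 := D.eq_u h1 h3 hR
    simp only [ContinuousLinearMap.comp_apply, innerSL_apply_apply, r2L_apply,
      real_inner_comm _ (u _)] at h4 ⊢
    rw [integral_add (r2_mul h1 h2 D.iG) h4] at h5
    simp only [Pi.sub_apply, smul_eq_mul, mul_sub]
    rw [integral_sub (r2_mul h1 h2 D.iG) (r2_mul h1 h2 D.r2_fu)]
    linarith
  filter_upwards [key] with s hs h0
  have h1 := hs h0
  simp only [Pi.sub_apply, smul_eq_mul, ContinuousLinearMap.comp_apply, innerSL_apply_apply,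
    r2L_apply] at h1
  rw [Iu, h1, ← integral_const_mul]
  refine integral_congr_ae (Eventually.of_forall fun θ => ?_)
  simp only [pp, sl, AA_smul (show 2 ≤ n by omega) h0.1.le, rad_smul, real_inner_smul_left]
  rw [real_inner_comm]

theorem r2_pow (hn : 1 ≤ n) {s : ℝ} (hs : 0 < s) : s⁻¹ * s ^ n = s ^ (n - 1) := by
  obtain ⟨k, rfl⟩ : ∃ k, n = k + 1 := ⟨n - 1, by omega⟩
  rw [Nat.add_sub_cancel, pow_succ]; field_simp

theorem Dat.prF (D : Dat Ω P L N u G f) (c : E n) (R : ℝ) :
    Pr (Ff f c) (fun s => s⁻¹ • sD (ph f c s)) R := by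
  have hn : 1 ≤ n := by have := D.n3; omega
  have h0 := (om_pos hn).ne'
  have e : Ff f c = fun s => (-(om n)⁻¹) • ∫ x in ball c s, f x := by
    funext s; rw [Ff, neg_smul]
  rw [e]
  refine ((pol_pr hn c R D.iF).smul (-(om n)⁻¹)).congr (Eventually.of_forall fun s hs => ?_)
  simp only [sD, ph, sl, integral_neg, integral_smul, smul_neg, smul_smul, r2_pow hn hs.1]
  rw [← mul_assoc, neg_mul, inv_mul_cancel₀ h0, neg_one_mul, neg_smul]

theorem Dat.prI (D : Dat Ω P L N u G f) (c : E n) (R : ℝ) :
    Pr (Iu u G f c) (fun s => s⁻¹ * (sM (pp G c s) n + sR (sl u c s) (ph f c s) 0)) R := by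
  have hn : 1 ≤ n := by have := D.n3; omega
  have h0 := (om_pos hn).ne'
  have i1 := (pol_int hn c measurableSet_Ioi Subset.rfl D.iG.integrableOn).2.1
  have i2 := (pol_int hn c measurableSet_Ioi Subset.rfl D.r2_fu.integrableOn).2.1
  refine ((pol_pr hn c R (D.iG.sub D.r2_fu)).smul (om n)⁻¹).congr ?_
  filter_upwards [i1, i2] with s h1 h2 hs
  have e1 : sM (pp G c s) n = s ^ n * ∫ θ, sl (fun x => ‖G x‖ ^ n) c s θ ∂sph n := by
    rw [sM, ← integral_const_mul]
    refine integral_congr_ae (Eventually.of_forall fun θ => ?_)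
    simp only [pp, sl, norm_smul, Real.norm_of_nonneg hs.1.le, mul_pow]
  have e2 : sR (sl u c s) (ph f c s) 0 =
      -(s ^ n * ∫ θ, sl (fun x => ⟪f x, u x⟫) c s θ ∂sph n) := by
    rw [sR, ← integral_const_mul, ← integral_neg]
    refine integral_congr_ae (Eventually.of_forall fun θ => ?_)
    simp only [ph, sl, sub_zero, inner_neg_left, real_inner_smul_left]
  have e3 : ∫ θ, sl ((fun x => ‖G x‖ ^ n) - fun x => ⟪f x, u x⟫) c s θ ∂sph n =
      ∫ θ, sl (fun x => ‖G x‖ ^ n) c s θ ∂sph n - ∫ θ, sl (fun x => ⟪f x, u x⟫) c s θ ∂sph n :=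
    integral_sub (h1 hs.1) (h2 hs.1)
  rw [e1, e2, e3, smul_eq_mul, smul_eq_mul, ← r2_pow hn hs.1]
  field_simp
  ring

end Pool.Agent.Lib.MP_a785f2_an.LZ
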