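import Pool.Agent.Lib.MP_a785f2_an.LZ.Sph0g

/-! The sign of the derivative on one sphere. -/

open MeasureTheory Metric Set Filter Topology
open scoped ContDiff RealInnerProductSpace ENNReal

namespace Pool.Agent.Lib.MP_a785f2_an.LZ

open HS (V)

variable {n m : ℕ} {Ω : Set (E n)} {P : V m → Op m} {L : ℝ} {N : Rl n m} {u : E n → V m}
  {G : E n → W n m} {f : E n → V m}

theorem Dat.rate (D : Dat Ω P L N u G f) {Cp : ℝ} (hC : 0 < Cp) : ∃ κ0 : ℝ, 0 < κ0 ∧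
    ∃ d : ℝ, 0 < d ∧ ∀ κ, κ0 ≤ κ → ∀ v p φ, Slc L N Cp v p φ →
      (∀ᵐ θ ∂sph n, ‖v θ - sy v‖ ≤ d) →
      (∃ ν : ℝ, 0 ≤ ν ∧ sN P v p φ ≤ ν * ‖sF p‖ ∧
        κ / 2 * sM p n ≤ κ * (sM p n + sR v φ (sy v)) - 3 * ν ∧
        (‖sF p‖ * ‖sa p‖ ≤ sM p n / 8 →
          κ / 2 * sM p n ≤ κ * (sM p n + sR v φ (sy v)) - 3 * ν - κ * ⟪sF p, sa p⟫)) ∧
      (sM p n ≤ d ^ n → ∃ ν : ℝ, 0 ≤ ν ∧ sN P v p φ ≤ ν * ‖sF p‖ ∧
        0 ≤ κ * (sM p n + sR v φ (sy v)) - 3 * ν - κ * ⟪sF p, sa p⟫) := by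
  obtain ⟨C, C0, d0, hd0, H⟩ := D.ok Cp hC
  have L1 := D.geo.L1
  have n2 : 2 ≤ n := by have := D.n3; omega
  have L0 : 0 < L := by linarith
  have L3 : 0 < L ^ 3 := by positivity
  refine ⟨60 * L ^ 3 + 6 * C, by positivity, min d0 (1 / (8 * L)), lt_min hd0 (by positivity),
    fun κ hκ v p φ s hv => ⟨?_, fun he => ?_⟩⟩
  · have e0 : 0 ≤ sM p n := integral_nonneg fun _ => by positivity
    have h1 := s.sN_le D.geo n2
    have h2 := s.sR_le n2 hv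
    have h3 : L * min d0 (1 / (8 * L)) ≤ 1 / 8 := by
      calc L * min d0 (1 / (8 * L)) ≤ L * (1 / (8 * L)) :=
            mul_le_mul_of_nonneg_left (min_le_right _ _) L0.le
        _ = 1 / 8 := by field_simp
    have h4 : -(sM p n / 8) ≤ sR v φ (sy v) := by
      have h5 := mul_le_mul_of_nonneg_right h3 e0
      have h6 := (abs_le.1 h2).1
      linarith
    have k0 : 0 ≤ κ := by linarith
    have h5 := mul_le_mul_of_nonneg_left h4 k0
    have h6 : 60 * L ^ 3 * sM p n ≤ κ * sM p n :=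
      mul_le_mul_of_nonneg_right (by linarith) e0
    have h7 : 0 ≤ κ * sM p n := mul_nonneg k0 e0
    refine ⟨5 * L ^ 3 * sM p n, by positivity, (le_abs_self _).trans h1, by linarith,
      fun h8 => ?_⟩
    have h9 : ⟪sF p, sa p⟫ ≤ sM p n / 8 := (real_inner_le_norm _ _).trans h8
    have h10 := mul_le_mul_of_nonneg_left h9 k0
    linarith
  · have d1 : 0 ≤ min d0 (1 / (8 * L)) := le_min hd0.le (by positivity)
    obtain ⟨X0, h1, h2⟩ := H v p φ s (he.trans (pow_le_pow_left₀ d1 (min_le_left _ _) n))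
      (hv.mono fun θ h => h.trans (min_le_left _ _))
    have k0 : 0 ≤ κ := by linarith
    refine ⟨C * sX p, mul_nonneg C0.le X0, h2, ?_⟩
    have h3 := mul_le_mul_of_nonneg_left (abs_le.1 h1).1 k0
    have h4 : 6 * C * sX p ≤ κ * sX p := mul_le_mul_of_nonneg_right (by linarith) X0
    have h5 : κ * sX p = κ * sM p n - κ * ⟪sF p, sa p⟫ := by rw [sX]; ring
    linarith

end Pool.Agent.Lib.MP_a785f2_an.LZ
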