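import Pool.Agent.Lib.MP_a785f2_an.LZ.Sph0

/-! The metric on one sphere. -/

open MeasureTheory Metric Set Filter Topology
open scoped ContDiff RealInnerProductSpace ENNReal

namespace Pool.Agent.Lib.MP_a785f2_an.LZ

open HS (V)

variable {n m : ℕ} {Ω : Set (E n)} {P : V m → Op m} {L : ℝ} {N : Rl n m} {u : E n → V m}
  {G : E n → W n m} {f : E n → V m}

variable {Cp : ℝ} {v : S n → V m} {p : S n → W n m} {φ : S n → V m}

theorem Slc.mP (s : Slc L N Cp v p φ) (g : Geo P L) : StronglyMeasurable fun θ => P (v θ) :=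
  g.cP.continuous.comp_stronglyMeasurable s.mv

theorem Slc.iP (s : Slc L N Cp v p φ) (g : Geo P L) (hn : 1 ≤ n) :
    Integrable (fun θ => P (v θ)) (sph n) := by
  have := sph_prob hn
  exact (integrable_const L).mono' (s.mP g).aestronglyMeasurable (ae_of_all _ fun θ => g.bP _)

theorem Slc.sP_le (g : Geo P L) (hn : 1 ≤ n) (v : S n → V m) : ‖sP P v‖ ≤ L := by
  have := sph_prob hn
  have h := norm_integral_le_of_norm_le (μ := sph n) (f := fun θ => P (v θ)) (integrable_const L)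
    (ae_of_all _ fun θ => g.bP _)
  rwa [integral_const, probReal_univ, one_smul] at h

theorem Slc.iT (s : Slc L N Cp v p φ) (g : Geo P L) (hn : 1 ≤ n) (B : Op m) :
    Integrable (fun θ => (P (v θ) - B) * (P (v θ) - B)) (sph n) := by
  have := sph_prob hn
  have m1 := (s.mP g).sub (stronglyMeasurable_const (b := B))
  refine (integrable_const ((L + ‖B‖) * (L + ‖B‖))).mono' (m1.mul m1).aestronglyMeasurable
    (ae_of_all _ fun θ => ?_)
  have h : ‖P (v θ) - B‖ ≤ L + ‖B‖ := (norm_sub_le _ _).trans (by linarith [g.bP (v θ)])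
  exact (norm_mul_le _ _).trans (mul_le_mul h h (norm_nonneg _) ((norm_nonneg _).trans h))

theorem Slc.sg_op (s : Slc L N Cp v p φ) (g : Geo P L) (hn : 1 ≤ n) :
    sg P v = 1 + ∫ θ, (P (v θ) - sP P v) * (P (v θ) - sP P v) ∂sph n := by
  have := sph_prob hn
  have i1 := s.iP g hn
  have i2 : Integrable (fun θ => P (v θ) * P (v θ)) (sph n) := by simpa using s.iT g hn 0
  have e : (fun θ => (P (v θ) - sP P v) * (P (v θ) - sP P v)) = fun θ =>
      P (v θ) * P (v θ) - P (v θ) * sP P v - (sP P v * P (v θ) - sP P v * sP P v) := by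
    funext θ
    rw [sub_mul, mul_sub, mul_sub]
  have i3 : Integrable (fun θ => P (v θ) * sP P v) (sph n) := i1.mul_const _
  have i4 : Integrable (fun θ => sP P v * P (v θ)) (sph n) := i1.const_mul _
  have i5 : Integrable (fun θ => P (v θ) * P (v θ) - P (v θ) * sP P v) (sph n) := i2.sub i3
  have i6 : Integrable (fun θ => sP P v * P (v θ) - sP P v * sP P v) (sph n) :=
    i4.sub (integrable_const _)
  have j1 : ∫ θ, P (v θ) * sP P v ∂sph n = sP P v * sP P v :=
    ((ContinuousLinearMap.compL ℝ (V m) (V m) (V m)).flip (sP P v)).integral_comp_comm i1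
  have j2 : ∫ θ, sP P v * P (v θ) ∂sph n = sP P v * sP P v :=
    (ContinuousLinearMap.compL ℝ (V m) (V m) (V m) (sP P v)).integral_comp_comm i1
  rw [e, integral_sub i5 i6, integral_sub i2 i3, integral_sub i4 (integrable_const _), j1, j2,
    integral_const, probReal_univ, one_smul, sg, sub_self, sub_zero, add_sub_assoc]

theorem Slc.sP_sym (s : Slc L N Cp v p φ) (g : Geo P L) (hn : 1 ≤ n) (a b : V m) :
    ⟪sP P v a, b⟫ = ⟪a, sP P v b⟫ := by
  have i1 := s.iP g hn
  rw [sP, ContinuousLinearMap.integral_apply i1, ContinuousLinearMap.integral_apply i1,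
    real_inner_comm, ← integral_inner (i1.apply_continuousLinearMap a),
    ← integral_inner (i1.apply_continuousLinearMap b)]
  exact integral_congr_ae (ae_of_all _ fun θ => by
    beta_reduce
    rw [real_inner_comm, g.sy])

theorem Slc.sg_eq (s : Slc L N Cp v p φ) (g : Geo P L) (hn : 1 ≤ n) (a b : V m) :
    ⟪sg P v a, b⟫ = ⟪a, b⟫ + ∫ θ, ⟪(P (v θ) - sP P v) a, (P (v θ) - sP P v) b⟫ ∂sph n := by
  have i1 := s.iT g hn (sP P v)
  rw [s.sg_op g hn, add_apply, inner_add_left, one_apply_eq_self,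
    ContinuousLinearMap.integral_apply i1, real_inner_comm b (∫ _, _ ∂_),
    ← integral_inner (i1.apply_continuousLinearMap a)]
  refine congrArg _ (integral_congr_ae (ae_of_all _ fun θ => ?_))
  beta_reduce
  rw [mul_apply_eq_comp, sub_apply (P (v θ)) (sP P v) b,
    inner_sub_right, ← g.sy, ← s.sP_sym g hn, ← inner_sub_left, real_inner_comm,
    ← sub_apply]

theorem Slc.sg_ge (s : Slc L N Cp v p φ) (g : Geo P L) (hn : 1 ≤ n) (a : V m) :
    ‖a‖ ^ 2 ≤ ⟪sg P v a, a⟫ := by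
  rw [s.sg_eq g hn, real_inner_self_eq_norm_sq]
  exact le_add_of_nonneg_right (integral_nonneg fun θ => real_inner_self_nonneg)

theorem Slc.sg_sym (s : Slc L N Cp v p φ) (g : Geo P L) (hn : 1 ≤ n) (a b : V m) :
    ⟪sg P v a, b⟫ = ⟪a, sg P v b⟫ := by
  rw [real_inner_comm (sg P v b) a, s.sg_eq g hn, s.sg_eq g hn, real_inner_comm a b]
  exact congrArg _ (integral_congr_ae (ae_of_all _ fun θ => real_inner_comm _ _))

theorem Slc.sg_le (s : Slc L N Cp v p φ) (g : Geo P L) (hn : 1 ≤ n) : ‖sg P v‖ ≤ 1 + 2 * L ^ 2 := by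
  have := sph_prob hn
  have _ := s.mv
  have L0 : 0 ≤ L := by linarith [g.L1]
  have h1 := norm_integral_le_of_norm_le (μ := sph n) (f := fun θ => P (v θ) * P (v θ))
    (integrable_const (L * L)) (ae_of_all _ fun θ => (norm_mul_le _ _).trans
      (mul_le_mul (g.bP _) (g.bP _) (norm_nonneg _) L0))
  rw [integral_const, probReal_univ, one_smul] at h1
  have h2 : ‖sP P v * sP P v‖ ≤ L * L := (norm_mul_le _ _).trans
    (mul_le_mul (Slc.sP_le g hn v) (Slc.sP_le g hn v) (norm_nonneg _) L0)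
  have h3 : ‖(1 : Op m)‖ ≤ 1 := ContinuousLinearMap.norm_id_le
  have h4 := norm_sub_le (1 + ∫ θ, P (v θ) * P (v θ) ∂sph n) (sP P v * sP P v)
  have h5 := norm_add_le (1 : Op m) (∫ θ, P (v θ) * P (v θ) ∂sph n)
  rw [sg]
  nlinarith

theorem Slc.sg_osc (s : Slc L N Cp v p φ) (g : Geo P L) (hn : 1 ≤ n) {y : V m} {d : ℝ}
    (h : ∀ᵐ θ ∂sph n, ‖v θ - y‖ ≤ d) : ‖sg P v - 1‖ ≤ 4 * L ^ 2 * d ^ 2 := by
  have := sph_prob hn
  have L0 : 0 ≤ L := by linarith [g.L1]
  have h1 : ∀ᵐ θ ∂sph n, ‖P (v θ) - P y‖ ≤ L * d := h.mono fun θ hθ =>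
    (g.lip _ _).trans (mul_le_mul_of_nonneg_left hθ L0)
  have h2 : ‖sP P v - P y‖ ≤ L * d := by
    have h3 := norm_integral_le_of_norm_le (integrable_const (L * d)) h1
    rwa [integral_const, probReal_univ, one_smul, integral_sub (s.iP g hn) (integrable_const _),
      integral_const, probReal_univ, one_smul] at h3
  have h4 := norm_integral_le_of_norm_le (μ := sph n)
    (f := fun θ => (P (v θ) - sP P v) * (P (v θ) - sP P v))
    (integrable_const (4 * L ^ 2 * d ^ 2)) (h1.mono fun θ hθ => by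
      have h5 : ‖P (v θ) - sP P v‖ ≤ 2 * (L * d) := by
        have := norm_sub_le (P (v θ) - P y) (sP P v - P y)
        rw [sub_sub_sub_cancel_right] at this
        linarith
      refine (norm_mul_le _ _).trans ((mul_le_mul h5 h5 (norm_nonneg _)
        ((norm_nonneg _).trans h5)).trans (le_of_eq (by ring))))
  rw [integral_const, probReal_univ, one_smul] at h4
  rwa [s.sg_op g hn, add_sub_cancel_left]

theorem Geo.dP_rad (g : Geo P L) (q : V m) (r : W n m) (θ : S n) :
    ‖fderiv ℝ P q (rad r θ)‖ ≤ L * ‖r‖ ^ 1 := by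
  have h := norm_rad_le r θ
  rw [norm_eq_of_mem_sphere θ, mul_one] at h
  rw [pow_one]
  exact ((fderiv ℝ P q).le_opNorm _).trans
    (mul_le_mul (g.dP q) h (norm_nonneg _) (by linarith [g.L1]))

theorem Slc.sgd_le (s : Slc L N Cp v p φ) (g : Geo P L) (hn : 1 ≤ n) :
    ‖sgd P v p‖ ≤ 4 * L ^ 2 * sM p 1 := by
  have L0 : 0 ≤ L := by linarith [g.L1]
  have i1 := s.ik hn hn
  have h1 : ‖sPd P v p‖ ≤ L * sM p 1 := by
    rw [sM, ← integral_const_mul]
    exact norm_integral_le_of_norm_le (i1.const_mul L) (ae_of_all _ fun θ => g.dP_rad _ _ θ)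
  have h2 : ‖∫ θ, (fderiv ℝ P (v θ) (rad (p θ) θ) * P (v θ) +
      P (v θ) * fderiv ℝ P (v θ) (rad (p θ) θ)) ∂sph n‖ ≤ 2 * L ^ 2 * sM p 1 := by
    rw [sM, ← integral_const_mul]
    refine norm_integral_le_of_norm_le (i1.const_mul _) (ae_of_all _ fun θ => ?_)
    have a1 := g.dP_rad (v θ) (p θ) θ
    have a0 := (norm_nonneg _).trans a1
    have a2 := (norm_mul_le _ _).trans (mul_le_mul a1 (g.bP (v θ)) (norm_nonneg _) a0)
    have a3 := (norm_mul_le _ _).trans (mul_le_mul (g.bP (v θ)) a1 (norm_nonneg _) L0)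
    refine (norm_add_le _ _).trans ?_
    nlinarith
  have a0 := (norm_nonneg _).trans h1
  have h3 := (norm_mul_le _ _).trans (mul_le_mul h1 (Slc.sP_le g hn v) (norm_nonneg _) a0)
  have h4 := (norm_mul_le _ _).trans (mul_le_mul (Slc.sP_le g hn v) h1 (norm_nonneg _) L0)
  rw [sgd]
  refine (norm_sub_le _ _).trans ?_
  have h5 := norm_add_le (sPd P v p * sP P v) (sP P v * sPd P v p)
  nlinarith

theorem Slc.sN_le (s : Slc L N Cp v p φ) (g : Geo P L) (hn : 2 ≤ n) :
    |sN P v p φ| ≤ 5 * L ^ 3 * sM p n * ‖sF p‖ := by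
  have hn1 : 1 ≤ n := by omega
  have L1 := g.L1
  have L0 : 0 ≤ L := by linarith
  have F0 := norm_nonneg (sF p)
  have e0 : 0 ≤ sM p n := integral_nonneg fun _ => by positivity
  have m0 : 0 ≤ sM p 1 := integral_nonneg fun _ => by positivity
  have a1 : |⟪sg P v (sF p), sD φ⟫| ≤ 3 * L ^ 2 * ‖sF p‖ * (L * sM p n) := by
    refine (abs_real_inner_le_norm _ _).trans (mul_le_mul (((sg P v).le_opNorm _).trans
      (mul_le_mul_of_nonneg_right ((s.sg_le g hn1).trans (by nlinarith)) F0)) (s.sD_le hn)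
      (norm_nonneg _) (by positivity))
  have a2 : |⟪sgd P v p (sF p), sF p⟫| ≤ 4 * L ^ 2 * sM p 1 * sM p (n - 1) * ‖sF p‖ :=
    (abs_real_inner_le_norm _ _).trans (mul_le_mul_of_nonneg_right (((sgd P v p).le_opNorm _).trans
      (mul_le_mul (s.sgd_le g hn1) (s.sF_le hn) F0 (by positivity))) F0)
  have a3 : 4 * L ^ 2 * sM p 1 * sM p (n - 1) * ‖sF p‖ ≤ 4 * L ^ 3 * sM p n * ‖sF p‖ := by
    refine mul_le_mul_of_nonneg_right ?_ F0
    rw [mul_assoc (4 * L ^ 2)]
    exact mul_le_mul (by nlinarith) (s.cheb1 hn1)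
      (mul_nonneg m0 (integral_nonneg fun _ => by positivity)) (by positivity)
  rw [sN]
  refine (abs_add_le _ _).trans ?_
  rw [abs_div, abs_two]
  nlinarith

end Pool.Agent.Lib.MP_a785f2_an.LZ
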