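import Pool.Agent.Lib.MP_a785f2_an.LZ.Sph0g
import Pool.Agent.Lib.MP_a785f2_an.LY.Sph

/-! The sphere lemma for maps into a manifold. -/

open MeasureTheory Metric Set Filter Topology
open scoped ContDiff RealInnerProductSpace ENNReal

namespace Pool.Agent.Lib.MP_a785f2_an.LZ

open HS (V)

variable {n m : ℕ} {Ω : Set (E n)} {P : V m → Op m} {L : ℝ} {N : Rl n m} {u : E n → V m}
  {G : E n → W n m} {f : E n → V m}

namespace SM

/-- The column in the direction `θ`. -/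
noncomputable def raL (θ : E n) : W n m →L[ℝ] V m :=
  ∑ α, θ α • PiLp.proj 2 (fun _ : Fin n => V m) α

/-- The rank one family with direction `θ`. -/
noncomputable def ioL (θ : E n) : V m →L[ℝ] W n m :=
  (PiLp.continuousLinearEquiv 2 ℝ fun _ : Fin n => V m).symm.toContinuousLinearMap.comp
    (ContinuousLinearMap.pi fun α => θ α • ContinuousLinearMap.id ℝ (V m))

/-- The bilinear form built from the derivative of the field. -/
noncomputable def beL (B : V m →L[ℝ] V m →L[ℝ] V m) : W n m →L[ℝ] W n m →L[ℝ] V m :=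
  ∑ α, B.bilinearComp (PiLp.proj 2 (fun _ : Fin n => V m) α) (PiLp.proj 2 (fun _ : Fin n => V m) α)

theorem raL_apply (θ : E n) (q : W n m) : raL θ q = rad q θ := by
  simp [raL, rad]

theorem ioL_apply (θ : E n) (a : V m) : ioL θ a = ten a θ := rfl

theorem beL_apply (B : V m →L[ℝ] V m →L[ℝ] V m) (q q' : W n m) :
    beL B q q' = ∑ α, B (q α) (q' α) := by
  simp [beL]

theorem beL_io (B : V m →L[ℝ] V m →L[ℝ] V m) (θ : E n) (q : W n m) (a : V m) :
    beL B q (ioL θ a) = B (raL θ q) a := by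
  have e : ∀ α, ioL θ a α = θ α • a := fun _ => rfl
  simp only [beL_apply, raL_apply, rad, e, map_sum, map_smul, sum_apply, smul_apply]

theorem beL_le (B : V m →L[ℝ] V m →L[ℝ] V m) (q q' : W n m) :
    ‖beL B q q'‖ ≤ ‖B‖ * ‖q‖ * ‖q'‖ := by
  rw [beL_apply]
  have h1 : ∑ α, ‖q α‖ * ‖q' α‖ ≤ ‖q‖ * ‖q'‖ := by
    have h := Finset.sum_mul_sq_le_sq_mul_sq Finset.univ (fun α => ‖q α‖) fun α => ‖q' α‖
    rw [← PiLp.norm_sq_eq_of_L2, ← PiLp.norm_sq_eq_of_L2, ← mul_pow] at h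
    exact (abs_le_of_sq_le_sq' h (by positivity)).2
  calc _ ≤ ∑ α, ‖B‖ * (‖q α‖ * ‖q' α‖) := (norm_sum_le _ _).trans
        (Finset.sum_le_sum fun α _ => (B.le_opNorm₂ _ _).trans_eq (mul_assoc _ _ _))
    _ ≤ _ := by
      rw [← Finset.mul_sum, mul_assoc]
      exact mul_le_mul_of_nonneg_left h1 (norm_nonneg B)

theorem beL_al (q : V m) (p : W n m) :
    beL (fderiv ℝ P q) p (LY.Ap (n - 2) p) = al P q p := by
  rw [LY.Ap, map_smul, beL_apply, al]

theorem dsym (g : Geo P L) (q c a b : V m) : ⟪fderiv ℝ P q c a, b⟫ = ⟪a, fderiv ℝ P q c b⟫ := by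
  have hP : HasFDerivAt P (fderiv ℝ P q) q :=
    (g.cP.differentiable one_ne_zero q).hasFDerivAt
  let φ1 : Op m →L[ℝ] ℝ := (innerSL ℝ b).comp (ContinuousLinearMap.apply ℝ (V m) a)
  let φ2 : Op m →L[ℝ] ℝ := (innerSL ℝ a).comp (ContinuousLinearMap.apply ℝ (V m) b)
  have h1 := φ1.hasFDerivAt.comp q hP
  have h2 := φ2.hasFDerivAt.comp q hP
  have e : (φ1 ∘ P) = φ2 ∘ P := funext fun y => by
    change ⟪b, P y a⟫ = ⟪a, P y b⟫
    rw [real_inner_comm, g.sy]
  rw [e] at h1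
  have h3 := congrArg (fun T : V m →L[ℝ] ℝ => T c) (h1.unique h2)
  rw [real_inner_comm]
  exact h3

/-- The data on a sphere in the abstract form. -/
noncomputable def mk (P : V m → Op m) (v : S n → V m) (p : S n → W n m) (φ : S n → V m) :
    LY.Sph (S n) (V m) (W n m) where
  σ := sph n
  k := n - 2
  u := v
  p := p
  io θ := ioL θ
  ra θ := raL θ
  be θ := beL (fderiv ℝ P (v θ))
  B θ := fderiv ℝ P (v θ)
  Pu θ := P (v θ)
  h2 θ := φ θ - al P (v θ) (p θ)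

variable {Cp : ℝ} {v : S n → V m} {p : S n → W n m} {φ : S n → V m}

theorem mk_al1 (θ : S n) : (mk P v p φ).al1 θ = al P (v θ) (p θ) := beL_al _ _

theorem mk_al (θ : S n) : (mk P v p φ).al θ = φ θ := by
  rw [LY.Sph.al, mk_al1]
  exact add_sub_cancel _ _

theorem mk_e (hn : 2 ≤ n) : (mk P v p φ).e = sM p n := by
  change ∫ θ, ‖p θ‖ ^ (n - 2 + 2) ∂sph n = _
  rw [Nat.sub_add_cancel hn, sM]

theorem mk_a : (mk P v p φ).a = sa p := by
  change ∫ θ : S n, raL (θ : E n) (p θ) ∂sph n = _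
  simp only [raL_apply, sa]

theorem mk_F : (mk P v p φ).F = sF p := by
  change ∫ θ : S n, raL (θ : E n) (AA (p θ)) ∂sph n = _
  simp only [raL_apply, sF]

theorem mk_Fp : (mk P v p φ).Fp = sD φ := by
  simp only [LY.Sph.Fp, mk_al]
  rfl

theorem mk_g : (mk P v p φ).g = sg P v := rfl

theorem mk_gp : (mk P v p φ).gp = sgd P v p := by
  simp only [sgd, sPd, ← raL_apply]
  rfl

theorem mk_hh : (mk P v p φ).hh = sR v φ (sy v) := by
  simp only [LY.Sph.hh, mk_al]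
  rfl

theorem mk_ok (hn : 3 ≤ n) (g : Geo P L) {M : Set (V m)}
    (h3 : ∀ q ∈ M, ∀ q' ∈ M, ∀ ν, P q ν = 0 → |⟪ν, q' - q⟫| ≤ L * ‖ν‖ * ‖q' - q‖ ^ 2)
    (s : Slc L (RlM P L M) Cp v p φ) : (mk P v p φ).Ok (L ^ 2) := by
  have L1 := g.L1
  have L0 : 0 ≤ L := zero_le_one.trans L1
  have LL : L ≤ L ^ 2 := by nlinarith
  have e2 : n - 2 + 2 = n := Nat.sub_add_cancel (by omega)
  have n1 : ∀ θ : S n, ‖(θ : E n)‖ = 1 := fun θ => norm_eq_of_mem_sphere θ
  have mθ : StronglyMeasurable fun θ : S n => (θ : E n) := continuous_subtype_val.stronglyMeasurable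
  have mr : StronglyMeasurable fun θ : S n => rad (p θ) θ := by
    have := continuous_rad.comp_stronglyMeasurable (s.mp.prodMk mθ)
    exact this
  have ma : StronglyMeasurable fun θ : S n => al P (v θ) (p θ) := by
    have := g.continuous_al.comp_stronglyMeasurable (s.mv.prodMk s.mp)
    exact this
  have cD : Continuous fun q : V m × V m => fderiv ℝ P q.1 q.2 :=
    ((g.cP.continuous_fderiv one_ne_zero).comp continuous_fst).clm_apply continuous_snd
  have a1 : ∀ c : V m, AEStronglyMeasurable (fun θ : S n => ioL (θ : E n) c) (sph n) :=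
      fun c => by
    simp only [ioL_apply]
    have := continuous_ten.comp_stronglyMeasurable ((stronglyMeasurable_const (b := c)).prodMk mθ)
    exact this.aestronglyMeasurable
  have a2 : AEStronglyMeasurable (fun θ : S n => raL (θ : E n) (p θ)) (sph n) := by
    simp only [raL_apply]
    exact mr.aestronglyMeasurable
  have a3 : AEStronglyMeasurable (mk P v p φ).al1 (sph n) := by
    rw [show (mk P v p φ).al1 = fun θ => al P (v θ) (p θ) from funext mk_al1]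
    exact ma.aestronglyMeasurable
  have a4 : AEStronglyMeasurable (fun θ => φ θ - al P (v θ) (p θ)) (sph n) :=
    (s.mf.sub ma).aestronglyMeasurable
  have a5 : AEStronglyMeasurable (fun θ : S n => fderiv ℝ P (v θ) (raL (θ : E n) (p θ)))
      (sph n) := by
    simp only [raL_apply]
    have := cD.comp_stronglyMeasurable (s.mv.prodMk mr)
    exact this.aestronglyMeasurable
  have a6 : AEStronglyMeasurable (fun θ => P (v θ)) (sph n) :=
    (g.cP.continuous.comp_stronglyMeasurable s.mv).aestronglyMeasurable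
  have a7 : Integrable (fun θ => ‖p θ‖ ^ (n - 2 + 2)) (sph n) := by
    rw [e2]; exact s.ip
  have a8 : ∀ (θ : S n) (q : W n m) (c : V m), ⟪raL (θ : E n) q, c⟫ = ⟪q, ioL (θ : E n) c⟫ :=
    fun θ q c => by rw [raL_apply, ioL_apply, inner_ten]
  have a9 : ∀ (θ : S n) (c : V m), ‖ioL (θ : E n) c‖ = ‖c‖ := fun θ c => by
    rw [ioL_apply, norm_ten, n1, mul_one]
  have b1 : ∀ (θ : S n) (q q' : W n m),
      ‖beL (fderiv ℝ P (v θ)) q q'‖ ≤ L ^ 2 * ‖q‖ * ‖q'‖ := fun θ q q' =>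
    (beL_le _ _ _).trans (mul_le_mul_of_nonneg_right (mul_le_mul_of_nonneg_right
      ((g.dP (v θ)).trans LL) (norm_nonneg _)) (norm_nonneg _))
  have b2 : ∀ (θ : S n) (c : V m), ‖fderiv ℝ P (v θ) c‖ ≤ L ^ 2 * ‖c‖ := fun θ c =>
    ((fderiv ℝ P (v θ)).le_opNorm c).trans
      (mul_le_mul_of_nonneg_right ((g.dP _).trans LL) (norm_nonneg _))
  have b3 : ∀ θ θ' : S n, ‖P (v θ) - P (v θ')‖ ≤ L ^ 2 * ‖v θ - v θ'‖ := fun θ θ' =>
    (g.lip _ _).trans (mul_le_mul_of_nonneg_right LL (norm_nonneg _))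
  have b4 : ∀ θ : S n, P (v θ) (raL (θ : E n) (p θ)) = raL (θ : E n) (p θ) := fun θ => by
    simp only [raL_apply, rad, map_sum, map_smul, (s.rl θ).2.1]
  have b5 : ∀ θ : S n, P (v θ) ((mk P v p φ).al1 θ) = 0 := fun θ => by
    rw [mk_al1]; exact (s.rl θ).2.2.1
  have b6 : ∀ (θ : S n) (c : V m), ‖φ θ - al P (v θ) (p θ)‖ ≤ L ^ 2 *
      (‖c‖ ^ (n - 2) * ‖p θ - ioL (θ : E n) c‖ ^ 2 + ‖p θ - ioL (θ : E n) c‖ ^ (n - 2 + 2)) :=
    fun θ c => by
      rw [e2, ioL_apply]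
      exact ((s.rl θ).2.2.2 c θ (n1 θ)).trans (mul_le_mul_of_nonneg_right LL (by positivity))
  have b7 : ∀ θ θ' : S n, |⟪(mk P v p φ).al1 θ, v θ - v θ'⟫| ≤
      L ^ 2 * ‖p θ‖ ^ (n - 2 + 2) * ‖v θ - v θ'‖ ^ 2 := fun θ θ' => by
    have h4 := h3 _ (s.rl θ).1 _ (s.rl θ').1 _ (s.rl θ).2.2.1
    have h5 := g.al_le (n := n) (by omega) (v θ) (p θ)
    rw [mk_al1, e2, ← neg_sub, inner_neg_right, abs_neg, norm_neg]
    calc _ ≤ _ := h4
      _ ≤ L * (L * ‖p θ‖ ^ n) * ‖v θ' - v θ‖ ^ 2 := by gcongr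
      _ = _ := by ring
  have b8 : ∀ (θ : S n) (q : W n m) (c : V m), beL (fderiv ℝ P (v θ)) q (ioL (θ : E n) c) =
      fderiv ℝ P (v θ) (raL (θ : E n) q) c := fun θ q c => beL_io _ _ _ _
  exact
    { prob := sph_prob (by omega)
      L1 := L1.trans LL
      mu := s.mv.aestronglyMeasurable
      mp := s.mp.aestronglyMeasurable
      mio := a1
      mr := a2
      mal := a3
      mh := a4
      mB := a5
      mP := a6
      lp := a7
      bu := ae_of_all _ fun θ => (s.bv θ).trans LL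
      adj := a8
      iso := a9
      bbe := b1
      beio := b8
      bB := b2
      sB := fun θ c a b => dsym g (v θ) c a b
      bP := fun θ => (g.bP (v θ)).trans LL
      sP := fun θ a b => g.sy (v θ) a b
      lP := b3
      good := ⟨univ, ae_of_all _ fun _ => mem_univ _, fun θ _ => ⟨b4 θ, b5 θ, b6 θ⟩,
        fun θ _ θ' _ => b7 θ θ'⟩ }

end SM

theorem sphOK_M (hn : 3 ≤ n) (g : Geo P L) {M : Set (V m)}
    (h3 : ∀ q ∈ M, ∀ q' ∈ M, ∀ ν, P q ν = 0 → |⟪ν, q' - q⟫| ≤ L * ‖ν‖ * ‖q' - q‖ ^ 2) :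
    SphOK P L (RlM P L M : Rl n m) := by
  intro Cp hCp
  obtain ⟨C, δ, C1, δ0, H⟩ := LY.sphere_lemma (n - 2) (L := L ^ 2) (Cp := Cp + 1)
    (one_le_pow₀ g.L1) (by linarith)
  refine ⟨C, by linarith, min δ 1, lt_min δ0 one_pos, fun v p φ s he hz => ?_⟩
  have h1 : (SM.mk P v p φ).e ≤ δ := by
    rw [SM.mk_e (by omega)]
    exact he.trans ((pow_le_of_le_one (lt_min δ0 one_pos).le (min_le_right _ _) (by omega)).trans
      (min_le_left _ _))
  have h2 := H (SM.mk P v p φ) rfl (SM.mk_ok hn g h3 s) 0 le_rfl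
    (hz.mono fun θ h => h.trans (min_le_left _ _)) h1 (by
      rw [SM.mk_a, add_zero]
      refine (s.po (sa p)).trans ?_
      exact mul_le_mul_of_nonneg_right (by linarith) (integral_nonneg fun _ => sq_nonneg _))
  have e1 : (SM.mk P v p φ).XX = sX p := by
    rw [LY.Sph.XX, SM.mk_e (by omega), SM.mk_F, SM.mk_a, sX]
  have e2 : (SM.mk P v p φ).NN = sN P v p φ := by
    rw [LY.Sph.NN, SM.mk_g, SM.mk_gp, SM.mk_F, SM.mk_Fp, sN]
  rw [mul_zero, add_zero, e1, e2, SM.mk_hh, SM.mk_F] at h2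
  exact ⟨h2.1, h2.2.1.trans (by linarith [h2.1]), h2.2.2⟩

end Pool.Agent.Lib.MP_a785f2_an.LZ
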