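import Pool.Agent.Lib.MP_a785f2_an.LZ.Trunk

/-! One generation. -/

open MeasureTheory Metric Set Filter Topology
open scoped ContDiff RealInnerProductSpace ENNReal

namespace Pool.Agent.Lib.MP_a785f2_an.LZ

open HS (V)

variable {n m : ℕ} {Ω : Set (E n)} {P : V m → Op m} {L : ℝ} {N : Rl n m} {u : E n → V m}
  {G : E n → W n m} {f : E n → V m}

theorem Dat.step (D : Dat Ω P L N u G f) : ∃ κ : ℝ, 0 < κ ∧ ∃ C : ℝ, 0 < C ∧
    ∃ l0 : ℝ, 0 < l0 ∧ ∀ K c0 C0 A z r l l' c s1 T J, MeasurableSet A → 0 ≤ C0 → 0 ≤ K →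
      (c0 = 0 ∨ c0 = 1 / 2 ∧ Flx Ω G (5 * l)) → Good Ω G z r l → l ≤ l0 → 0 ≤ l' →
      C * l ≤ K * (l - l') → Hol Ω G z r l l' c s1 T J →
      (∀ b ∈ T, Low u G f κ K c0 C0 A b.1 b.2 l') → Low u G f κ K c0 C0 A z r l := by
  obtain ⟨κ0, h0, HT⟩ := D.trunk
  obtain ⟨Cv, hv, HV⟩ := D.vals
  have hL := D.geo.L1
  obtain ⟨κ, hκ0, hκL⟩ : ∃ κ : ℝ, κ0 ≤ κ ∧ 4 * L ≤ κ :=
    ⟨max κ0 (4 * L), le_max_left _ _, le_max_right _ _⟩
  have hκ : 0 < κ := h0.trans_le hκ0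
  obtain ⟨Ct, ht, l0, hl0, H⟩ := HT κ hκ0
  refine ⟨κ, hκ, Ct + κ * Cv, by positivity, l0, hl0,
    fun K c0 C0 A z r l l' c s1 T J mA hC0 hK hc g hl hl' hC h hT Z hZ => ?_⟩
  obtain ⟨v1, v2, v3⟩ := HV z r l l' c s1 T J g h
  have near : ∀ y, ‖y - av u z r‖ ≤ Cv * l → ‖Z + κ • y‖ + Ct * l ≤ 2 - K * l' := fun y hy => by
    have e : Z + κ • y = (Z + κ • av u z r) + κ • (y - av u z r) := by
      rw [smul_sub]; abel
    have h1 := norm_add_le (Z + κ • av u z r) (κ • (y - av u z r))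
    rw [← e, norm_smul, Real.norm_of_nonneg hκ.le] at h1
    have h2 := mul_le_mul_of_nonneg_left hy hκ.le
    linarith
  have hp : 0 ≤ Ct * l := (mul_pos ht g.l0).le
  have hq : 0 ≤ K * l' := mul_nonneg hK hl'
  have s0 : 0 < s1 := lt_of_lt_of_le (by linarith [g.r0]) h.lo
  have sub : ball c s1 ⊆ ball z r := ball_subset_ball' (by linarith [h.hi])
  have mU : MeasurableSet (ball z r \ ball c s1) := measurableSet_ball.diff measurableSet_ball
  have c2 : c0 ≤ 1 / 2 := by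
    rcases hc with rfl | ⟨rfl, -⟩ <;> norm_num
  have a1 := H K c0 C0 A z r l l' c s1 T J mA hC0 hK hc g hl hl' h hT Z (near _ v1)
  have a2 := D.frozen (A := A) (T := {b ∈ T | ∀ x ∈ ball b.1 b.2, s1 < dist x c}) hκ.le c2 hC0 mA
    mU (h.cT.mono (sep_subset _ _)) (h.dT.subset (sep_subset _ _))
    (fun b hb x hx => ⟨h.sT b hb.1 (ball_subset_closedBall hx),
      fun hx' => lt_asymm (hb.2 x hx) hx'⟩) Z
    (fun b hb => hT b hb.1 Z (by
      have := near _ ((v3 b hb.1).2 (hb.2 _ (mem_ball_self (h.gT b hb.1).r0)).le)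
      linarith))
    (by
      filter_upwards [v2] with x hx hU hb
      have hs : s1 ≤ dist x c := not_lt.1 hU.2
      have := near _ ((hx hU.1 fun b hb' hx' => ?_).2 hs)
      · nlinarith [norm_nonneg (Z + κ • u x)]
      rcases h.sh b hb' with h1 | ⟨j, hj, h1⟩
      · exact hb b ⟨hb', h1⟩ hx'
      · linarith [(h1 x hx').2, (h.pJ j hj).2.2.2])
  obtain ⟨e1, e2, e3⟩ := D.split κ Z (A := A) (U := ball z r) measurableSet_ball mU mA
    disjoint_sdiff_right (by rw [union_sdiff_cancel sub])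
  rw [e1, e2, e3]
  linarith

end Pool.Agent.Lib.MP_a785f2_an.LZ
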