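import Pool.Agent.Lib.MP_a785f2_an.LZ.Polar
import Pool.Agent.Lib.MP_a785f2_an.LZ.PrC
import Pool.Agent.Lib.MP_a785f2_an.LZ.Sph0g
import Pool.Agent.Lib.MP_a785f2_an.LZ.Poin

/-! Bounds for the radial functions. -/

open MeasureTheory Metric Set Filter Topology
open scoped ContDiff RealInnerProductSpace ENNReal

namespace Pool.Agent.Lib.MP_a785f2_an.LZ

open HS (V)

variable {n m : ℕ} {Ω : Set (E n)} {P : V m → Op m} {L : ℝ} {N : Rl n m} {u : E n → V m}
  {G : E n → W n m} {f : E n → V m}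

variable {Cp : ℝ} {c : E n} {R : ℝ} {y : ℝ → V m} {g : ℝ → Op m}

theorem Dat.m1 (D : Dat Ω P L N u G f) : ∃ C : ℝ, 0 < C ∧ ∀ (c : E n) (R l : ℝ) (B : Set ℝ),
    0 < l → en G (ball c R) ≤ l ^ n → MeasurableSet B → B ⊆ Ioo 0 R →
    ∫⁻ s in B, ENNReal.ofReal s⁻¹ ≤ 1 →
    IntegrableOn (fun s => s⁻¹ * sM (pp G c s) 1) B volume ∧
      ∫ s in B, s⁻¹ * sM (pp G c s) 1 ≤ C * l := by
  have hn : 1 ≤ n := by have := D.n3; omega
  have o0 := om_pos hn
  refine ⟨1 + (om n)⁻¹, by positivity, fun c R l B l0 hE mB hB h1 => ?_⟩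
  obtain ⟨i1, i2, i3⟩ := D.pol_en c
  have hB0 : B ⊆ Ioi 0 := fun s hs => (hB hs).1
  have p0 : ∀ᵐ s ∂(volume.restrict B), 0 ≤ s⁻¹ :=
    (ae_restrict_iff' mB).2 (ae_of_all _ fun s hs => (inv_pos.2 (hB0 hs)).le)
  have j1 : IntegrableOn (fun s : ℝ => s⁻¹) B volume :=
    (lintegral_ofReal_ne_top_iff_integrable measurable_inv.aestronglyMeasurable p0).1
      (h1.trans_lt ENNReal.one_lt_top).ne
  have j2 : ∫ s in B, s⁻¹ ≤ 1 := by
    rw [integral_eq_lintegral_of_nonneg_ae p0 measurable_inv.aestronglyMeasurable]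
    exact ENNReal.toReal_le_of_le_ofReal zero_le_one (by simpa using h1)
  have j3 : IntegrableOn (fun s => s⁻¹ * sM (pp G c s) n) B volume := i1.mono_set hB0
  have j4 : om n * ∫ s in B, s⁻¹ * sM (pp G c s) n ≤ l ^ n := by
    rw [← i3 B mB hB0]
    exact (D.en_mono fun x hx => mem_ball.2 (hB hx).2).trans hE
  have j5 : IntegrableOn (fun s => l * s⁻¹ + s⁻¹ * sM (pp G c s) n / l ^ (n - 1)) B volume :=
    (j1.const_mul l).add (j3.div_const _)
  have j6 : ∀ᵐ s ∂(volume.restrict B), 0 ≤ s⁻¹ * sM (pp G c s) 1 ∧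
      s⁻¹ * sM (pp G c s) 1 ≤ l * s⁻¹ + s⁻¹ * sM (pp G c s) n / l ^ (n - 1) := by
    refine (ae_restrict_iff' mB).2 ?_
    filter_upwards [i2] with s h hs
    have s0 : 0 ≤ s⁻¹ := (inv_pos.2 (hB hs).1).le
    refine ⟨mul_nonneg s0 (sM_nonneg _ _), ?_⟩
    refine (mul_le_mul_of_nonneg_left (sM_young hn (pp_meas D.mG c s) (h (hB0 hs)) l0) s0).trans
      (le_of_eq ?_)
    ring
  have j7 : IntegrableOn (fun s => s⁻¹ * sM (pp G c s) 1) B volume :=
    j5.mono' (measurable_inv.mul (sM_meas hn D.mG c 1)).aestronglyMeasurable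
      (j6.mono fun s hs => by rw [Real.norm_of_nonneg hs.1]; exact hs.2)
  refine ⟨j7, (integral_mono_ae j7 j5 (j6.mono fun s hs => hs.2)).trans ?_⟩
  rw [integral_add (j1.const_mul l) (j3.div_const _), integral_const_mul, integral_div]
  have e : l ^ n = l * l ^ (n - 1) := by rw [← pow_succ']; congr 1; omega
  have j8 : (∫ s in B, s⁻¹ * sM (pp G c s) n) / l ^ (n - 1) ≤ (om n)⁻¹ * l := by
    rw [div_le_iff₀ (pow_pos l0 _), mul_assoc, ← e, le_inv_mul_iff₀ o0]
    exact j4
  nlinarith [mul_le_mul_of_nonneg_left j2 l0.le]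

theorem Trk.var (t : Trk P L N u G f Cp c R y g) (D : Dat Ω P L N u G f) {a b : ℝ}
    (ha : 0 < a) (hab : a ≤ b) (hb : b ≤ R)
    (hi : IntegrableOn (fun s => s⁻¹ * sM (pp G c s) 1) (Ioo a b) volume) :
    ‖y b - y a‖ ≤ ∫ s in Ioo a b, s⁻¹ * sM (pp G c s) 1 ∧
      ‖g b - g a‖ ≤ 4 * L ^ 2 * ∫ s in Ioo a b, s⁻¹ * sM (pp G c s) 1 := by
  have hn : 1 ≤ n := by have := D.n3; omega
  constructor
  · refine t.py.norm_le ha hab hb hi ?_
    filter_upwards [t.slc] with s h hs
    have s0 := (inv_pos.2 (ha.trans hs.1)).le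
    rw [norm_smul, Real.norm_of_nonneg s0]
    exact mul_le_mul_of_nonneg_left ((h ⟨ha.trans hs.1, hs.2.trans_le hb⟩).sa_le hn) s0
  · rw [← integral_const_mul]
    refine t.pg.norm_le ha hab hb (hi.const_mul _) ?_
    filter_upwards [t.slc] with s h hs
    have s0 := (inv_pos.2 (ha.trans hs.1)).le
    rw [norm_smul, Real.norm_of_nonneg s0]
    refine (mul_le_mul_of_nonneg_left
      ((h ⟨ha.trans hs.1, hs.2.trans_le hb⟩).sgd_le D.geo hn) s0).trans (le_of_eq ?_)
    ring

theorem Dat.y_av (D : Dat Ω P L N u G f) : ∃ C : ℝ, 0 < C ∧ ∀ Cp c R y g l,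
    Trk P L N u G f Cp c R y g → closedBall c R ⊆ Ω → 0 < l → en G (ball c R) ≤ l ^ n →
    ∀ s ∈ Ioc 0 R, ‖y s - av u c s‖ ≤ C * l := by
  have hn : 1 ≤ n := by have := D.n3; omega
  have := sph_prob hn
  have : Nonempty (Fin n) := ⟨⟨0, hn⟩⟩
  obtain ⟨C1, C10, h1⟩ := D.m1
  obtain ⟨C2, C20, h2⟩ := D.poin
  refine ⟨C1 + 2 * C2, by positivity, fun Cp c R y g l t hK l0 hE s hs => ?_⟩
  have s0 := hs.1
  have k1 : ∀ r ∈ Ioo (s / 2) s, ‖y s - y r‖ ≤ C1 * l := fun r hr => by
    have r0 : 0 < r := (half_pos s0).trans hr.1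
    obtain ⟨a1, a2⟩ := h1 c R l (Ioo r s) l0 hE measurableSet_Ioo
      (fun x hx => ⟨r0.trans hx.1, hx.2.trans_le hs.2⟩) (by
        calc ∫⁻ x in Ioo r s, ENNReal.ofReal x⁻¹ ≤ ∫⁻ _ in Ioo r s, ENNReal.ofReal r⁻¹ :=
              setLIntegral_mono' measurableSet_Ioo fun x hx =>
                ENNReal.ofReal_le_ofReal (inv_anti₀ r0 hx.1.le)
          _ = ENNReal.ofReal (r⁻¹ * (s - r)) := by
              rw [setLIntegral_const, Real.volume_Ioo, ENNReal.ofReal_mul (inv_pos.2 r0).le]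
          _ ≤ 1 := by
              rw [ENNReal.ofReal_le_one, inv_mul_le_iff₀ r0]; linarith [hr.1])
    exact (t.var D r0 hr.2.le hs.2 a1).1.trans a2
  set A : Set (E n) := {x | dist x c ∈ Ioo (s / 2) s} with hA
  have hAs : A ⊆ ball c s := fun x hx => hx.2
  have mA : MeasurableSet A := measurableSet_Ioo.preimage (by fun_prop)
  have fB : volume (ball c s) ≠ ⊤ := measure_ball_lt_top.ne
  have fA : volume A ≠ ⊤ := ne_top_of_le_ne_top fB (measure_mono hAs)
  set z := av u c s with hz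
  set β := ‖y s - z‖ - C1 * l with hβ
  have iB : IntegrableOn (fun x => ‖u x - z‖) (ball c s) volume :=
    ((D.iu fB).sub (integrableOn_const fB)).norm
  have iA : IntegrableOn (fun x => ‖u x - z‖ - β) A volume :=
    (iB.mono_set hAs).sub (integrableOn_const fA)
  obtain ⟨-, -, b3⟩ := pol_int hn c measurableSet_Ioo
    (fun x (hx : x ∈ Ioo (s / 2) s) => (half_pos s0).trans hx.1) iA
  have k2 : 0 ≤ ∫ x in A, (‖u x - z‖ - β) := by
    rw [b3]
    refine smul_nonneg (om_pos hn).le (integral_nonneg_of_ae ((ae_restrict_iff'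
      measurableSet_Ioo).2 ?_))
    filter_upwards [t.ye] with r e1 hr
    have r0 : 0 < r := (half_pos s0).trans hr.1
    refine smul_nonneg (pow_nonneg r0.le _) ?_
    have iu : Integrable (sl u c r) (sph n) :=
      (integrable_const L).mono' (sl_meas D.mu c r).aestronglyMeasurable
        (ae_of_all _ fun θ => D.bu _)
    have iz : Integrable (fun θ => sl u c r θ - z) (sph n) := iu.sub (integrable_const z)
    have e2 : ∫ θ, sl (fun x => ‖u x - z‖ - β) c r θ ∂sph n =
        ∫ θ, ‖sl u c r θ - z‖ ∂sph n - β := by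
      have := integral_sub iz.norm (integrable_const β)
      rw [integral_const, probReal_univ, one_smul] at this
      exact this
    have e3 : ‖y r - z‖ ≤ ∫ θ, ‖sl u c r θ - z‖ ∂sph n := by
      refine le_trans (le_of_eq ?_) (norm_integral_le_integral_norm _)
      rw [integral_sub iu (integrable_const z), integral_const, probReal_univ, one_smul,
        e1 ⟨r0, hr.2.trans_le hs.2⟩, sy]
    have e4 := norm_sub_le_norm_sub_add_norm_sub (y s) (y r) z
    have e5 := k1 r hr
    rw [e2, hβ]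
    linarith
  rw [integral_sub (iB.mono_set hAs) (integrableOn_const fA), setIntegral_const,
    smul_eq_mul] at k2
  have k3 : ∫ x in A, ‖u x - z‖ ≤ C2 * l * (volume : Measure (E n)).real (ball c s) :=
    (setIntegral_mono_set iB (ae_of_all _ fun _ => norm_nonneg _) hAs.eventuallyLE).trans
      (h2 c s l s0 l0.le ((closedBall_subset_closedBall hs.2).trans hK)
        ((D.en_mono (ball_subset_ball hs.2)).trans hE))
  have v0 : 0 < (volume : Measure (E n)).real (ball c s) :=
    ENNReal.toReal_pos (measure_ball_pos _ _ s0).ne' fB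
  have k4 : (volume : Measure (E n)).real (ball c s) ≤ 2 * (volume : Measure (E n)).real A := by
    have q1 : (volume : Measure (E n)).real (ball c s) ≤ (volume : Measure (E n)).real A +
        (volume : Measure (E n)).real (closedBall c (s / 2)) := by
      refine le_trans (measureReal_mono (fun x hx => ?_)
        (measure_union_ne_top fA measure_closedBall_lt_top.ne)) (measureReal_union_le _ _)
      rcases le_or_gt (dist x c) (s / 2) with h | h
      · exact Or.inr h
      · exact Or.inl ⟨h, hx⟩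
    have q2 : (volume : Measure (E n)).real (closedBall c (s / 2)) * 2 ≤
        (volume : Measure (E n)).real (ball c s) := by
      rw [← Measure.addHaar_real_closedBall_eq_addHaar_real_ball,
        Measure.addHaar_real_closedBall _ _ s0.le,
        Measure.addHaar_real_closedBall _ _ (half_pos s0).le, finrank_euclideanSpace_fin,
        mul_right_comm]
      refine mul_le_mul_of_nonneg_right ?_ measureReal_nonneg
      rw [div_pow, div_mul_eq_mul_div, div_le_iff₀ (by positivity)]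
      exact mul_le_mul_of_nonneg_left (le_self_pow₀ one_le_two (by omega)) (pow_nonneg s0.le _)
    linarith
  rcases le_or_gt β 0 with h | h
  · have : 0 ≤ C2 * l := by positivity
    rw [hβ] at h; linarith
  · have k5 : β * (volume : Measure (E n)).real (ball c s) ≤
        2 * (C2 * l) * (volume : Measure (E n)).real (ball c s) := by
      nlinarith [mul_le_mul_of_nonneg_left k4 h.le]
    have k6 := le_of_mul_le_mul_right k5 v0
    rw [hβ] at k6; linarith

end Pool.Agent.Lib.MP_a785f2_an.LZ
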