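import Pool.Agent.Lib.MP_a785f2_an.LZ.Vals
import Pool.Agent.Lib.MP_a785f2_an.LZ.TrkB

/-! Values along the trunk. -/

open MeasureTheory Metric Set Filter Topology
open scoped ContDiff RealInnerProductSpace ENNReal

namespace Pool.Agent.Lib.MP_a785f2_an.LZ

open HS (V)

variable {n m : ℕ} {Ω : Set (E n)} {P : V m → Op m} {L : ℝ} {N : Rl n m} {u : E n → V m}
  {G : E n → W n m} {f : E n → V m}

theorem tka_log {a b : ℝ} (ha : 0 < a) (hab : a ≤ b) :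
    ∫⁻ s in Ioo a b, ENNReal.ofReal s⁻¹ = ENNReal.ofReal (Real.log (b / a)) := by
  have hi : IntegrableOn (fun s : ℝ => s⁻¹) (Ioo a b) volume :=
    ((continuousOn_inv₀.mono fun s hs => (ha.trans_le hs.1).ne').integrableOn_Icc (a := a)
      (b := b)).mono_set Ioo_subset_Icc_self
  rw [← ofReal_integral_eq_lintegral_ofReal hi ((ae_restrict_iff' measurableSet_Ioo).2
    (ae_of_all _ fun s hs => (inv_pos.2 (ha.trans hs.1)).le)), ← integral_Ioc_eq_integral_Ioo,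
    ← intervalIntegral.integral_of_le hab, integral_inv_of_pos ha (ha.trans_le hab)]

theorem tka_le {a b : ℝ} (ha : 0 < a) (hab : a ≤ b) (h2 : b ≤ 2 * a) :
    ∫⁻ s in Ioo a b, ENNReal.ofReal s⁻¹ ≤ 1 := by
  rw [tka_log ha hab, ENNReal.ofReal_le_one]
  have h1 := Real.log_le_sub_one_of_pos (div_pos (ha.trans_le hab) ha)
  have h3 : b / a ≤ 2 := (div_le_iff₀ ha).2 h2
  linarith

theorem tka_near {U : Set ℝ} (hU : ∫⁻ s in U, ENNReal.ofReal s⁻¹ ≤ 1 / 2) {p : ℝ → Prop}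
    (hp : ∀ᵐ s, p s) {s : ℝ} (hs : 0 < s) : ∃ t ∈ Ioo (s / 2) s, t ∉ U ∧ p t := by
  by_contra hc
  have h1 : Ioo (s / 2) s ≤ᵐ[volume] U := by
    filter_upwards [hp] with t ht h
    by_contra h2
    exact hc ⟨t, h, h2, ht⟩
  have h2 := (lintegral_mono_set' (f := fun s : ℝ => ENNReal.ofReal s⁻¹) h1).trans hU
  rw [tka_log (half_pos hs) (half_le_self hs.le), show s / (s / 2) = 2 by field_simp,
    show (1 / 2 : ℝ≥0∞) = ENNReal.ofReal (1 / 2) by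
      rw [ENNReal.ofReal_div_of_pos two_pos]; simp,
    ENNReal.ofReal_le_ofReal_iff (by norm_num)] at h2
  linarith [Real.log_two_gt_d9]

section
variable {z c : E n} {r l l' s1 : ℝ} {T : Set (E n × ℝ)} {J : Set (ℝ × ℝ)}

theorem Hol.tka_sub (h : Hol Ω G z r l l' c s1 T J) (g : Good Ω G z r l) {s : ℝ}
    (hs : s ≤ 2 * s1) : closedBall c s ⊆ Ω :=
  (closedBall_subset_closedBall' (by linarith [h.hi, g.r0])).trans g.sub

theorem Hol.tka_en (D : Dat Ω P L N u G f) (h : Hol Ω G z r l l' c s1 T J) (g : Good Ω G z r l)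
    {s : ℝ} (hs : s ≤ 2 * s1) : en G (ball c s) ≤ l ^ n / 20 :=
  (D.en_mono (ball_subset_ball' (by linarith [h.hi, g.r0]))).trans g.e2

theorem Hol.tka_en' (D : Dat Ω P L N u G f) (h : Hol Ω G z r l l' c s1 T J) (g : Good Ω G z r l) :
    en G (ball c s1) ≤ l ^ n := by
  have h1 := h.tka_en D g (s := s1) (by linarith [h.lo, g.r0])
  have h2 := pow_pos g.l0 n
  linarith

theorem Hol.tka_mem (h : Hol Ω G z r l l' c s1 T J) (g : Good Ω G z r l) {x : E n}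
    (hx : dist x c ≤ s1) : x ∈ ball z r := by
  have := dist_triangle x c z
  rw [mem_ball]
  linarith [h.hi, h.lo, g.r0]

theorem Hol.tka_good (D : Dat Ω P L N u G f) (h : Hol Ω G z r l l' c s1 T J) (g : Good Ω G z r l)
    {s : ℝ} (hs : s ∈ Ioo 0 s1) (hJ : ∀ j ∈ J, s ∉ Ioo j.1 j.2) : Good Ω G c s (5 * l) := by
  have l0 := g.l0
  refine ⟨hs.1, by linarith, h.tka_sub g (by linarith [hs.2]),
    (h.tka_en D g (by linarith [hs.2])).trans (by gcongr; linarith), fun x hx => ?_⟩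
  have e : sgm c r x = s := by
    rw [sgm, hx]
    exact min_eq_left (by linarith [hs.2, h.hi, dist_nonneg (x := c) (y := z)])
  rw [← e]
  refine h.nb x (h.tka_mem g (hx.le.trans hs.2.le)) (fun hc => ?_) fun b hb hxb => ?_
  · rw [hc, dist_self] at hx
    exact hs.1.ne hx
  · rcases h.sh b hb with h1 | ⟨j, hj, h1⟩
    · linarith [h1 x hxb, hs.2]
    · exact hJ j hj (hx ▸ h1 x hxb)

end

theorem Dat.tka_var (D : Dat Ω P L N u G f) : ∃ C : ℝ, 0 < C ∧ ∀ z r l l' c s1 T J Cp y g,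
    Good Ω G z r l → Hol Ω G z r l l' c s1 T J → Trk P L N u G f Cp c s1 y g →
    ∀ a b, 0 < a → a ≤ b → b ≤ 2 * a → b ≤ s1 →
      ‖y b - y a‖ ≤ C * l ∧ ‖g b - g a‖ ≤ 4 * L ^ 2 * (C * l) := by
  obtain ⟨C, hC, h1⟩ := D.m1
  refine ⟨C, hC, fun z r l l' c s1 T J Cp y g hg h t a b ha hab h2 hb => ?_⟩
  obtain ⟨i1, i2⟩ := h1 c s1 l (Ioo a b) hg.l0 (h.tka_en' D hg) measurableSet_Ioo
    (Ioo_subset_Ioo ha.le hb) (tka_le ha hab h2)
  obtain ⟨v1, v2⟩ := t.var D ha hab hb i1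
  exact ⟨v1.trans i2, v2.trans (mul_le_mul_of_nonneg_left i2 (by positivity))⟩

theorem Dat.tka_yav (D : Dat Ω P L N u G f) : ∃ C : ℝ, 0 < C ∧ ∀ z r l l' c s1 T J Cp y g,
    Good Ω G z r l → Hol Ω G z r l l' c s1 T J → Trk P L N u G f Cp c s1 y g →
    ∀ s ∈ Ioc 0 s1, ‖y s - av u c s‖ ≤ C * l := by
  obtain ⟨C, hC, h1⟩ := D.y_av
  exact ⟨C, hC, fun z r l l' c s1 T J Cp y g hg h t => h1 Cp c s1 y g l t
    (h.tka_sub hg (by linarith [h.lo, hg.r0])) hg.l0 (h.tka_en' D hg)⟩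

theorem Dat.tk_osc (D : Dat Ω P L N u G f) : ∃ C : ℝ, 0 < C ∧ ∀ z r l l' c s1 T J Cp y g,
    Good Ω G z r l → Hol Ω G z r l l' c s1 T J → Trk P L N u G f Cp c s1 y g →
    ∀ᵐ s, s ∈ Ioo 0 s1 → (∀ j ∈ J, s ∉ Ioo j.1 j.2) →
      Good Ω G c s (5 * l) ∧ ∀ᵐ θ ∂sph n, ‖sl u c s θ - y s‖ ≤ C * l := by
  have n1 : 1 ≤ n := by linarith [D.n3]
  obtain ⟨C1, c1, h1⟩ := D.good_osc
  obtain ⟨C2, c2, h2⟩ := D.tka_yav
  refine ⟨5 * C1 + C2, by positivity, fun z r l l' c s1 T J Cp y g hg h t => ?_⟩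
  filter_upwards [pol_ae n1 h1 c] with s hs hs1 hJ
  have gd := h.tka_good D hg hs1 hJ
  refine ⟨gd, ?_⟩
  filter_upwards [hs hs1.1] with θ hθ
  have e1 := hθ c s (5 * l) gd (by rw [dist_eq_norm, LY.polar_norm c hs1.1.le θ])
  have e2 := h2 z r l l' c s1 T J Cp y g hg h t s ⟨hs1.1, hs1.2.le⟩
  have e3 := norm_sub_le_norm_sub_add_norm_sub (sl u c s θ) (av u c s) (y s)
  rw [norm_sub_rev] at e2
  simp only [sl] at e3 ⊢
  linarith

theorem Dat.tk_g (D : Dat Ω P L N u G f) : ∃ C : ℝ, 0 < C ∧ ∀ z r l l' c s1 T J Cp y g,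
    Good Ω G z r l → Hol Ω G z r l l' c s1 T J → Trk P L N u G f Cp c s1 y g → l ≤ 1 →
    ∀ s ∈ Ioc 0 s1, ‖g s - 1‖ ≤ C * l := by
  have n1 : 1 ≤ n := by linarith [D.n3]
  have L1 := D.geo.L1
  obtain ⟨C1, c1, h1⟩ := D.tk_osc
  obtain ⟨C2, c2, h2⟩ := D.tka_var
  refine ⟨4 * L ^ 2 * (C2 + C1 ^ 2), by positivity,
    fun z r l l' c s1 T J Cp y g hg h t l1 s hs => ?_⟩
  obtain ⟨a, ha, hU, p1, p2, p3⟩ := tka_near h.lJ
    ((h1 z r l l' c s1 T J Cp y g hg h t).and (t.slc.and t.ge)) hs.1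
  have a0 : 0 < a := (half_pos hs.1).trans ha.1
  have a1 : a ∈ Ioo 0 s1 := ⟨a0, ha.2.trans_le hs.2⟩
  have e1 := (p2 a1).sg_osc D.geo n1
    (p1 a1 fun j hj hm => hU (mem_biUnion (t := fun j : ℝ × ℝ => Ioo j.1 j.2) hj hm)).2
  have e2 := (h2 z r l l' c s1 T J Cp y g hg h t a s a0 ha.2.le (by linarith [ha.1]) hs.2).2
  have e3 := norm_sub_le_norm_sub_add_norm_sub (g s) (g a) 1
  rw [← p3 a1] at e1
  have e4 : (C1 * l) ^ 2 ≤ C1 ^ 2 * l := by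
    rw [mul_pow]
    exact mul_le_mul_of_nonneg_left (by nlinarith [hg.l0]) (sq_nonneg _)
  have e5 := mul_le_mul_of_nonneg_left e4 (by positivity : 0 ≤ 4 * L ^ 2)
  linarith

theorem Dat.tk_shell (D : Dat Ω P L N u G f) : ∃ C : ℝ, 0 < C ∧ ∀ z r l l' c s1 T J Cp y g,
    Good Ω G z r l → Hol Ω G z r l l' c s1 T J → Trk P L N u G f Cp c s1 y g → ∀ j ∈ J,
    (∀ᵐ x, dist x c ∈ Ioo j.1 j.2 → (∀ b ∈ T, x ∉ ball b.1 b.2) → ‖u x - y j.2‖ ≤ C * l) ∧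
      ∀ b ∈ T, dist b.1 c ∈ Ioo j.1 j.2 → ‖av u b.1 b.2 - y j.2‖ ≤ C * l := by
  obtain ⟨C1, c1, h1⟩ := D.vals
  obtain ⟨C2, c2, h2⟩ := D.tka_yav
  obtain ⟨C3, c3, h3⟩ := D.tka_var
  refine ⟨C1 + C2 + C3, by positivity, fun z r l l' c s1 T J Cp y g hg h t j hj => ?_⟩
  obtain ⟨j0, -, j2, j1⟩ := h.pJ j hj
  obtain ⟨-, v1, v2⟩ := h1 z r l l' c s1 T J hg h
  have key : ∀ (q : V m) (s : ℝ), s ∈ Ioo j.1 j.2 → ‖q - av u c s‖ ≤ C1 * l →
      ‖q - y j.2‖ ≤ (C1 + C2 + C3) * l := fun q s hs hq => by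
    have s0 := j0.trans hs.1
    have e1 := h2 z r l l' c s1 T J Cp y g hg h t s ⟨s0, hs.2.le.trans j1⟩
    have e2 := (h3 z r l l' c s1 T J Cp y g hg h t s j.2 s0 hs.2.le (by linarith [hs.1]) j1).1
    have e3 := norm_sub_le_norm_sub_add_norm_sub q (av u c s) (y j.2)
    have e4 := norm_sub_le_norm_sub_add_norm_sub (av u c s) (y s) (y j.2)
    rw [norm_sub_rev] at e1 e2
    linarith
  refine ⟨?_, fun b hb hs => key _ _ hs ((v2 b hb).1 (hs.2.le.trans j1))⟩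
  filter_upwards [v1] with x hx hs hT
  exact key _ _ hs ((hx (h.tka_mem hg (hs.2.le.trans j1)) hT).1 (hs.2.le.trans j1))

theorem Dat.tk_B (D : Dat Ω P L N u G f) {d : ℝ} (hd : 0 < d) : ∃ l0 : ℝ, 0 < l0 ∧
    ∀ z r l l' c s1 T J, Good Ω G z r l → Hol Ω G z r l l' c s1 T J → l ≤ l0 →
    ∫⁻ s in ((⋃ j ∈ J, Ioo j.1 j.2) ∪ {s | d ^ n < sM (pp G c s) n}) ∩ Ioo 0 s1,
      ENNReal.ofReal s⁻¹ ≤ 1 := by
  have n1 : 1 ≤ n := by linarith [D.n3]
  have o0 := om_pos n1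
  have d0 : 0 < d ^ n := pow_pos hd n
  refine ⟨min 1 (om n * d ^ n), by positivity, fun z r l l' c s1 T J hg h hl => ?_⟩
  obtain ⟨i1, -, i3⟩ := D.pol_en c
  have sb : Ioo 0 s1 ⊆ Ioi 0 := Ioo_subset_Ioi_self
  have mB : MeasurableSet ({s | d ^ n < sM (pp G c s) n} ∩ Ioo 0 s1) :=
    (measurableSet_lt measurable_const (sM_meas n1 D.mG c n)).inter measurableSet_Ioo
  have e1 : om n * ∫ s in Ioo 0 s1, s⁻¹ * sM (pp G c s) n ≤ l ^ n / 20 := by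
    rw [← i3 _ measurableSet_Ioo sb]
    exact (D.en_mono fun x hx => mem_ball.2 hx.2).trans
      (h.tka_en D hg (by linarith [h.lo, hg.r0]))
  have e2 : l ^ n ≤ om n * d ^ n :=
    (pow_le_of_le_one hg.l0.le (hl.trans (min_le_left _ _)) (by omega)).trans
      (hl.trans (min_le_right _ _))
  have i2 : IntegrableOn (fun s => s⁻¹ * sM (pp G c s) n / d ^ n) (Ioo 0 s1) volume :=
    (i1.mono_set sb).div_const _
  have e3 : ∫⁻ s in {s | d ^ n < sM (pp G c s) n} ∩ Ioo 0 s1, ENNReal.ofReal s⁻¹ ≤ 1 / 2 := by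
    refine (setLIntegral_mono' mB (g := fun s => ENNReal.ofReal (s⁻¹ * sM (pp G c s) n / d ^ n))
      fun s hs => ENNReal.ofReal_le_ofReal ?_).trans
      ((lintegral_mono_set inter_subset_right).trans ?_)
    · rw [le_div_iff₀ d0]
      exact mul_le_mul_of_nonneg_left (le_of_lt hs.1) (inv_pos.2 hs.2.1).le
    · rw [← ofReal_integral_eq_lintegral_ofReal i2 ((ae_restrict_iff' measurableSet_Ioo).2
        (ae_of_all _ fun s hs => div_nonneg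
          (mul_nonneg (inv_pos.2 hs.1).le (sM_nonneg _ _)) d0.le)), integral_div,
        show (1 / 2 : ℝ≥0∞) = ENNReal.ofReal (1 / 2) by
          rw [ENNReal.ofReal_div_of_pos two_pos]; simp]
      refine ENNReal.ofReal_le_ofReal ?_
      rw [div_le_iff₀ d0]
      refine le_of_mul_le_mul_left ?_ o0
      have := mul_pos o0 d0
      linarith
  rw [union_inter_distrib_right]
  refine (lintegral_union_le _ _ _).trans ?_
  rw [← ENNReal.add_halves 1]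
  exact add_le_add ((lintegral_mono_set inter_subset_left).trans h.lJ) e3

end Pool.Agent.Lib.MP_a785f2_an.LZ
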