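import Pool.Agent.Lib.MP_a785f2_an.LZ.TkA
import Pool.Agent.Lib.MP_a785f2_an.LZ.Rate

/-! The sign of the derivative at good radii. -/

open MeasureTheory Metric Set Filter Topology
open scoped ContDiff RealInnerProductSpace ENNReal

namespace Pool.Agent.Lib.MP_a785f2_an.LZ

open HS (V)

variable {n m : ℕ} {Ω : Set (E n)} {P : V m → Op m} {L : ℝ} {N : Rl n m} {u : E n → V m}
  {G : E n → W n m} {f : E n → V m}

theorem Dat.tk_good (D : Dat Ω P L N u G f) {Cp : ℝ} (hC : 0 < Cp) : ∃ κ0 : ℝ, 0 < κ0 ∧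
    ∃ d : ℝ, 0 < d ∧ ∃ l0 : ℝ, 0 < l0 ∧ ∀ κ, κ0 ≤ κ → ∀ c0 z r l l' c s1 T J y g,
      (c0 = 0 ∨ c0 = 1 / 2 ∧ Flx Ω G (5 * l)) → Good Ω G z r l → l ≤ l0 →
      Hol Ω G z r l l' c s1 T J → Trk P L N u G f Cp c s1 y g →
      ∀ᵐ s, s ∈ Ioo 0 s1 → (∀ j ∈ J, s ∉ Ioo j.1 j.2) → ∃ ν : ℝ, 0 ≤ ν ∧
        sN P (sl u c s) (pp G c s) (ph f c s) ≤ ν * ‖sF (pp G c s)‖ ∧
        (d ^ n < sM (pp G c s) n → c0 * κ * sM (pp G c s) n ≤
          κ * (sM (pp G c s) n + sR (sl u c s) (ph f c s) (y s)) - 3 * ν) ∧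
        (sM (pp G c s) n ≤ d ^ n → c0 * κ * sM (pp G c s) n ≤
          κ * (sM (pp G c s) n + sR (sl u c s) (ph f c s) (y s)) - 3 * ν -
            κ * ⟪sF (pp G c s), sa (pp G c s)⟫) := by
  obtain ⟨κ0, k0, d, d0, H⟩ := D.rate hC
  obtain ⟨C, C0, O⟩ := D.tk_osc
  refine ⟨κ0, k0, d, d0, d / C, by positivity,
    fun κ hκ c0 z r l l' c s1 T J y g hc go hl ho t => ?_⟩
  have k1 : 0 ≤ κ := by linarith
  have hsub : closedBall c s1 ⊆ Ω :=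
    (closedBall_subset_closedBall' (by linarith [ho.hi, ho.lo, go.r0])).trans go.sub
  have hd : C * l ≤ d := by rwa [le_div_iff₀' C0] at hl
  have hF : ∀ᵐ s, s ∈ Ioo 0 s1 → c0 = 0 ∨ c0 = 1 / 2 ∧ (Good Ω G c s (5 * l) →
      ‖sF (pp G c s)‖ * ‖sa (pp G c s)‖ ≤ sM (pp G c s) n / 8) := by
    rcases hc with hc | ⟨hc, hF⟩
    · exact ae_of_all _ fun _ _ => Or.inl hc
    · filter_upwards [hF c s1 hsub] with s hs h using Or.inr ⟨hc, hs h _ le_rfl⟩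
  filter_upwards [O z r l l' c s1 T J Cp y g go ho t, t.slc, t.ye, hF] with s a1 a2 a3 a4 hs hJ
  obtain ⟨b1, b2⟩ := a1 hs hJ
  rw [a3 hs] at b2 ⊢
  obtain ⟨⟨ν, n0, n1, n2, n3⟩, c2⟩ := H κ hκ _ _ _ (a2 hs) (b2.mono fun θ h => h.trans hd)
  have e0 : 0 ≤ κ * sM (pp G c s) n := mul_nonneg k1 (sM_nonneg _ _)
  rcases a4 hs with rfl | ⟨rfl, h⟩
  · by_cases he : sM (pp G c s) n ≤ d ^ n
    · obtain ⟨ν', m0, m1, m2⟩ := c2 he
      exact ⟨ν', m0, m1, fun h => absurd he (not_le.2 h), fun _ => by linarith⟩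
    · exact ⟨ν, n0, n1, fun _ => by linarith, fun h => absurd h he⟩
  · exact ⟨ν, n0, n1, fun _ => by linarith, fun _ => by linarith [n3 (h b1)]⟩

end Pool.Agent.Lib.MP_a785f2_an.LZ
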