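import Pool.Agent.Lib.MP_a785f2_an.LZ.Polar

/-! The radial density of the lower bound. -/

open MeasureTheory Metric Set Filter Topology
open scoped ContDiff RealInnerProductSpace ENNReal

namespace Pool.Agent.Lib.MP_a785f2_an.LZ

open HS (V)

variable {n m : ℕ} {Ω : Set (E n)} {P : V m → Op m} {L : ℝ} {N : Rl n m} {u : E n → V m}
  {G : E n → W n m} {f : E n → V m}

theorem Dat.rr_int (D : Dat Ω P L N u G f) (a b : ℝ) {A : Set (E n)} (mA : MeasurableSet A)
    (c : E n) : IntegrableOn (rr G a b A c) (Ioi 0) volume ∧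
      ∀ B : Set ℝ, MeasurableSet B → B ⊆ Ioi 0 → om n * ∫ s in B, rr G a b A c s =
        a * en G {x | dist x c ∈ B} - b * en G (A ∩ {x | dist x c ∈ B}) := by
  have hn : 1 ≤ n := le_trans (by norm_num) D.n3
  obtain ⟨e1, -, e3⟩ := D.pol_en c
  have gi : Integrable (A.indicator fun x => ‖G x‖ ^ n) volume := D.iG.indicator mA
  have key : ∀ s : ℝ, 0 < s →
      s ^ (n - 1) • ∫ θ, sl (A.indicator fun x => ‖G x‖ ^ n) c s θ ∂sph n =
        s⁻¹ * ∫ θ, A.indicator (fun _ => (1 : ℝ)) (c + s • (θ : E n)) * ‖pp G c s θ‖ ^ n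
          ∂sph n := fun s hs => by
    rw [smul_eq_mul, ← integral_const_mul, ← integral_const_mul]
    refine integral_congr_ae (ae_of_all _ fun θ => ?_)
    have h8 : s ^ n = s ^ (n - 1) * s := by rw [← pow_succ]; congr 1; omega
    by_cases h : c + s • (θ : E n) ∈ A
    · simp only [sl, pp, indicator_of_mem h, norm_smul, Real.norm_of_nonneg hs.le, mul_pow, h8]
      field_simp
    · simp only [sl, indicator_of_notMem h, mul_zero, zero_mul]
  have hr : ∀ s : ℝ, 0 < s → rr G a b A c s = a * (s⁻¹ * sM (pp G c s) n) -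
      b * (s ^ (n - 1) • ∫ θ, sl (A.indicator fun x => ‖G x‖ ^ n) c s θ ∂sph n) := fun s hs => by
    rw [key s hs, rr]
    ring
  have i2 := (pol_int hn c measurableSet_Ioi Subset.rfl gi.integrableOn).1
  refine ⟨IntegrableOn.congr_fun ((e1.const_mul a).sub (i2.const_mul b))
    (fun s hs => (hr s hs).symm) measurableSet_Ioi, fun B hB h0 => ?_⟩
  have hS : MeasurableSet {x : E n | dist x c ∈ B} :=
    (continuous_id.dist continuous_const).measurable hB
  have h3 := (pol_int hn c hB h0 gi.integrableOn).2.2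
  rw [setIntegral_indicator mA, inter_comm, smul_eq_mul] at h3
  rw [setIntegral_congr_fun hB fun s hs => hr s (h0 hs),
    integral_sub ((e1.mono_set h0).const_mul a) ((i2.mono_set h0).const_mul b),
    integral_const_mul, integral_const_mul, e3 B hB h0, en, h3]
  ring

theorem rr_le (a : ℝ) {b : ℝ} (hb : 0 ≤ b) (A : Set (E n)) (c : E n) {s : ℝ} (hs : 0 < s) :
    rr G a b A c s ≤ s⁻¹ * (a * sM (pp G c s) n) := by
  have h : 0 ≤ ∫ θ, A.indicator (fun _ => (1 : ℝ)) (c + s • (θ : E n)) * ‖pp G c s θ‖ ^ n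
      ∂sph n := integral_nonneg fun θ =>
    mul_nonneg (indicator_nonneg (fun _ _ => zero_le_one) _) (by positivity)
  exact mul_le_mul_of_nonneg_left (sub_le_self _ (mul_nonneg hb h)) (inv_pos.2 hs).le

end Pool.Agent.Lib.MP_a785f2_an.LZ
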