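import Pool.Agent.Lib.MP_a785f2_an.LZ.TkA
import Pool.Agent.Lib.MP_a785f2_an.LZ.TkR
import Pool.Agent.Lib.MP_a785f2_an.LZ.Frz

/-! The lower bound on a bad shell. -/

open MeasureTheory Metric Set Filter Topology
open scoped ContDiff RealInnerProductSpace ENNReal

namespace Pool.Agent.Lib.MP_a785f2_an.LZ

open HS (V)

variable {n m : ℕ} {Ω : Set (E n)} {P : V m → Op m} {L : ℝ} {N : Rl n m} {u : E n → V m}
  {G : E n → W n m} {f : E n → V m}

theorem Dat.tk_J (D : Dat Ω P L N u G f) : ∃ κ0 : ℝ, 0 < κ0 ∧ ∀ κ, κ0 ≤ κ → ∃ C : ℝ, 0 < C ∧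
    ∃ l0 : ℝ, 0 < l0 ∧ ∀ K c0 C0 A z r l l' c s1 T J Cp y g, MeasurableSet A → 0 ≤ C0 → 0 ≤ K →
      0 ≤ l' → c0 ≤ 1 / 2 → Good Ω G z r l → l ≤ l0 → Hol Ω G z r l l' c s1 T J →
      Trk P L N u G f Cp c s1 y g → (∀ b ∈ T, Low u G f κ K c0 C0 A b.1 b.2 l') →
      ∀ j ∈ J, ∀ Z, ‖Z + κ • y j.2‖ + C * l ≤ 2 - K * l' →
        om n * ∫ s in j.1..j.2, rr G (c0 * κ) C0 A c s ≤
          Q u G f κ (ball c j.2) Z - Q u G f κ (ball c j.1) Z := by
  have n1 : 1 ≤ n := by linarith [D.n3]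
  have L1 := D.geo.L1
  obtain ⟨C1, c1, h1⟩ := D.tk_shell
  refine ⟨4 * L, by linarith, fun κ hκ => ?_⟩
  have κ0 : 0 < κ := by linarith
  refine ⟨κ * C1, by positivity, 1, one_pos,
    fun K c0 C0 A z r l l' c s1 T J Cp y g mA hC0 hK hl' hc0 hg _ h t hT j hj Z hZ => ?_⟩
  obtain ⟨j0, j12, -, j1⟩ := h.pJ j hj
  obtain ⟨v1, v2⟩ := h1 z r l l' c s1 T J Cp y g hg h t j hj
  have mU : MeasurableSet {x : E n | dist x c ∈ Ioo j.1 j.2} :=
    (continuous_id.dist continuous_const).measurable measurableSet_Ioo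
  have key : ∀ q : V m, ‖q - y j.2‖ ≤ C1 * l → ‖Z + κ • q‖ ≤ 2 - K * l' := fun q hq => by
    have e : Z + κ • q = Z + κ • y j.2 + κ • (q - y j.2) := by
      rw [smul_sub]
      abel
    have e2 := norm_add_le (Z + κ • y j.2) (κ • (q - y j.2))
    rw [← e, norm_smul, Real.norm_of_nonneg κ0.le] at e2
    have e3 := mul_le_mul_of_nonneg_left hq κ0.le
    linarith
  have fr := D.frozen κ0.le hc0 hC0 mA mU
    (T := {b ∈ T | ball b.1 b.2 ⊆ {x : E n | dist x c ∈ Ioo j.1 j.2}})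
    (h.cT.mono fun b hb => hb.1) (h.dT.subset fun b hb => hb.1) (fun b hb => hb.2) Z
    (fun b hb => hT b hb.1 Z (key _ (v2 b hb.1 (hb.2 (mem_ball_self (h.gT b hb.1).r0)))))
    (by
      filter_upwards [v1] with x hx hU hb
      have e1 := key _ (hx hU fun b bT xb => by
        rcases h.sh b bT with h2 | ⟨i, hi, h2⟩
        · linarith [h2 x xb, hU.2]
        · by_cases e : i = j
          · exact hb b ⟨bT, fun w hw => e ▸ h2 w hw⟩ xb
          · exact Set.disjoint_left.1 (h.dJ hi hj e) (h2 x xb) hU)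
      have e2 := mul_le_mul_of_nonneg_left e1 (by linarith : 0 ≤ L)
      have e3 := mul_nonneg (by linarith : 0 ≤ L) (mul_nonneg hK hl')
      linarith)
  have := LY.nontriv n1
  have sp := (D.split κ Z (U := ball c j.2) (U1 := ball c j.1) measurableSet_ball mU mA
    (Set.disjoint_left.2 fun x h1 h2 => lt_asymm (mem_ball.1 h1) h2.1) (by
      filter_upwards [measure_eq_zero_iff_ae_notMem.1
        (Measure.addHaar_sphere (volume : Measure (E n)) c j.1)] with x hx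
      refine propext ⟨fun h1 => ?_, fun h1 => ?_⟩
      · rcases lt_or_gt_of_ne (mt mem_sphere.2 hx) with h2 | h2
        · exact Or.inl h2
        · exact Or.inr ⟨h2, h1⟩
      · exact h1.elim (fun h2 => lt_trans h2 j12) fun h2 => h2.2)).1
  rw [intervalIntegral.integral_of_le j12.le, integral_Ioc_eq_integral_Ioo,
    (D.rr_int (c0 * κ) C0 mA c).2 _ measurableSet_Ioo fun s hs => j0.trans hs.1, sp]
  linarith

end Pool.Agent.Lib.MP_a785f2_an.LZ
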