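import Pool.Agent.Lib.MP_a785f2_an.LZ.TrA
import Pool.Agent.Lib.MP_a785f2_an.LY.Red
import Pool.Agent.Lib.MP_a785f2_an.LY.Jac

/-! The pointwise relation for maps into a manifold. -/

open MeasureTheory Metric Set Filter Topology
open scoped ContDiff RealInnerProductSpace ENNReal

namespace Pool.Agent.Lib.MP_a785f2_an.LZ

open HS (V)

variable {n m : ℕ} {Ω : Set (E n)} {P : V m → Op m} {L : ℝ} {N : Rl n m} {u : E n → V m}
  {G : E n → W n m} {f : E n → V m}

theorem jac_exc (hn : 3 ≤ n) (p : W n m) (a : V m) {θ : E n} (hθ : ‖θ‖ = 1) :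
    ∑ I : Fin n → Fin m, |(Matrix.of fun b j => p j (I b)).det| ≤
      (m : ℝ) ^ n * n.factorial * 2 ^ n *
        (‖a‖ ^ (n - 2) * ‖p - ten a θ‖ ^ 2 + ‖p - ten a θ‖ ^ n) := by
  refine LY.minors_le_excess hn (fun i α => p α i) (fun i => a i) (fun α => θ α) _ _
    (fun i => PiLp.norm_apply_le a i) (fun α => hθ ▸ PiLp.norm_apply_le θ α) fun i α => ?_
  have h1 : |((p - ten a θ) α) i| ≤ ‖p - ten a θ‖ :=
    (PiLp.norm_apply_le ((p - ten a θ) α) i).trans (PiLp.norm_apply_le _ α)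
  rw [mul_comm]
  exact h1

theorem al_cols (q : V m) (A : HS.D n →L[ℝ] V m) : al P q (cols A) = -LY.sec P q A := by
  rw [al, LY.sec, neg_neg, norm_cols]
  rfl

theorem pt_rl (hn : 3 ≤ n) {M : Set (V m)} (g : LY.Geo M P L) : ∃ L' : ℝ, L ≤ L' ∧
    (∀ q ∈ M, PtM P L' M q (0 : W n m) 0) ∧
    ∀ (q : V m) (A : HS.D n →L[ℝ] V m) (F : V m), LY.Pt M P L q A F →
      ‖F‖ ≤ L' * ‖cols A‖ ^ n ∧
        ∀ t : ℝ, 0 < t → PtM P L' M q (t • cols A) (-(t ^ n • F)) := by
  have hn2 : 2 ≤ n := by omega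
  have L0 : 0 < L := lt_of_lt_of_le one_pos g.L1
  have g' : Geo P L := ⟨g.L1, g.c1, g.bP, g.bD, g.sym⟩
  set K : ℝ := (m : ℝ) ^ n * n.factorial * 2 ^ n with hK
  have K0 : 0 ≤ K := by positivity
  have hL : L ≤ L * (1 + K) := le_mul_of_one_le_right L0.le (by linarith)
  refine ⟨L * (1 + K), hL, fun q hq => ?_, fun q A F h => ⟨?_, fun t ht => ?_⟩⟩
  · have z : al P q (0 : W n m) = 0 := by simp [al]
    refine ⟨hq, fun α => by simp, by rw [z, map_zero], fun a θ _ => ?_⟩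
    rw [z, sub_zero, norm_zero]
    positivity
  · have h1 := jac_exc hn (cols A) 0 (θ := EuclideanSpace.single ⟨0, by omega⟩ 1) (by simp)
    have z : ten (0 : V m) (EuclideanSpace.single (⟨0, by omega⟩ : Fin n) (1 : ℝ)) = 0 := by
      ext1 α; simp [ten]
    rw [norm_zero, zero_pow (by omega), zero_mul, zero_add, z, sub_zero] at h1
    have h2 := g'.al_le hn2 q (cols A)
    rw [al_cols, norm_neg] at h2
    have h3 := norm_le_norm_add_norm_sub' F (LY.sec P q A)
    have h4 : ‖F - LY.sec P q A‖ ≤ L * (K * ‖cols A‖ ^ n) :=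
      h.2.2.2.trans (mul_le_mul_of_nonneg_left h1 L0.le)
    nlinarith
  · refine ⟨h.1, fun α => ?_, ?_, fun a θ hθ => ?_⟩
    · rw [PiLp.smul_apply, map_smul]
      exact congrArg _ (h.2.1 _)
    · rw [al_smul hn2 ht.le, al_cols, map_smul, map_neg, h.2.2.1, neg_zero, smul_zero]
    · have h1 := jac_exc hn (t • cols A) a hθ
      have e1 : ∑ I : Fin n → Fin m, |(Matrix.of fun b j => (t • cols A) j (I b)).det| =
          t ^ n * HS.jac A := by
        rw [HS.jac, Finset.mul_sum]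
        refine Finset.sum_congr rfl fun I _ => ?_
        have e2 : (Matrix.of fun b j => (t • cols A) j (I b)) = t • HS.mat A I := rfl
        rw [e2, Matrix.det_smul, Fintype.card_fin, abs_mul, abs_of_pos (pow_pos ht n)]
      rw [e1] at h1
      have e3 : -(t ^ n • F) - al P q (t • cols A) = -(t ^ n • (F - LY.sec P q A)) := by
        rw [al_smul hn2 ht.le, al_cols, smul_neg, smul_sub]
        abel
      rw [e3, norm_neg, norm_smul, Real.norm_of_nonneg (pow_pos ht n).le]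
      have h5 : 0 ≤ ‖a‖ ^ (n - 2) * ‖t • cols A - ten a θ‖ ^ 2 + ‖t • cols A - ten a θ‖ ^ n := by
        positivity
      calc t ^ n * ‖F - LY.sec P q A‖ ≤ t ^ n * (L * HS.jac A) :=
            mul_le_mul_of_nonneg_left h.2.2.2 (pow_pos ht n).le
        _ = L * (t ^ n * HS.jac A) := by ring
        _ ≤ L * (K * _) := mul_le_mul_of_nonneg_left h1 L0.le
        _ ≤ _ := by nlinarith

end Pool.Agent.Lib.MP_a785f2_an.LZ
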