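import Pool.Agent.Lib.MP_a785f2_an.LZ.Core
import Pool.Agent.Lib.MP_a785f2_an.LZ.SphM
import Pool.Agent.Lib.MP_a785f2_an.LZ.TrM

/-! The continuity theorems on the sup norm domain. -/

open MeasureTheory Metric Set Filter Topology
open scoped ContDiff RealInnerProductSpace ENNReal

namespace Pool.Agent.Lib.MP_a785f2_an.LZ

open HS (V)

variable {n m : ℕ} {Ω : Set (E n)} {P : V m → Op m} {L : ℝ} {N : Rl n m} {u : E n → V m}
  {G : E n → W n m} {f : E n → V m}

theorem coreD (hn : 3 ≤ n) : LY.CoreD n := by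
  intro m M P L O v A F g s h
  rcases M.eq_empty_or_nonempty with rfl | ⟨q0, hq⟩
  · refine ⟨fun _ => 0, continuousOn_const, (ae_restrict_iff' s.op.measurableSet).2 ?_⟩
    filter_upwards [h] with x hx hO
    exact absurd (hx hO).1 (notMem_empty _)
  obtain ⟨L', hL, h0, h1⟩ := pt_rl hn g
  have L0 : 0 ≤ L := by linarith [g.L1]
  have g' : Geo P L' := ⟨g.L1.trans hL, g.c1, fun q => (g.bP q).trans hL,
    fun q => (g.bD q).trans hL, g.sym⟩
  obtain ⟨u, G, f, T, -, a1, a2, a3, a4⟩ := dat_gen hn g' ((g.bN q0 hq).trans hL) s h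
    fun x hx => ⟨(g.bN _ hx.1).trans hL, (h1 _ _ _ hx).1⟩
  refine rep_of (u := u) (a4 (RlM P L' M) (sphOK_M hn g' fun q a q' b ν c =>
    (g.ch q a q' b ν c).trans (by gcongr)) fun c R _ => ae_of_all _ fun t ht θ => ?_).core s.op ?_
  · by_cases hx : c + t • (θ : E n) ∈ T
    · obtain ⟨b1, b2, b3, b4⟩ := a2 _ hx
      simp only [sl, pp, ph, b2, b3, b4]
      exact (h1 _ _ _ b1).2 t ht.1
    · obtain ⟨b2, b3, b4⟩ := a3 _ hx
      simp only [sl, pp, ph, b2, b3, b4, smul_zero, neg_zero]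
      exact h0 q0 hq
  filter_upwards [a1] with x hx hO
  exact (a2 _ (hx hO)).2.1

end Pool.Agent.Lib.MP_a785f2_an.LZ
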