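import Pool.Agent.Lib.MP_a785f2_an.LZ.Rad1
import Pool.Agent.Lib.MP_a785f2_an.LZ.Rad2
import Pool.Agent.Lib.MP_a785f2_an.LZ.Slc
import Pool.Agent.Lib.MP_a785f2_an.LZ.Sph0g

/-! Existence of the radial functions. -/

open MeasureTheory Metric Set Filter Topology
open scoped ContDiff RealInnerProductSpace ENNReal

namespace Pool.Agent.Lib.MP_a785f2_an.LZ

open HS (V)

variable {n m : ℕ} {Ω : Set (E n)} {P : V m → Op m} {L : ℝ} {N : Rl n m} {u : E n → V m}
  {G : E n → W n m} {f : E n → V m}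

theorem Geo.sq (g : Geo P L) : ContDiff ℝ 1 (fun q => P q * P q) ∧
    (∀ q v, fderiv ℝ (fun q => P q * P q) q v = fderiv ℝ P q v * P q + P q * fderiv ℝ P q v) ∧
    ∀ q, ‖fderiv ℝ (fun q => P q * P q) q‖ ≤ 2 * L ^ 2 := by
  have h1 : ∀ q v, fderiv ℝ (fun q => P q * P q) q v =
      fderiv ℝ P q v * P q + P q * fderiv ℝ P q v := fun q v => by
    have h := (g.cP.differentiable one_ne_zero q).hasFDerivAt
    rw [(h.fun_mul' h).fderiv, add_comm]
    rfl
  have L0 : 0 ≤ L := zero_le_one.trans g.L1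
  refine ⟨g.cP.mul g.cP, h1, fun q =>
    ContinuousLinearMap.opNorm_le_bound _ (by positivity) fun v => ?_⟩
  have h2 : ‖fderiv ℝ P q v‖ ≤ L * ‖v‖ := (fderiv ℝ P q).le_of_opNorm_le (g.dP q) v
  have h3 := (norm_mul_le (fderiv ℝ P q v) (P q)).trans
    (mul_le_mul h2 (g.bP q) (norm_nonneg _) (by positivity))
  have h4 := (norm_mul_le (P q) (fderiv ℝ P q v)).trans
    (mul_le_mul (g.bP q) h2 (norm_nonneg _) L0)
  rw [h1]
  linarith [norm_add_le (fderiv ℝ P q v * P q) (P q * fderiv ℝ P q v)]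

theorem Dat.trk (D : Dat Ω P L N u G f) : ∃ Cp : ℝ, 0 < Cp ∧ ∀ c R, closedBall c R ⊆ Ω →
    ∃ y g, Trk P L N u G f Cp c R y g := by
  obtain ⟨Cp, hCp, hs⟩ := D.slc
  refine ⟨Cp, hCp, fun c R hR => ?_⟩
  have n1 : 1 ≤ n := by linarith [D.n3]
  have h0 := hs c R hR
  obtain ⟨y, y1, y2⟩ := D.rad1 (H := fun q => q) contDiff_id (B := 1)
    (fun q => by rw [fderiv_fun_id]; exact ContinuousLinearMap.norm_id_le) hR
  obtain ⟨A, A1, A2⟩ := D.rad1 D.geo.cP D.geo.dP hR
  obtain ⟨B, B1, B2⟩ := D.rad1 D.geo.sq.1 D.geo.sq.2.2 hR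
  have pg := ((Pr.const (1 : Op m)).add B1).sub
    (A1.bilin A1 (ContinuousLinearMap.compL ℝ (V m) (V m) (V m)))
  simp only [ContinuousLinearMap.compL_apply, ← ContinuousLinearMap.mul_def] at pg
  have ge : ∀ᵐ s, s ∈ Ioo 0 R → 1 + B s - A s * A s = sg P (sl u c s) := by
    filter_upwards [A2, B2] with s h1 h2 h3
    rw [h1 h3, h2 h3]
    rfl
  have ev : ∀ a : V m, Continuous fun T : Op m => T a := fun a =>
    continuous_id.clm_apply continuous_const
  refine ⟨y, fun s => 1 + B s - A s * A s, h0, ?_, y2, ?_, ?_, ge, ?_, ?_, ?_, D.rad2 hR,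
    D.prF c R, D.prI c R⟩
  · simpa only [fderiv_fun_id, ContinuousLinearMap.id_apply, sa] using y1
  · refine y1.closed (K := {q | ‖q‖ ≤ L}) (isClosed_le continuous_norm continuous_const) ?_
    filter_upwards [h0, y2] with s h1 h2 h3
    rw [h2 h3]
    exact (h1 h3).sy_le n1
  · refine pg.congr ?_
    filter_upwards [A2] with s h1 h3
    rw [h1 h3, zero_add, sgd, smul_sub, smul_add]
    simp only [D.geo.sq.2.1]
    simp only [ContinuousLinearMap.mul_def, ContinuousLinearMap.smul_comp,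
      ContinuousLinearMap.comp_smul]
    rfl
  · refine pg.closed (K := {T | ∀ a, ‖a‖ ^ 2 ≤ ⟪T a, a⟫}) ?_ ?_
    · rw [ofPred_forall]
      exact isClosed_iInter fun a => isClosed_le continuous_const ((ev a).inner continuous_const)
    · filter_upwards [h0, ge] with s h1 h2 h3
      rw [h2 h3]
      exact (h1 h3).sg_ge D.geo n1
  · refine pg.closed (K := {T | ∀ a b, ⟪T a, b⟫ = ⟪a, T b⟫}) ?_ ?_
    · simp only [ofPred_forall]
      exact isClosed_iInter fun a => isClosed_iInter fun b =>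
        isClosed_eq ((ev a).inner continuous_const) (continuous_const.inner (ev b))
    · filter_upwards [h0, ge] with s h1 h2 h3
      rw [h2 h3]
      exact (h1 h3).sg_sym D.geo n1
  · refine pg.closed (K := {T | ‖T‖ ≤ 1 + 2 * L ^ 2})
      (isClosed_le continuous_norm continuous_const) ?_
    filter_upwards [h0, ge] with s h1 h2 h3
    rw [h2 h3]
    exact (h1 h3).sg_le D.geo n1

end Pool.Agent.Lib.MP_a785f2_an.LZ
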