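import Pool.Agent.Lib.MP_a785f2_an.LZ.TkJ
import Pool.Agent.Lib.MP_a785f2_an.LZ.TkG
import Pool.Agent.Lib.MP_a785f2_an.LZ.Trk
import Pool.Agent.Lib.MP_a785f2_an.LZ.Mu
import Pool.Agent.Lib.MP_a785f2_an.LY.Trunk

/-! The lower bound on the trunk ball. -/

open MeasureTheory Metric Set Filter Topology
open scoped ContDiff RealInnerProductSpace ENNReal

namespace Pool.Agent.Lib.MP_a785f2_an.LZ

open HS (V)

variable {n m : ℕ} {Ω : Set (E n)} {P : V m → Op m} {L : ℝ} {N : Rl n m} {u : E n → V m}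
  {G : E n → W n m} {f : E n → V m}

theorem exists_off {O : Set ℝ} (h : ∫⁻ s in O, ENNReal.ofReal s⁻¹ ≤ 1 / 2) {ρ : ℝ} (hρ : 0 < ρ) :
    ∃ s, 0 < s ∧ s < ρ ∧ s ∉ O := by
  by_contra hc
  push Not at hc
  have h1 : Ioo (ρ / 4) ρ ⊆ O := fun s hs => hc s (lt_trans (by positivity) hs.1) hs.2
  have h2 : ∫⁻ _s in Ioo (ρ / 4) ρ, ENNReal.ofReal ρ⁻¹ ≤
      ∫⁻ s in Ioo (ρ / 4) ρ, ENNReal.ofReal s⁻¹ :=
    setLIntegral_mono' measurableSet_Ioo fun s hs => ENNReal.ofReal_le_ofReal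
      (inv_anti₀ (lt_trans (by positivity) hs.1) hs.2.le)
  have h3 := h2.trans ((lintegral_mono_set h1).trans h)
  rw [setLIntegral_const, Real.volume_Ioo, ← ENNReal.ofReal_mul (by positivity),
    show ρ⁻¹ * (ρ - ρ / 4) = 3 / 4 by field_simp; ring,
    show (1 / 2 : ℝ≥0∞) = ENNReal.ofReal (1 / 2) by simp,
    ENNReal.ofReal_le_ofReal_iff (by norm_num)] at h3
  norm_num at h3

theorem Dat.small_ball (D : Dat Ω P L N u G f) (c : E n) {ε : ℝ} (hε : 0 < ε) :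
    ∃ ρ : ℝ, 0 < ρ ∧ en G (closedBall c ρ) ≤ ε := by
  have : Nonempty (Fin n) := ⟨⟨0, by have := D.n3; omega⟩⟩
  obtain ⟨δ, hδ, h⟩ := D.small hε
  obtain ⟨U, h1, h2, h3⟩ := Set.exists_isOpen_lt_of_lt (μ := (volume : Measure (E n))) {c} δ
    (by rwa [measure_singleton])
  obtain ⟨ρ, h4, h5⟩ := Metric.nhds_basis_closedBall.mem_iff.1 (h2.mem_nhds (h1 rfl))
  exact ⟨ρ, h4, h _ ((measure_mono h5).trans_lt h3)⟩

theorem Dat.m1_int (D : Dat Ω P L N u G f) (c : E n) {a b : ℝ} (ha : 0 < a) :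
    IntegrableOn (fun s => s⁻¹ * sM (pp G c s) 1) (Ioo a b) volume := by
  have hn : 1 ≤ n := by have := D.n3; omega
  obtain ⟨i1, i2, -⟩ := D.pol_en c
  have sI : Ioo a b ⊆ Ioi 0 := fun s hs => ha.trans hs.1
  refine ((integrableOn_const (C := a⁻¹) (by simp)).add (i1.mono_set sI)).mono'
    (measurable_inv.mul (sM_meas hn D.mG c 1)).aestronglyMeasurable
    ((ae_restrict_iff' measurableSet_Ioo).2 ?_)
  filter_upwards [i2] with s h hs
  have s0 : 0 < s := sI hs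
  have h1 := sM_young hn (pp_meas D.mG c s) (h s0) one_pos
  have h2 := inv_anti₀ ha hs.1.le
  have h3 := mul_le_mul_of_nonneg_left h1 (inv_nonneg.2 s0.le)
  rw [Real.norm_of_nonneg (mul_nonneg (inv_nonneg.2 s0.le) (sM_nonneg _ _))]
  simp only [one_pow, div_one, Pi.add_apply] at h3 ⊢
  linarith

theorem norm_le_of_sq {T : V m} {g : Op m} {t a : ℝ} (ht : 0 ≤ t) (ha : 0 ≤ a)
    (h : ‖T‖ ^ 2 ≤ t ^ 2 * ‖g‖) (hg : ‖g - 1‖ ≤ a) : ‖T‖ ≤ t * (1 + a) := by
  have h1 : ‖g‖ ≤ 1 + a := by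
    have h2 := norm_add_le (g - 1) 1
    have h3 : ‖(1 : Op m)‖ ≤ 1 := ContinuousLinearMap.norm_id_le
    rw [sub_add_cancel] at h2
    linarith
  refine (abs_le_of_sq_le_sq' ?_ (by positivity)).2
  rw [mul_pow]
  exact h.trans (mul_le_mul_of_nonneg_left (by nlinarith) (sq_nonneg t))

theorem Dat.trunk (D : Dat Ω P L N u G f) : ∃ κ0 : ℝ, 0 < κ0 ∧ ∀ κ, κ0 ≤ κ → ∃ C : ℝ, 0 < C ∧
    ∃ l0 : ℝ, 0 < l0 ∧ ∀ K c0 C0 A z r l l' c s1 T J, MeasurableSet A → 0 ≤ C0 → 0 ≤ K →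
      (c0 = 0 ∨ c0 = 1 / 2 ∧ Flx Ω G (5 * l)) → Good Ω G z r l → l ≤ l0 → 0 ≤ l' →
      Hol Ω G z r l l' c s1 T J → (∀ b ∈ T, Low u G f κ K c0 C0 A b.1 b.2 l') →
      ∀ Z, ‖Z + κ • av u c s1‖ + C * l ≤ 2 - K * l' →
        c0 * κ * en G (ball c s1) - C0 * en G (A ∩ ball c s1) ≤ Q u G f κ (ball c s1) Z := by
  have hn1 : 1 ≤ n := by have := D.n3; omega
  have hn2 : 2 ≤ n := by have := D.n3; omega
  have L1 := D.geo.L1
  have o0 := om_pos hn1
  obtain ⟨Cp, hCp, trk⟩ := D.trk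
  obtain ⟨κ1, hκ1, d, hd, l1, hl1, tg⟩ := D.tk_good hCp
  obtain ⟨κ2, hκ2, tJ⟩ := D.tk_J
  obtain ⟨l3, hl3, tB⟩ := D.tk_B hd
  obtain ⟨Cm, hCm, m1⟩ := D.m1
  obtain ⟨Cg, hCg, tgg⟩ := D.tk_g
  obtain ⟨Cy, hCy, yav⟩ := D.y_av
  refine ⟨max κ1 κ2, lt_max_of_lt_left hκ1, fun κ hκ => ?_⟩
  have κ0 : 0 < κ := hκ1.trans_le ((le_max_left _ _).trans hκ)
  obtain ⟨CJ, hCJ, l2, hl2, tJ'⟩ := tJ κ ((le_max_right _ _).trans hκ)
  refine ⟨κ * Cy + (κ + 2) * (4 * L ^ 2 * Cm) + 2 * Cg + CJ, by positivity,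
    min (min l1 l2) (min l3 1), by positivity, ?_⟩
  intro K c0 C0 A z r l l' c s1 T J mA hC0 hK hc gd hl hl' H low Z hZ
  have q1 : l ≤ l1 := hl.trans ((min_le_left _ _).trans (min_le_left _ _))
  have q2 : l ≤ l2 := hl.trans ((min_le_left _ _).trans (min_le_right _ _))
  have q3 : l ≤ l3 := hl.trans ((min_le_right _ _).trans (min_le_left _ _))
  have q4 : l ≤ 1 := hl.trans ((min_le_right _ _).trans (min_le_right _ _))
  have l0 := gd.l0
  have r0 := gd.r0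
  have s10 : 0 < s1 := lt_of_lt_of_le (by positivity) H.lo
  have c00 : 0 ≤ c0 := by rcases hc with h | h <;> [exact h.ge; linarith [h.1]]
  have c01 : c0 ≤ 1 / 2 := by rcases hc with h | h <;> [linarith; exact h.1.le]
  have sΩ : closedBall c s1 ⊆ Ω :=
    (closedBall_subset_closedBall' (by linarith [H.hi])).trans gd.sub
  have e1 : en G (ball c s1) ≤ l ^ n := by
    have h1 : en G (ball c s1) ≤ en G (ball z (2 * r)) :=
      D.en_mono (ball_subset_ball' (by linarith [H.hi]))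
    have h2 : 0 ≤ l ^ n := by positivity
    linarith [gd.e2]
  obtain ⟨y, g, t⟩ := trk c s1 sΩ
  have ya := yav Cp c s1 y g l t sΩ l0 e1 s1 ⟨s10, le_rfl⟩
  have gb := tgg z r l l' c s1 T J Cp y g gd H t q4
  obtain ⟨t1, ht1⟩ : ∃ t1, t1 = ‖Z + κ • y s1‖ := ⟨_, rfl⟩
  obtain ⟨lam, hlam⟩ : ∃ lam, lam = 4 * L ^ 2 * (Cm * l) := ⟨_, rfl⟩
  obtain ⟨tm, htm⟩ : ∃ tm, tm = t1 + (κ + 2) * lam := ⟨_, rfl⟩
  have t10 : 0 ≤ t1 := ht1 ▸ norm_nonneg _
  have lam0 : 0 ≤ lam := by rw [hlam]; positivity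
  have tm0 : 0 ≤ tm := by rw [htm]; positivity
  have Kl : 0 ≤ K * l' := mul_nonneg hK hl'
  have b1 : t1 ≤ ‖Z + κ • av u c s1‖ + κ * (Cy * l) := by
    have h1 : Z + κ • y s1 = Z + κ • av u c s1 + κ • (y s1 - av u c s1) := by
      rw [smul_sub]; abel
    have h2 := norm_add_le (Z + κ • av u c s1) (κ • (y s1 - av u c s1))
    rw [norm_smul, Real.norm_of_nonneg κ0.le] at h2
    rw [ht1, h1]
    linarith [mul_le_mul_of_nonneg_left ya κ0.le]
  have g0 : 0 ≤ Cg * l := by positivity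
  have j0 : 0 ≤ CJ * l := by positivity
  have b2 : tm + 2 * (Cg * l) + CJ * l ≤ 2 - K * l' := by rw [htm, hlam]; linarith
  have tm2 : tm ≤ 2 := by linarith
  have b3 : ∀ s ∈ Ioc 0 s1, ∀ T' : V m, ‖T'‖ ^ 2 ≤ tm ^ 2 * ‖g s‖ →
      ‖T'‖ + CJ * l ≤ 2 - K * l' := fun s hs T' h => by
    have h1 := norm_le_of_sq tm0 g0 h (gb s hs)
    nlinarith [mul_le_mul_of_nonneg_right tm2 g0]
  obtain ⟨CQ, hCQ⟩ : ∃ CQ, CQ = κ + L * (2 + κ * L + κ * L) := ⟨_, rfl⟩
  have CQ0 : 0 < CQ := by rw [hCQ]; positivity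
  refine le_of_forall_pos_le_add fun η hη => ?_
  obtain ⟨ρ, ρ0, hρ⟩ := D.small_ball c (ε := η / (CQ + κ)) (by positivity)
  obtain ⟨s0, s00, s0l, s0O⟩ := exists_off H.lJ (lt_min ρ0 s10)
  have s01 : s0 < s1 := s0l.trans_le (min_le_right _ _)
  have e0 : en G (closedBall c s0) ≤ η / (CQ + κ) :=
    (D.en_mono (closedBall_subset_closedBall (s0l.le.trans (min_le_left _ _)))).trans hρ
  have sI : Ioo s0 s1 ⊆ Ioo 0 s1 := Ioo_subset_Ioo_left s00.le
  have sI' : Icc s0 s1 ⊆ Ioc 0 s1 := fun s hs => ⟨s00.trans_le hs.1, hs.2⟩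
  obtain ⟨ir, er⟩ := D.rr_int (c0 * κ) C0 mA c
  have cJ : Countable J := H.cJ.to_subtype
  have mW : MeasurableSet {s | d ^ n < sM (pp G c s) n} :=
    measurableSet_lt measurable_const (sM_meas hn1 D.mG c n)
  have key := LY.trunk (s0 := s0) (s1 := s1) (k := κ) (t1 := t1) (tm := tm) (lam := lam) s01.le
    κ0.le t10 tm0 (by nlinarith [mul_le_mul_of_nonneg_right tm2 lam0])
    (M := fun s => κ * Iu u G f c s)
    (M' := fun s => κ * (s⁻¹ * (sM (pp G c s) n + sR (sl u c s) (ph f c s) 0)))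
    (b := fun s => 4 * L ^ 2 * (s⁻¹ * sM (pp G c s) 1)) (r := rr G (c0 * κ) C0 A c)
    (F := Ff f c) (F' := fun s => s⁻¹ • sD (ph f c s)) (y := y)
    (y' := fun s => s⁻¹ • sa (pp G c s)) (g := g)
    (g' := fun s => s⁻¹ • sgd P (sl u c s) (pp G c s))
    ((t.pI.1 s0 s1 s00 s01.le le_rfl).const_mul κ) (t.pF.1 s0 s1 s00 s01.le le_rfl)
    (t.py.1 s0 s1 s00 s01.le le_rfl) (t.pg.1 s0 s1 s00 s01.le le_rfl)
    (by
      filter_upwards [t.slc, t.pI.2, t.pF.2, t.py.2, t.pg.2] with s h1 h2 h3 h4 h5 hs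
      have hs' := sI hs
      have i0 : 0 ≤ s⁻¹ := inv_nonneg.2 hs'.1.le
      have a1 := mul_le_mul_of_nonneg_left ((h1 hs').sa_le hn1) i0
      have a2 := mul_le_mul_of_nonneg_left ((h1 hs').sgd_le D.geo hn1) i0
      have a3 := mul_nonneg i0 (sM_nonneg (pp G c s) 1)
      have a4 : (1 : ℝ) ≤ 4 * L ^ 2 := by nlinarith
      refine ⟨(h2 hs').const_mul κ, h3 hs', h4 hs', h5 hs', ?_, ?_⟩
      · rw [norm_smul, Real.norm_of_nonneg i0]
        exact a1.trans (le_mul_of_one_le_left a3 a4)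
      · rw [norm_smul, Real.norm_of_nonneg i0]
        linarith)
    ((intervalIntegrable_iff_integrableOn_Ioo_of_le s01.le).2 ((D.m1_int c s00).const_mul _))
    ((intervalIntegrable_iff_integrableOn_Ioo_of_le s01.le).2
      (ir.mono_set fun s hs => (sI hs).1))
    (fun s hs => ⟨t.gs s (sI' hs), t.g1 s (sI' hs)⟩)
    (ι := {j : J // s0 ≤ j.1.1}) (α := fun j => j.1.1.1) (β := fun j => j.1.1.2)
    (fun j => j.2) (fun j => (H.pJ _ j.1.2).2.1.le) (fun j => (H.pJ _ j.1.2).2.2.2)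
    (fun i j hij => H.dJ i.1.2 j.1.2 fun h => hij (Subtype.ext (Subtype.ext h)))
    mW
    (by
      have h1 := m1 c s1 l (Ioo s0 s1 ∩ ((⋃ j : {j : J // s0 ≤ j.1.1}, Ioo j.1.1.1 j.1.1.2) ∪
        {s | d ^ n < sM (pp G c s) n})) l0 e1
        (measurableSet_Ioo.inter ((MeasurableSet.iUnion fun _ => measurableSet_Ioo).union mW))
        (inter_subset_left.trans sI)
        (by
          refine le_trans (lintegral_mono_set fun s hs => ?_) (tB z r l l' c s1 T J gd H q3)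
          refine mem_inter (hs.2.imp_left fun h => ?_) (sI hs.1)
          obtain ⟨j, hj⟩ := mem_iUnion.1 h
          exact mem_iUnion₂.2 ⟨j.1.1, j.1.2, hj⟩)
      rw [integral_const_mul, hlam]
      exact mul_le_mul_of_nonneg_left h1.2 (by positivity))
    (fun j T' hT => by
      have pj := H.pJ _ j.1.2
      have h1 := tJ' K c0 C0 A z r l l' c s1 T J Cp y g mA hC0 hK hl' c01 gd q2 H t low j.1.1 j.1.2
        (T' - κ • y j.1.1.2) (by
          rw [sub_add_cancel]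
          exact b3 _ ⟨pj.1.trans pj.2.1, pj.2.2.2⟩ T' hT)
      rw [D.Q_ball, D.Q_ball, ← mul_sub] at h1
      exact le_of_mul_le_mul_left h1 o0)
    (by
      filter_upwards [tg κ ((le_max_left _ _).trans hκ) c0 z r l l' c s1 T J y g hc gd q1 H t,
        t.slc, t.ge, t.Fe] with s h1 h2 h3 h4 hs hO
      have hs' := sI hs
      have i0 : 0 ≤ s⁻¹ := inv_nonneg.2 hs'.1.le
      obtain ⟨ν, ν0, k1, k2, k3⟩ := h1 hs' fun j hj hm => by
        by_cases h : s0 ≤ j.1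
        · exact hO (mem_iUnion.2 ⟨⟨⟨j, hj⟩, h⟩, hm⟩)
        · exact s0O (mem_iUnion₂.2 ⟨j, hj, not_le.1 h, hs.1.trans hm.2⟩)
      have a1 := rr_le (G := G) (c0 * κ) hC0 A c hs'.1
      have a2 := (h2 hs').sR_shift hn2 (y s)
      have a3 : tm * (s⁻¹ * ν) ≤ 3 * (s⁻¹ * ν) :=
        mul_le_mul_of_nonneg_right (by linarith) (mul_nonneg i0 ν0)
      refine ⟨s⁻¹ * ν, mul_nonneg i0 ν0, ?_, fun hw => ?_, fun hw => ?_⟩
      · have a4 := mul_le_mul_of_nonneg_left k1 i0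
        rw [h3 hs', h4 hs', real_inner_smul_right, smul_apply, real_inner_smul_left]
        rw [sN] at a4
        linarith
      · have a4 := mul_le_mul_of_nonneg_left (k2 hw) i0
        rw [a2] at a4
        rw [real_inner_smul_left]
        linarith
      · have a4 := mul_le_mul_of_nonneg_left (k3 (not_lt.1 hw)) i0
        rw [a2] at a4
        rw [real_inner_smul_left, h4 hs', real_inner_smul_right]
        linarith)
    (Z := Z) ht1.ge (q0 := -(CQ * en G (closedBall c s0)) / om n)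
    (fun T' hT => by
      have m0 : s0 ∈ Ioc 0 s1 := ⟨s00, s01.le⟩
      have h1 := b3 s0 m0 T' hT
      have h2 := D.Q_le κ0.le (ball c s0) (T' - κ • y s0)
      have h3 := norm_sub_le T' (κ • y s0)
      rw [norm_smul, Real.norm_of_nonneg κ0.le] at h3
      have h4 := mul_le_mul_of_nonneg_left (t.yb s0 m0) κ0.le
      have h5 : κ + L * (‖T' - κ • y s0‖ + κ * L) ≤ CQ := by
        rw [hCQ]
        exact add_le_add le_rfl (mul_le_mul_of_nonneg_left (by linarith) (by linarith))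
      have h6 := mul_le_mul h5 (D.en_mono (ball_subset_closedBall (x := c) (ε := s0)))
        (en_nonneg _ _) CQ0.le
      have h7 := neg_abs_le (Q u G f κ (ball c s0) (T' - κ • y s0))
      rw [div_le_iff₀ o0, mul_comm _ (om n), ← D.Q_ball]
      linarith)
  have k1 := mul_le_mul_of_nonneg_left key o0.le
  rw [← D.Q_ball, mul_add, mul_div_cancel₀ _ o0.ne', intervalIntegral.integral_of_le s01.le,
    integral_Ioc_eq_integral_Ioo, er _ measurableSet_Ioo fun s hs => (sI hs).1] at k1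
  have mU : MeasurableSet {x : E n | dist x c ∈ Ioo s0 s1} :=
    (continuous_id.dist continuous_const).measurable measurableSet_Ioo
  have k2 := (D.split κ Z (U := ball c s1) (U1 := closedBall c s0) measurableSet_closedBall mU mA
    (disjoint_left.2 fun x h1 h2 => absurd h2.1 (not_lt.2 h1)) (Eq.eventuallyEq (by
      ext x
      constructor
      · intro h
        exact (le_or_gt (dist x c) s0).imp_right fun h' => ⟨h', h⟩
      · rintro (h | h)
        · exact (mem_closedBall.1 h).trans_lt s01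
        · exact h.2))).2.1
  have k3 : en G (A ∩ {x : E n | dist x c ∈ Ioo s0 s1}) ≤ en G (A ∩ ball c s1) :=
    D.en_mono (inter_subset_inter_right _ fun x hx => hx.2)
  have k4 := mul_le_mul_of_nonneg_left k3 hC0
  have k5 : (CQ + κ) * en G (closedBall c s0) ≤ η := by
    rwa [le_div_iff₀ (by positivity), mul_comm] at e0
  have k6 : c0 * κ * en G (closedBall c s0) ≤ κ * en G (closedBall c s0) :=
    mul_le_mul_of_nonneg_right (by nlinarith) (en_nonneg _ _)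
  rw [k2]
  linarith

end Pool.Agent.Lib.MP_a785f2_an.LZ
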