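import Pool.Agent.Lib.MP_a785f2_an.LZ.Tel

/-! The values off the holes and on the holes. -/

open MeasureTheory Metric Set Filter Topology
open scoped ContDiff RealInnerProductSpace ENNReal

namespace Pool.Agent.Lib.MP_a785f2_an.LZ

open HS (V)

variable {n m : ℕ} {Ω : Set (E n)} {P : V m → Op m} {L : ℝ} {N : Rl n m} {u : E n → V m}
  {G : E n → W n m} {f : E n → V m}

theorem Dat.vals (D : Dat Ω P L N u G f) : ∃ C : ℝ, 0 < C ∧ ∀ z r l l' c s1 T J,
    Good Ω G z r l → Hol Ω G z r l l' c s1 T J →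
    ‖av u c s1 - av u z r‖ ≤ C * l ∧
    (∀ᵐ x, x ∈ ball z r → (∀ b ∈ T, x ∉ ball b.1 b.2) →
      (dist x c ≤ s1 → ‖u x - av u c (dist x c)‖ ≤ C * l) ∧
      (s1 ≤ dist x c → ‖u x - av u z r‖ ≤ C * l)) ∧
    ∀ b ∈ T, (dist b.1 c ≤ s1 → ‖av u b.1 b.2 - av u c (dist b.1 c)‖ ≤ C * l) ∧
      (s1 ≤ dist b.1 c → ‖av u b.1 b.2 - av u z r‖ ≤ C * l) := by
  obtain ⟨C1, p1, cmp⟩ := D.cmp 1000000
  obtain ⟨C2, p2, tel⟩ := D.tel
  have := D.nontriv
  refine ⟨5 * C2 + 4 * C1, by positivity, fun z r l l' c s1 T J g h => ?_⟩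
  have r0 := g.r0
  have l0 := g.l0
  have lo := h.lo
  have hi := h.hi
  have a0 : 0 ≤ C1 * l := by positivity
  have b0 : 0 ≤ C2 * (5 * l) := by positivity
  have hv : (5 * C2 + 4 * C1) * l = C2 * (5 * l) + 4 * (C1 * l) := by ring
  have cz : 0 ≤ dist c z := dist_nonneg
  have sub : ∀ (x : E n) (t : ℝ), dist x z + t ≤ 2 * r → closedBall x t ⊆ Ω := fun x t k =>
    (closedBall_subset_closedBall' (by linarith)).trans g.sub
  have nst : ∀ (x x' : E n) (t t' : ℝ), 0 < t' → dist x' x + t' ≤ t → t ≤ 1000000 * t' →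
      dist x z + t ≤ 2 * r → ‖av u x' t' - av u x t‖ ≤ C1 * l := fun x x' t t' k1 k2 k3 k4 =>
    cmp x' t' x t l k1 l0.le (ball_subset_ball' (by linarith)) k3 (sub x t k4)
      ((D.en_mono (ball_subset_ball' (by linarith))).trans
        (g.e2.trans (by linarith [pow_pos l0 n])))
  have two : ∀ (x x' y : E n) (t t' s : ℝ), 0 < t' → dist x' x + t' ≤ t → t ≤ 1000000 * t' →
      0 < s → dist y x + s ≤ t → t ≤ 1000000 * s → dist x z + t ≤ 2 * r →
      ‖av u x' t' - av u y s‖ ≤ 2 * (C1 * l) := fun x x' y t t' s k1 k2 k3 k4 k5 k6 k7 => by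
    have e1 := nst x x' t t' k1 k2 k3 k7
    have e2 := nst x y t s k4 k5 k6 k7
    rw [norm_sub_rev] at e2
    linarith [norm_sub_le_norm_sub_add_norm_sub (av u x' t') (av u x t) (av u y s)]
  have sgl : ∀ x, sgm c r x ≤ r / 2 := fun x => min_le_right _ _
  have sgd : ∀ x, sgm c r x ≤ dist x c := fun x => min_le_left _ _
  have sge : ∀ x a, a ≤ dist x c → a ≤ r / 2 → a ≤ sgm c r x := fun x a k1 k2 => le_min k1 k2
  have tl : ∀ x ∈ ball z r, (∀ b ∈ T, x ∉ ball b.1 b.2) → 0 < sgm c r x → ∀ t, 0 < t →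
      t ≤ sgm c r x / 100 → ‖av u x t - av u x (sgm c r x / 100)‖ ≤ C2 * (5 * l) :=
    fun x k1 k2 k3 => tel x _ _ k3 (by positivity)
      (sub x _ (by linarith [mem_ball.1 k1, sgl x]))
      (h.nb x k1 (dist_pos.1 (k3.trans_le (sgd x))) k2)
  refine ⟨?_, ?_, fun b hb => ?_⟩
  · linarith [nst z c r s1 (by linarith) (by linarith) (by linarith) (by rw [dist_self]; linarith)]
  · have hc : ∀ᵐ x : E n, x ≠ c := by
      rw [ae_iff]; simp
    filter_upwards [D.leb, hc] with x hx xc k1 k2
    have d0 : 0 < dist x c := dist_pos.2 xc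
    have s0 : 0 < sgm c r x := lt_min d0 (by linarith)
    have x1 : dist x z < r := mem_ball.1 k1
    have e1 : ‖u x - av u x (sgm c r x / 100)‖ ≤ C2 * (5 * l) := by
      refine le_of_tendsto (hx.sub_const _).norm ?_
      filter_upwards [Ioc_mem_nhdsGT (show 0 < sgm c r x / 100 by linarith)] with t ht
      exact tl x k1 k2 s0 t ht.1 ht.2
    refine ⟨fun k3 => ?_, fun k3 => ?_⟩
    · have s2 := sge x (dist x c) le_rfl (by linarith)
      have e2 := two c x c (2 * dist x c) (sgm c r x / 100) (dist x c) (by linarith)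
        (by linarith [sgd x]) (by linarith) d0 (by rw [dist_self]; linarith) (by linarith)
        (by linarith)
      linarith [norm_sub_le_norm_sub_add_norm_sub (u x) (av u x (sgm c r x / 100))
        (av u c (dist x c))]
    · have s2 := sge x (r / 4000) (by linarith) (by linarith)
      have e2 := two z x z (3 * r / 2) (sgm c r x / 100) r (by linarith)
        (by linarith [sgl x]) (by linarith) r0 (by rw [dist_self]; linarith) (by linarith)
        (by rw [dist_self]; linarith)
      linarith [norm_sub_le_norm_sub_add_norm_sub (u x) (av u x (sgm c r x / 100)) (av u z r)]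
  · have ρ0 := (h.gT b hb).r0
    obtain ⟨x, hx⟩ := (NormedSpace.sphere_nonempty (x := b.1) (r := b.2)).2 ρ0.le
    have d1 : dist x b.1 = b.2 := mem_sphere.1 hx
    have k1 : x ∈ ball z r := h.sT b hb (sphere_subset_closedBall hx)
    have x1 : dist x z < r := mem_ball.1 k1
    have s2 := h.rT b hb x (sphere_subset_closedBall hx)
    have s3 := h.rT b hb b.1 (mem_closedBall_self ρ0.le)
    have k2 : ∀ b' ∈ T, x ∉ ball b'.1 b'.2 := fun b' hb' hm => by
      by_cases e : b' = b
      · rw [e] at hm; linarith [mem_ball.1 hm]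
      · have k := (h.dT hb hb' (Ne.symm e)).closure_left isOpen_ball
        rw [closure_ball _ ρ0.ne'] at k
        exact Set.disjoint_left.1 k (sphere_subset_closedBall hx) hm
    have e1 := tl x k1 k2 (by linarith) b.2 ρ0 s2
    have e2 := two x b.1 x (2 * b.2) b.2 b.2 ρ0 (by rw [dist_comm, d1]; linarith) (by linarith) ρ0
      (by rw [dist_self]; linarith) (by linarith) (by linarith [sgl x])
    have e3 := norm_sub_le_norm_sub_add_norm_sub (av u b.1 b.2) (av u x b.2)
      (av u x (sgm c r x / 100))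
    have t1 := dist_triangle x b.1 c
    have t2 := dist_triangle_left b.1 c x
    have t3 := sgd b.1
    rw [dist_comm x b.1] at t2
    rw [dist_comm] at d1
    rw [dist_comm x b.1] at t1
    refine ⟨fun k3 => ?_, fun k3 => ?_⟩
    · have s4 := sge x (dist b.1 c / 2) (by linarith) (by linarith)
      have e4 := two c x c (2 * dist b.1 c) (sgm c r x / 100) (dist b.1 c) (by linarith)
        (by linarith [sgd x]) (by linarith) (by linarith) (by rw [dist_self]; linarith)
        (by linarith) (by linarith)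
      linarith [norm_sub_le_norm_sub_add_norm_sub (av u b.1 b.2) (av u x (sgm c r x / 100))
        (av u c (dist b.1 c))]
    · have s4 := sge x (r / 5000) (by linarith) (by linarith)
      have e4 := two z x z (3 * r / 2) (sgm c r x / 100) r (by linarith)
        (by linarith [sgl x]) (by linarith) r0 (by rw [dist_self]; linarith) (by linarith)
        (by rw [dist_self]; linarith)
      linarith [norm_sub_le_norm_sub_add_norm_sub (av u b.1 b.2) (av u x (sgm c r x / 100))
        (av u z r)]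

end Pool.Agent.Lib.MP_a785f2_an.LZ
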